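import Pool.Agent.Work.MP_859ada_lc.FC.Stmts

/-! Item AMP of block FC. -/

set_option autoImplicit false

namespace Pool.Agent.Work.MP_859ada_lc.FC

open Polynomial Pool.Agent.PT Finset

theorem AMP_am (z : ℝ) (h0 : 0 ≤ z) (h1 : z ≤ 1) : 0 ≤ am z ∧ am z ≤ 1 := by
  unfold am
  constructor
  · exact mul_nonneg (sq_nonneg z) (by linarith)
  · nlinarith [mul_nonneg (sq_nonneg (z - 1)) (show (0 : ℝ) ≤ 2 * z + 1 by linarith)]

theorem AMP_lg (z : ℝ) (h0 : 0 ≤ z) (h1 : z ≤ 1) : 0 ≤ lg z ∧ lg z ≤ 1 := by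
  unfold lg
  constructor
  · exact mul_nonneg (by linarith) (by linarith)
  · nlinarith [sq_nonneg (1 - 2 * z)]

theorem AMP_it (f : ℝ → ℝ) (hf : ∀ z, 0 ≤ z → z ≤ 1 → 0 ≤ f z ∧ f z ≤ 1) (n : ℕ) (z : ℝ)
    (h0 : 0 ≤ z) (h1 : z ≤ 1) : 0 ≤ f^[n] z ∧ f^[n] z ≤ 1 := by
  induction n with
  | zero => exact ⟨h0, h1⟩
  | succ n ih => rw [Function.iterate_succ_apply']; exact hf _ ih.1 ih.2

theorem AMP_abs (z b : ℝ) (h0 : 0 ≤ z) (h1 : z ≤ 1) (hb : b = 0 ∨ b = 1) :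
    |am z - b| = am |z - b| := by
  rcases hb with rfl | rfl
  · rw [sub_zero, sub_zero, abs_of_nonneg h0, abs_of_nonneg (AMP_am z h0 h1).1]
  · rw [abs_sub_comm, abs_sub_comm z 1, abs_of_nonneg (by linarith : (0 : ℝ) ≤ 1 - z),
      abs_of_nonneg (by linarith [(AMP_am z h0 h1).2])]
    unfold am
    ring

theorem AMP_mono (x y : ℝ) (h0 : 0 ≤ x) (h : x ≤ y) (h1 : y ≤ 1) : am x ≤ am y := by
  unfold am
  nlinarith [mul_nonneg h0 (sub_nonneg.2 h), mul_nonneg (sub_nonneg.2 h) (sub_nonneg.2 h1),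
    mul_nonneg (mul_nonneg h0 (sub_nonneg.2 h)) (sub_nonneg.2 h1),
    mul_nonneg (mul_nonneg (sub_nonneg.2 h) (sub_nonneg.2 h)) (sub_nonneg.2 h1),
    mul_nonneg (mul_nonneg h0 (sub_nonneg.2 h)) (by linarith : (0 : ℝ) ≤ 1 - x),
    mul_nonneg (mul_nonneg (le_trans h0 h) (sub_nonneg.2 h)) (by linarith : (0 : ℝ) ≤ 1 - x),
    mul_nonneg (mul_nonneg (le_trans h0 h) (sub_nonneg.2 h)) (sub_nonneg.2 h1)]

theorem AMP_key (z b : ℝ) (h0 : 0 ≤ z) (h1 : z ≤ 1) (hb : b = 0 ∨ b = 1) (h : |z - b| ≤ 41 / 100)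
    (r : ℕ) (hr : 5 ≤ r) : 3 * |am^[r] z - b| ≤ (1 / 2) ^ (2 ^ (r - 5)) := by
  have hs : ∀ n, |am^[n + 1] z - b| = am |am^[n] z - b| := by
    intro n
    rw [Function.iterate_succ_apply']
    exact AMP_abs _ b (AMP_it am AMP_am n z h0 h1).1 (AMP_it am AMP_am n z h0 h1).2 hb
  have hstep : ∀ (n : ℕ) (c : ℝ), c ≤ 1 → |am^[n] z - b| ≤ c → |am^[n + 1] z - b| ≤ am c := by
    intro n c hc hn
    rw [hs n]
    exact AMP_mono _ _ (abs_nonneg _) hn hc
  have e0 : |am^[0] z - b| ≤ 41 / 100 := h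
  have e1 : |am^[1] z - b| ≤ 37 / 100 :=
    (hstep 0 _ (by norm_num) e0).trans (by unfold am; norm_num)
  have e2 : |am^[2] z - b| ≤ 31 / 100 :=
    (hstep 1 _ (by norm_num) e1).trans (by unfold am; norm_num)
  have e3 : |am^[3] z - b| ≤ 23 / 100 :=
    (hstep 2 _ (by norm_num) e2).trans (by unfold am; norm_num)
  have e4 : |am^[4] z - b| ≤ 14 / 100 :=
    (hstep 3 _ (by norm_num) e3).trans (by unfold am; norm_num)
  have e5 : |am^[5] z - b| ≤ 1 / 6 :=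
    (hstep 4 _ (by norm_num) e4).trans (by unfold am; norm_num)
  induction r, hr using Nat.le_induction with
  | base =>
    simp only [Nat.sub_self, pow_zero, pow_one]
    linarith
  | succ r hr ih =>
    have h5 : r + 1 - 5 = (r - 5) + 1 := by omega
    rw [h5, pow_succ 2 (r - 5), pow_mul, hs r]
    have h2 : 3 * am |am^[r] z - b| ≤ (3 * |am^[r] z - b|) ^ 2 := by
      have := abs_nonneg (am^[r] z - b)
      unfold am
      unfold am at this
      nlinarith [pow_nonneg this 3, sq_nonneg (|(fun z : ℝ => z ^ 2 * (3 - 2 * z))^[r] z - b|)]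
    refine h2.trans ?_
    exact pow_le_pow_left₀ (by positivity) ih 2

theorem AMP_int (r : ℕ) (z : ℤ) (h0 : z ≠ 0) (h1 : z ≠ 1) : am^[r] z ≠ 0 ∧ am^[r] z ≠ 1 := by
  induction r with
  | zero => exact ⟨h0, h1⟩
  | succ r ih =>
    rw [Function.iterate_succ_apply']
    obtain ⟨i0, i1⟩ := ih
    generalize am^[r] z = w at i0 i1
    unfold am
    constructor
    · exact mul_ne_zero (pow_ne_zero 2 i0) (by omega)
    · intro hw
      have h : (w - 1) ^ 2 * (2 * w + 1) = 0 := by linear_combination (-1 : ℤ) * hw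
      rcases mul_eq_zero.1 h with h | h
      · exact i1 (by have := pow_eq_zero_iff (two_ne_zero) |>.1 h; omega)
      · omega

theorem prfAMP : AMP := by
  refine ⟨?_, ?_, ?_⟩
  · intro r i t h0 h1
    unfold bt
    have h := AMP_it lg AMP_lg (2 * i) t h0 h1
    exact AMP_it am AMP_am r _ h.1 h.2
  · intro z b h0 h1 hb h r hr
    have := AMP_key z b h0 h1 hb h r hr
    linarith [abs_nonneg (am^[r] z - b)]
  · intro r z h0 h1
    exact AMP_int r z h0 h1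

end Pool.Agent.Work.MP_859ada_lc.FC
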