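import Pool.Agent.Work.MP_859ada_lc.FC.Stmts

/-!
# Block FC, item BNA: the universal program with the clauses
-/

set_option autoImplicit false

namespace Pool.Agent.Work.MP_859ada_lc.FC

open Polynomial Pool.Agent.PT Finset

section BNA

variable {N M J : ℕ} {φ : List (List (Bool × Nm))} {nm : ℕ → Nm} {V : List Nm}

/-- The names of the clauses are in the list. -/
theorem BNA_mem_clause (hV : V = vlist φ nm M) {c : ℕ} (hc : c < φ.length) {l : Bool × Nm}
    (hl : l ∈ φ[c]) : l.2 ∈ V := by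
  rw [hV]
  unfold vlist
  rw [List.mem_append]
  left
  exact List.mem_map.2 ⟨l, List.mem_flatten.2 ⟨_, List.getElem_mem hc, hl⟩, rfl⟩

/-- The names of the bits of the program are in the list. -/
theorem BNA_mem_bit (hV : V = vlist φ nm M) {B : ℕ} (hM : B ≤ M) {t : ℕ} (ht : t < B) :
    nm t ∈ V := by
  rw [hV]
  unfold vlist
  rw [List.mem_append]
  right
  exact List.mem_map.2 ⟨_, List.mem_range.2 (by omega), rfl⟩

theorem BNA_wf : ∀ q ∈ (uP N (fun t => V.idxOf (nm t)) 0 0 ::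
    (List.range φ.length).map (fun c => clP (fun ν => V.idxOf ν) V.length (φ.getD c []))),
    WF (V.length + 1) q := by
  intro q hq
  rcases List.mem_cons.1 hq with h | h
  · rw [h]
    exact uP_wf (by omega) (fun t _ => Nat.lt_succ_of_le List.idxOf_le_length)
  · obtain ⟨c, -, rfl⟩ := List.mem_map.1 h
    exact clP_wf (by omega) (fun l _ => Nat.lt_succ_of_le List.idxOf_le_length)

/-- The value of the program. -/
theorem BNA_value (h1 : SBV) (h2 : LIN) (y : ℕ → ℤ) :
    value y (fU N φ nm V J) = value y (uP N (fun t => V.idxOf (nm t)) 0 0) -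
      2 ^ (2 ^ J) * ∑ i ∈ range φ.length,
        (y V.length ^ 2 + ((φ.getD i []).map (litv (fun ν => V.idxOf ν) y)).prod) := by
  unfold fU
  rw [h1 ℤ _ _ _ y BNA_wf, (h2.2 _ _).2]
  congr 1
  congr 1
  refine Finset.sum_congr rfl fun i hi => ?_
  have hi' : i < φ.length := Finset.mem_range.1 hi
  rw [List.getD_cons_succ, List.getD_eq_getElem _ _ (by simpa using hi'), List.getElem_map,
    List.getElem_range]
  exact clP_value (n := V.length + 1) (by omega)
    (fun l _ => Nat.lt_succ_of_le List.idxOf_le_length) y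

theorem BNA_prod_nonneg {l : List (Bool × Nm)} {f : Bool × Nm → ℤ} (h : ∀ a ∈ l, f a = 0 ∨ f a = 1) :
    0 ≤ (l.map f).prod := by
  apply List.prod_nonneg
  intro b hb
  obtain ⟨a, ha, rfl⟩ := List.mem_map.1 hb
  rcases h a ha with h | h
  · rw [h]
  · rw [h]
    norm_num

theorem BNA_litv {y : ℕ → ℤ} (hy : ∀ i, y i = 0 ∨ y i = 1) (idx : Nm → ℕ) (l : Bool × Nm) :
    litv idx y l = 0 ∨ litv idx y l = 1 := by
  unfold litv
  rcases hy (idx l.2) with h | h <;> rw [h] <;> split_ifs <;> simp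

/-- The size of the value of the universal program at bits. -/
theorem BNA_size {p : List Gate} (hp : p.length ≤ J) {y : ℕ → ℤ} (hy : ∀ i, y i = 0 ∨ y i = 1) :
    value y p ≤ 2 ^ (2 ^ J) := by
  have h1 := value_map (Int.castRingHom ℝ) y p
  have h2 := norm_value_le (𝕜 := ℝ) (M := 2) le_rfl (x := fun i => (Int.castRingHom ℝ) (y i))
    (fun i => by rcases hy i with h | h <;> rw [h] <;> norm_num) hp
  rw [h1, Real.norm_eq_abs] at h2
  have h3 : ((value y p : ℤ) : ℝ) ≤ 2 ^ (2 ^ J) := (le_abs_self _).trans h2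
  exact_mod_cast h3

/-- The value of the universal program for a described program. -/
theorem BNA_uP (hN : 1 ≤ N) (hV : V = vlist φ nm M) (hM : N * (glist N).length ≤ M)
    {v : Nm → Bool} {q : List Gate} (hD : Desc1 N nm v q) {y : ℕ → ℤ}
    (hy : ∀ ν ∈ V, y (V.idxOf ν) = if v ν = true then 1 else 0) {c : ℤ}
    (hc : ∀ x : ℕ → ℤ, value x q = c) :
    value y (uP N (fun t => V.idxOf (nm t)) 0 0) = c := by
  obtain ⟨h1, h2, h3⟩ := hD
  rw [uP_value hN (n := V.length + 1) (by omega)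
    (fun t _ => Nat.lt_succ_of_le List.idxOf_le_length) h1 h2]
  · exact hc _
  · intro k hk l hl
    rw [hy _ (BNA_mem_bit hV hM (flat_lt hk hl))]
    have h6 := h3 k hk l hl
    by_cases h7 : (glist N).idxOf (q.getD k .one) = l
    · rw [if_pos (h6.2 h7), if_pos h7]
    · rw [if_neg (fun h => h7 (h6.1 h)), if_neg h7]

theorem BNA_sound (h1 : SBV) (h2 : LIN) (hN : 1 ≤ N) (hV : V = vlist φ nm M)
    (hM : N * (glist N).length ≤ M) (hJ : 2 + N * ((glist N).length * 4) ≤ J) {y : ℕ → ℤ}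
    (hy : ∀ i, y i = 0 ∨ y i = 1) (h : 0 < value y (fU N φ nm V J)) :
    ∃ v : Nm → Bool, SatBy v φ ∧ ∀ (q : List Gate) (c : ℤ), Desc1 N nm v q →
      (∀ x : ℕ → ℤ, value x q = c) → 0 < c := by
  classical
  rw [BNA_value h1 h2] at h
  obtain ⟨v, hv⟩ : ∃ v : Nm → Bool, v = fun ν => decide (y (V.idxOf ν) = 1) := ⟨_, rfl⟩
  have hvy : ∀ ν ∈ V, y (V.idxOf ν) = if v ν = true then 1 else 0 := by
    intro ν _
    rw [hv]
    simp only [decide_eq_true_eq]
    split_ifs with h5
    · exact h5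
    · exact (hy _).resolve_right h5
  have hsize := BNA_size (J := J) (p := uP N (fun t => V.idxOf (nm t)) 0 0)
    (by rw [length_uP]; exact hJ) hy
  have hterm : ∀ i ∈ range φ.length,
      0 ≤ y V.length ^ 2 + ((φ.getD i []).map (litv (fun ν => V.idxOf ν) y)).prod := fun i _ =>
    add_nonneg (sq_nonneg _) (BNA_prod_nonneg (fun a _ => BNA_litv hy _ a))
  have hS := Finset.sum_nonneg hterm
  have hpos : (0 : ℤ) < 2 ^ (2 ^ J) := by positivity
  have hS0 : ∑ i ∈ range φ.length,
      (y V.length ^ 2 + ((φ.getD i []).map (litv (fun ν => V.idxOf ν) y)).prod) = 0 := by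
    rcases hS.lt_or_eq with hlt | heq
    · exfalso
      nlinarith
    · exact heq.symm
  rw [hS0, mul_zero, sub_zero] at h
  refine ⟨v, ?_, fun q c hq hc => ?_⟩
  · intro c hc
    obtain ⟨i, hi, rfl⟩ := List.getElem_of_mem hc
    have h4 := (Finset.sum_eq_zero_iff_of_nonneg hterm).1 hS0 i (Finset.mem_range.2 hi)
    have h6 : ((φ.getD i []).map (litv (fun ν => V.idxOf ν) y)).prod = 0 := by
      have g1 := sq_nonneg (y V.length)
      have g2 := BNA_prod_nonneg (l := φ.getD i [])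
        (fun a _ => BNA_litv hy (fun ν => V.idxOf ν) a)
      linarith
    rw [List.getD_eq_getElem _ _ hi, List.prod_eq_zero_iff] at h6
    obtain ⟨l, hl, h7⟩ := List.mem_map.1 h6
    refine ⟨l, hl, ?_⟩
    have h8 := hvy l.2 (BNA_mem_clause hV hi hl)
    unfold litv at h7
    rw [h8] at h7
    revert h7
    cases l.1 <;> cases v l.2 <;> simp
  · rw [BNA_uP hN hV hM hq hvy hc] at h
    exact h

theorem BNA_complete (h1 : SBV) (h2 : LIN) (hN : 1 ≤ N) (hV : V = vlist φ nm M)
    (hM : N * (glist N).length ≤ M) {v : Nm → Bool} (hv : SatBy v φ) {q : List Gate} {c : ℤ}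
    (hq : Desc1 N nm v q) (hc : ∀ x : ℕ → ℤ, value x q = c) (hc0 : 0 < c) :
    ∃ y : ℕ → ℤ, (∀ i, y i = 0 ∨ y i = 1) ∧ 0 < value y (fU N φ nm V J) := by
  classical
  obtain ⟨y, hy⟩ : ∃ y : ℕ → ℤ, y = fun k => if k < V.length then
      (if v (V.getD k (0, 0, 0, 0)) = true then 1 else 0) else 0 := ⟨_, rfl⟩
  have hbit : ∀ k, y k = 0 ∨ y k = 1 := by
    intro k
    rw [hy]
    dsimp only
    split_ifs
    · exact Or.inr rfl
    · exact Or.inl rfl
    · exact Or.inl rfl
  have hvy : ∀ ν ∈ V, y (V.idxOf ν) = if v ν = true then 1 else 0 := by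
    intro ν hν
    have h4 := List.idxOf_lt_length_of_mem hν
    rw [hy]
    dsimp only
    rw [if_pos h4, List.getD_eq_getElem _ _ h4, List.getElem_idxOf]
  refine ⟨y, hbit, ?_⟩
  rw [BNA_value h1 h2, BNA_uP hN hV hM hq hvy hc]
  have hS0 : ∑ i ∈ range φ.length,
      (y V.length ^ 2 + ((φ.getD i []).map (litv (fun ν => V.idxOf ν) y)).prod) = 0 := by
    refine Finset.sum_eq_zero fun i hi => ?_
    have hi' : i < φ.length := Finset.mem_range.1 hi
    have h0 : y V.length = 0 := by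
      rw [hy]
      dsimp only
      rw [if_neg (by omega)]
    obtain ⟨l, hl, hvl⟩ := hv _ (List.getElem_mem hi')
    have h5 := hvy l.2 (BNA_mem_clause hV hi' hl)
    have h6 : ((φ[i]).map (litv (fun ν => V.idxOf ν) y)).prod = 0 := by
      rw [List.prod_eq_zero_iff]
      refine List.mem_map.2 ⟨l, hl, ?_⟩
      unfold litv
      rw [h5, hvl]
      cases l.1 <;> simp
    rw [List.getD_eq_getElem _ _ hi', h6, h0]
    norm_num
  rw [hS0, mul_zero, sub_zero]
  exact hc0

end BNA

theorem prfBNA (h1 : SBV) (h2 : LIN) : BNA := by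
  intro N M J φ nm V hN hV hM hJ
  exact ⟨fun y hy h => BNA_sound h1 h2 hN hV hM hJ hy h,
    fun v hv q c hq hc hc0 => BNA_complete h1 h2 hN hV hM hv hq hc hc0⟩

end Pool.Agent.Work.MP_859ada_lc.FC
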