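import Pool.Agent.Work.MP_859ada_lc.FC.Stmts

/-!
# MP_859ada_lc, block FC, item BNB: from nondeterminism to bits as inputs, for one program
-/

set_option autoImplicit false

namespace Pool.Agent.Work.MP_859ada_lc.FC

open Polynomial Pool.Agent.PT Finset

/-- The bits which describe the program `q`. -/
def BNB_bits (N : ℕ) (q : List Gate) : List Bool :=
  (List.range (N * (glist N).length)).map (fun t => decide ((glist N).idxOf
    (q.getD (t / (glist N).length) .one) = t % (glist N).length))

theorem BNB_bits_length (N : ℕ) (q : List Gate) :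
    (BNB_bits N q).length = N * (glist N).length := by
  unfold BNB_bits; simp

theorem BNB_bits_get {N : ℕ} {q : List Gate} {k l : ℕ} (hk : k < N)
    (hl : l < (glist N).length) :
    (BNB_bits N q).getD (k * (glist N).length + l) false =
      decide ((glist N).idxOf (q.getD k .one) = l) := by
  have h1 := flat_lt hk hl
  rw [List.getD_eq_getElem _ _ (by unfold BNB_bits; simpa using h1)]
  unfold BNB_bits
  rw [List.getElem_map, List.getElem_range]
  have e3 : (k * (glist N).length + l) / (glist N).length = k := by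
    rw [Nat.mul_comm, Nat.mul_add_div (by omega), Nat.div_eq_of_lt hl, Nat.add_zero]
  have e4 : (k * (glist N).length + l) % (glist N).length = l := by
    rw [Nat.mul_comm, Nat.mul_add_mod, Nat.mod_eq_of_lt hl]
  rw [e3, e4]

theorem BNB_ptf_bits {α : Type} [Enc α] {N : α → ℕ} {q : α → List Gate} (hN : PTF N)
    (hq : PTF q) : PTF (fun a => BNB_bits (N a) (q a)) := by
  unfold BNB_bits
  refine PTF.map' ?_ (by fun_prop)
  fun_prop

theorem BNB_ptf_padP {α : Type} [Enc α] {N : α → ℕ} {q : α → List Gate} (hN : PTF N)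
    (hq : PTF q) : PTF (fun a => padP (N a) 0 (q a)) := by
  unfold padP
  fun_prop

theorem BNB_desc {N : ℕ} {q : List Gate} (hlen : q.length + 3 ≤ N) {nm : ℕ → Nm}
    {v : Nm → Bool}
    (hv : ∀ t < N * (glist N).length, v (nm t) = (BNB_bits N (padP N 0 q)).getD t false) :
    Desc1 N nm v (padP N 0 q) := by
  refine ⟨length_padP hlen, fun k hk => padP_mem hlen (by omega) k hk, fun k hk l hl => ?_⟩
  rw [hv _ (flat_lt hk hl), BNB_bits_get hk hl, decide_eq_true_eq]

theorem BNB_value {N : ℕ} {q : List Gate} (hlen : q.length + 3 ≤ N) (hq : WF 0 q)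
    (x : ℕ → ℤ) : value x (padP N 0 q) = value (fun _ => (0 : ℤ)) q := by
  rw [padP_value hlen]
  exact value_wf0 hq _ _

theorem BNB_ptf_fU (h2 : LIN) (h4 : SBT) {α : Type} [Enc α] {N J : α → ℕ}
    {φ : α → List (List (Bool × Nm))} {nm : α → ℕ → Nm} {V : α → List Nm} (hN : PTF N)
    (hφ : PTF φ) (hnm : PTF (fun p : α × ℕ => nm p.1 p.2)) (hV : PTF V) (hJ : PTF J) :
    PTF (fun a => fU (N a) (φ a) (nm a) (V a) (J a)) := by
  unfold fU
  have hlin : PTF (fun a => linP (φ a).length (J a)) :=
    PTF.comp (f := fun x : ℕ × ℕ => linP x.1 x.2) (g := fun a => ((φ a).length, J a)) h2.1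
      (by fun_prop)
  have hu : PTF (fun a => uP (N a) (fun t => (V a).idxOf (nm a t)) 0 0) :=
    PTF.uP (bi := fun a t => (V a).idxOf (nm a t)) hN (by fun_prop) (by fun_prop) (by fun_prop)
  have hc : PTF (fun a => (List.range (φ a).length).map
      (fun c => clP (fun ν => (V a).idxOf ν) (V a).length ((φ a).getD c []))) := by
    refine PTF.map' ?_ (by fun_prop)
    exact PTF.clP (α := α × ℕ) (idx := fun p ν => (V p.1).idxOf ν) (by fun_prop) (by fun_prop)
      (by fun_prop)
  exact PTF.comp (f := fun x : (ℕ × List (List Gate)) × List Gate => substP x.1.1 x.1.2 x.2)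
    (g := fun a => (((V a).length + 1, uP (N a) (fun t => (V a).idxOf (nm a t)) 0 0 ::
      (List.range (φ a).length).map
        (fun c => clP (fun ν => (V a).idxOf ν) (V a).length ((φ a).getD c []))),
      linP (φ a).length (J a))) h4 (by fun_prop)

theorem prfBNB (h1 : BNA) (h2 : LIN) (h3 : SBW) (h4 : SBT) : BNB := by
  intro P m R Q hm hR hQ hW hP
  -- a bound for the sizes
  obtain ⟨k, hk⟩ := hQ.size
  have hmP : PB m := hm.size.mono (fun a => by rw [sz_nat]; omega)
  have hB1 : PB (fun a : List Bool => (sz a + (4 * m a + 1) + 1 + 2) ^ k) :=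
    (((PB.sz.add (((PB.const 4).mul hmP).add (PB.const 1))).add (PB.const 1)).add
      (PB.const 2)).pow k
  obtain ⟨N₀, hN₀, hN₀'⟩ := hB1.exists_ptf
  have hbound : ∀ (a w : List Bool), w.length = m a → sz (Q (a, w)) ≤ N₀ a := by
    intro a w hw
    refine (hk (a, w)).trans (le_trans (Nat.pow_le_pow_left ?_ _) (hN₀' a))
    rw [sz_pair]
    have := Pool.Agent.Work.MP_46935e_lc.sz_bits w
    omega
  obtain ⟨N, hNdef⟩ : ∃ N : List Bool → ℕ, N = fun a => N₀ a + 4 := ⟨_, rfl⟩
  have hN : PTF N := by rw [hNdef]; fun_prop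
  have hN4 : ∀ a, 4 ≤ N a := fun a => by rw [hNdef]; dsimp only; omega
  have hlen : ∀ a w, w.length = m a → (Q (a, w)).length + 3 ≤ N a := by
    intro a w hw
    have h1 := hbound a w hw
    have h3 := length_le_sz (Q (a, w))
    rw [hNdef]
    dsimp only
    omega
  obtain ⟨B, hBdef⟩ : ∃ B : List Bool → ℕ, B = fun a => N a * (glist (N a)).length := ⟨_, rfl⟩
  have hB : PTF B := by rw [hBdef]; fun_prop
  -- the relation
  have hR' : PTF (fun p : List Bool × List Bool => R (p.1, p.2.drop (B p.1)) &&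
      decide (p.2.take (B p.1) =
        BNB_bits (N p.1) (padP (N p.1) 0 (Q (p.1, p.2.drop (B p.1)))))) := by
    have h1 : PTF (fun p : List Bool × List Bool => R (p.1, p.2.drop (B p.1))) :=
      PTF.comp (f := R) (g := fun p : List Bool × List Bool => (p.1, p.2.drop (B p.1))) hR
        (by fun_prop)
    have h2 : PTF (fun p : List Bool × List Bool => Q (p.1, p.2.drop (B p.1))) :=
      PTF.comp (f := Q) (g := fun p : List Bool × List Bool => (p.1, p.2.drop (B p.1))) hQ
        (by fun_prop)
    have h3 : PTF (fun p : List Bool × List Bool =>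
        BNB_bits (N p.1) (padP (N p.1) 0 (Q (p.1, p.2.drop (B p.1))))) :=
      BNB_ptf_bits (by fun_prop) (BNB_ptf_padP (by fun_prop) h2)
    fun_prop
  have hM : PTF (fun a => B a + m a) := by fun_prop
  obtain ⟨f, nm, hf, hnm, hsound, hcomplete⟩ := sat_link hR' hM
  have hnm' : PTF (fun p : List Bool × ℕ => (fun a t => nm (a, t)) p.1 p.2) := hnm
  obtain ⟨V, hVdef⟩ : ∃ V : List Bool → List Nm,
      V = fun a => vlist (f a) (fun t => nm (a, t)) (B a + m a) := ⟨_, rfl⟩
  have hV : PTF V := by rw [hVdef]; exact PTF.vlist hf hnm' hM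
  refine ⟨fun a => (V a).length + 1,
    fun a => fU (N a) (f a) (fun t => nm (a, t)) (V a) (2 + B a * 4), by fun_prop,
    BNB_ptf_fU h2 h4 hN hf hnm' hV (by fun_prop), fun a => ⟨Nat.le_add_left 1 _, ?_, ?_⟩⟩
  · exact (h3 _ _ _).1
  have hNa := hN4 a
  have hBa : B a = N a * (glist (N a)).length := by rw [hBdef]
  have hMa : N a * (glist (N a)).length ≤ B a + m a := by omega
  have hJa : 2 + N a * ((glist (N a)).length * 4) ≤ 2 + B a * 4 := by
    rw [hBa, Nat.mul_assoc]
  obtain ⟨hA, hC⟩ := h1 (N a) (B a + m a) (2 + B a * 4) (f a) (fun t => nm (a, t)) (V a)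
    (by omega) (by rw [hVdef]) hMa hJa
  rw [hP]
  constructor
  · rintro ⟨w, hw, hRw, hT⟩
    have hl : (BNB_bits (N a) (padP (N a) 0 (Q (a, w)))).length = B a := by
      rw [BNB_bits_length, hBa]
    have hdrop : (BNB_bits (N a) (padP (N a) 0 (Q (a, w))) ++ w).drop (B a) = w := by
      rw [← hl, List.drop_left]
    have htake : (BNB_bits (N a) (padP (N a) 0 (Q (a, w))) ++ w).take (B a) =
        BNB_bits (N a) (padP (N a) 0 (Q (a, w))) := by
      rw [← hl, List.take_left]
    obtain ⟨v, hv, hvj⟩ := hcomplete a (BNB_bits (N a) (padP (N a) 0 (Q (a, w))) ++ w)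
      (by rw [List.length_append, hl, hw]) (by
        dsimp only
        rw [hdrop, htake, hRw]
        simp)
    have hD : Desc1 (N a) (fun t => nm (a, t)) v (padP (N a) 0 (Q (a, w))) := by
      refine BNB_desc (hlen a w hw) (fun t ht => ?_)
      rw [← hBa] at ht
      rw [hvj t (by omega), List.getD_append _ _ _ _ (by rw [hl]; exact ht)]
    exact hC v hv _ _ hD (BNB_value (hlen a w hw) (hW (a, w))) hT
  · rintro ⟨y, hy, hpos⟩
    obtain ⟨v, hv, hvq⟩ := hA y hy hpos
    have h1 := hsound a v hv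
    obtain ⟨u, hu⟩ : ∃ u, u = (List.range (B a + m a)).map (fun j => v (nm (a, j))) := ⟨_, rfl⟩
    rw [← hu] at h1
    dsimp only at h1
    rw [Bool.and_eq_true, decide_eq_true_eq] at h1
    obtain ⟨h2, h3⟩ := h1
    have hul : u.length = B a + m a := by rw [hu]; simp
    have hw : (u.drop (B a)).length = m a := by rw [List.length_drop]; omega
    refine ⟨u.drop (B a), hw, h2, ?_⟩
    refine hvq (padP (N a) 0 (Q (a, u.drop (B a)))) _ ?_
      (BNB_value (hlen a _ hw) (hW (a, u.drop (B a))))
    refine BNB_desc (hlen a _ hw) (fun t ht => ?_)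
    rw [← hBa] at ht
    rw [← h3, List.getD_eq_getElem _ _ (by rw [List.length_take]; omega), List.getElem_take]
    simp only [hu, List.getElem_map, List.getElem_range]

end Pool.Agent.Work.MP_859ada_lc.FC
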