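import Pool.Agent.Work.MP_859ada_lc.FC.Stmts

/-!
# Item BTV of block FC: the program of a bit
-/

set_option autoImplicit false

namespace Pool.Agent.Work.MP_859ada_lc.FC

open Polynomial Pool.Agent.PT Finset

theorem BTV_len (r i : ℕ) : (betP r i).length = 5 + 8 * i + 4 * r := by
  unfold betP
  rw [List.length_append, List.length_append, length_flatMap_range (W := 4) (fun j _ => rfl),
    length_flatMap_range (W := 4) (fun j _ => rfl)]
  simp only [List.length_cons, List.length_nil]
  ring

theorem BTV_wf (r i : ℕ) : WF 1 (betP r i) := by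
  rw [wf_iff]
  unfold betP
  rw [allAt_append, allAt_append, allAt_flatMap_range _ (W := 4) (fun j _ => rfl),
    allAt_flatMap_range _ (W := 4) (fun j _ => rfl)]
  rw [length_flatMap_range (W := 4) (fun j _ => rfl)]
  simp only [allAt_cons, allAt_nil, List.length_cons, List.length_nil, Gate.Ok]
  refine ⟨?_, fun j hj => ?_, fun j hj => ?_⟩ <;> simp only [true_and, and_true] <;> omega

theorem BTV_val (r i : ℕ) (A : Type) [CommRing A] (t : A) :
    value (fun _ => t) (betP r i) = bt r i t := by
  have h := models_self (BTV_wf r i) (fun _ => t)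
  rw [value_eq_getD, BTV_len]
  generalize hv : (fun k => (vals (fun _ => t) (betP r i)).getD k 0) = v at h
  have hv' : ∀ k, (vals (fun _ => t) (betP r i)).getD k 0 = v k := fun k => congrFun hv k
  rw [hv']
  simp only [hv'] at h
  unfold betP at h
  rw [allAt_append, allAt_append, allAt_flatMap_range _ (W := 4) (fun j _ => rfl),
    allAt_flatMap_range _ (W := 4) (fun j _ => rfl)] at h
  rw [length_flatMap_range (W := 4) (fun j _ => rfl)] at h
  simp only [allAt_cons, allAt_nil, List.length_cons, List.length_nil, Gate.eqv] at h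
  obtain ⟨⟨e0, e1, e2, e3, e4, -⟩, h1, h2⟩ := h
  have b2 : v 2 = 2 := by
    have : v 2 = v 0 + v 0 := e2
    rw [this, e0]
    norm_num
  have b3 : v 3 = 3 := by
    have : v 3 = v 2 + v 0 := e3
    rw [this, b2, e0]
    norm_num
  have f : ∀ j ≤ 2 * i, v (4 + 4 * j) = lg^[j] t := by
    intro j
    induction j with
    | zero => intro _; exact e4
    | succ j ih =>
      intro hj
      have ih' := ih (by omega)
      obtain ⟨g1, g2, g3, g4, -⟩ := h1 j (by omega)
      have g1' : v (5 + 4 * j) = v 0 - v (4 + 4 * j) := (congrArg v (by omega)).trans g1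
      have g2' : v (6 + 4 * j) = v (4 + 4 * j) * v (5 + 4 * j) := (congrArg v (by omega)).trans g2
      have g3' : v (7 + 4 * j) = v (6 + 4 * j) + v (6 + 4 * j) := (congrArg v (by omega)).trans g3
      have g4' : v (4 + 4 * (j + 1)) = v (7 + 4 * j) + v (7 + 4 * j) :=
        (congrArg v (by omega)).trans g4
      rw [Function.iterate_succ_apply', ← ih', g4', g3', g2', g1', e0]
      unfold lg
      ring
  have k : ∀ j ≤ r, v (4 + 8 * i + 4 * j) = am^[j] (lg^[2 * i] t) := by
    intro j
    induction j with
    | zero => intro _; exact (congrArg v (by omega)).trans (f (2 * i) le_rfl)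
    | succ j ih =>
      intro hj
      have ih' := ih (by omega)
      obtain ⟨g1, g2, g3, g4, -⟩ := h2 j (by omega)
      have g1' : v (5 + 8 * i + 4 * j) = v (4 + 8 * i + 4 * j) * v (4 + 8 * i + 4 * j) :=
        (congrArg v (by omega)).trans g1
      have g2' : v (6 + 8 * i + 4 * j) = v (4 + 8 * i + 4 * j) + v (4 + 8 * i + 4 * j) :=
        (congrArg v (by omega)).trans g2
      have g3' : v (7 + 8 * i + 4 * j) = v 3 - v (6 + 8 * i + 4 * j) :=
        (congrArg v (by omega)).trans g3
      have g4' : v (4 + 8 * i + 4 * (j + 1)) =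
          v (5 + 8 * i + 4 * j) * v (7 + 8 * i + 4 * j) := (congrArg v (by omega)).trans g4
      rw [Function.iterate_succ_apply', ← ih', g4', g3', g2', g1', b3]
      unfold am
      ring
  have e : 5 + 8 * i + 4 * r - 1 = 4 + 8 * i + 4 * r := by omega
  rw [e, k r le_rfl]
  rfl

theorem prfBTV : BTV := by
  refine ⟨?_, fun r i => ⟨BTV_wf r i, fun A _ t => BTV_val r i A t⟩⟩
  unfold betP
  refine PTF.append (by fun_prop) (PTF.append (PTF.flatMap' ?_ (by fun_prop))
    (PTF.flatMap' ?_ (by fun_prop)))
  · fun_prop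
  · fun_prop

end Pool.Agent.Work.MP_859ada_lc.FC
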