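import Pool.Agent.Work.MP_859ada_lc.FC.Stmts

/-!
# Block FC, item CM2: completeness
-/

set_option autoImplicit false

namespace Pool.Agent.Work.MP_859ada_lc.FC

open Polynomial Pool.Agent.PT Finset

theorem CM2_value (p : List Gate) (x : ℝ) : value (fun _ => x) p = aeval x (fP p) := by
  have h := value_map ((aeval x : ℤ[X] →ₐ[ℤ] ℝ) : ℤ[X] →+* ℝ) (fun _ => (X : ℤ[X])) p
  simpa [fP] using h

/-- The value at the approximation (compare `FS/FIN.lean`). -/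
theorem CM2_fin (p : List Gate) (c n E : ℕ) (x0 y : ℝ) (h0 : aeval x0 (fP p) ≤ 0)
    (hx0 : |x0| ≤ 2 ^ (2 ^ (n + 1))) (hE : c + p.length + n + 8 ≤ E)
    (hy : |y - x0| ≤ 10 * (1 / 2) ^ (2 ^ E)) :
    2 ^ (2 ^ c) * value (fun _ => y) p < 1 := by
  have hval0 : value (fun _ => x0) p ≤ 0 := by rw [CM2_value]; exact h0
  have hE6 : 6 ≤ E := by omega
  have h2E : (64 : ℕ) ≤ 2 ^ E := by
    calc (64 : ℕ) = 2 ^ 6 := by norm_num
      _ ≤ 2 ^ E := Nat.pow_le_pow_right (by norm_num) hE6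
  have hd : (10 : ℝ) * (1 / 2) ^ (2 ^ E) ≤ 1 := by
    have : ((1 : ℝ) / 2) ^ (2 ^ E) ≤ (1 / 2) ^ 64 :=
      pow_le_pow_of_le_one (by norm_num) (by norm_num) h2E
    calc (10 : ℝ) * (1 / 2) ^ (2 ^ E) ≤ 10 * (1 / 2) ^ 64 := by gcongr
      _ ≤ 1 := by norm_num
  have hd0 : (0 : ℝ) ≤ 10 * (1 / 2) ^ (2 ^ E) := by positivity
  have hA : (4 : ℝ) ≤ 2 ^ (2 ^ (n + 1)) := by
    calc (4 : ℝ) = 2 ^ 2 := by norm_num
      _ ≤ 2 ^ (2 ^ (n + 1)) := by
        apply pow_le_pow_right₀ (by norm_num)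
        calc 2 = 2 ^ 1 := by norm_num
          _ ≤ 2 ^ (n + 1) := Nat.pow_le_pow_right (by norm_num) (by omega)
  have hM : (2 : ℝ) ^ (2 ^ (n + 2)) = 2 ^ (2 ^ (n + 1)) * 2 ^ (2 ^ (n + 1)) := by
    rw [← pow_add]
    congr 1
    ring
  have hM2 : (2 : ℝ) ≤ 2 ^ (2 ^ (n + 2)) := by
    rw [hM]
    nlinarith
  have hxM : |x0| ≤ 2 ^ (2 ^ (n + 2)) := by
    rw [hM]
    nlinarith
  have hyM : |y| ≤ 2 ^ (2 ^ (n + 2)) := by
    have h1 : |y| ≤ |y - x0| + |x0| := by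
      have := abs_add_le (y - x0) x0
      simpa using this
    rw [hM]
    nlinarith
  have key := norm_value_sub_le (𝕜 := ℝ) (M := 2 ^ (2 ^ (n + 2))) (d := 10 * (1 / 2) ^ (2 ^ E))
    hM2 hd0 (x := fun _ => y) (y := fun _ => x0) (fun _ => by simpa using hyM)
    (fun _ => by simpa using hxM) (fun _ => by simpa using hy) (p := p) (n := p.length) le_rfl
  rw [Real.norm_eq_abs] at key
  have hpow : ((2 : ℝ) ^ (2 ^ (n + 2))) ^ (2 ^ (p.length + 1)) = 2 ^ (2 ^ (n + p.length + 3)) := by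
    rw [← pow_mul, ← pow_add]
    congr 2
    ring
  rw [hpow] at key
  have key2 : value (fun _ => y) p ≤
      10 * (1 / 2) ^ (2 ^ E) * 2 ^ (2 ^ (n + p.length + 3)) := by
    have h1 := le_abs_self (value (fun _ => y) p - value (fun _ => x0) p)
    linarith
  have hS : 2 ^ c + 2 ^ (n + p.length + 3) + 4 ≤ 2 ^ E := by
    have e1 : 2 ^ (c + p.length + n + 8) ≤ 2 ^ E := Nat.pow_le_pow_right (by norm_num) hE
    have e2 : 2 ^ c ≤ 2 ^ (c + p.length + n + 6) := Nat.pow_le_pow_right (by norm_num) (by omega)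
    have e3 : 2 ^ (n + p.length + 3) ≤ 2 ^ (c + p.length + n + 6) :=
      Nat.pow_le_pow_right (by norm_num) (by omega)
    have e4 : 4 ≤ 2 ^ (c + p.length + n + 6) := by
      calc 4 = 2 ^ 2 := by norm_num
        _ ≤ _ := Nat.pow_le_pow_right (by norm_num) (by omega)
    have e5 : 2 ^ (c + p.length + n + 8) = 4 * 2 ^ (c + p.length + n + 6) := by
      rw [show c + p.length + n + 8 = (c + p.length + n + 6) + 2 by ring, pow_add]
      ring
    omega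
  have hS2 : (2 : ℝ) ^ (2 ^ c) * 2 ^ (2 ^ (n + p.length + 3)) * 16 ≤ 2 ^ (2 ^ E) := by
    calc (2 : ℝ) ^ (2 ^ c) * 2 ^ (2 ^ (n + p.length + 3)) * 16
        = 2 ^ (2 ^ c + 2 ^ (n + p.length + 3) + 4) := by
          rw [pow_add (2 : ℝ) (2 ^ c + 2 ^ (n + p.length + 3)) 4,
            pow_add (2 : ℝ) (2 ^ c) (2 ^ (n + p.length + 3))]
          norm_num
      _ ≤ 2 ^ (2 ^ E) := pow_le_pow_right₀ (by norm_num) hS
  have hhalf : ((1 : ℝ) / 2) ^ (2 ^ E) * 2 ^ (2 ^ E) = 1 := by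
    rw [← mul_pow]
    norm_num
  have hp1 : (0 : ℝ) < 2 ^ (2 ^ c) := by positivity
  have hp2 : (0 : ℝ) < 2 ^ (2 ^ (n + p.length + 3)) := by positivity
  have hp3 : (0 : ℝ) < (1 / 2) ^ (2 ^ E) := by positivity
  calc (2 : ℝ) ^ (2 ^ c) * value (fun _ => y) p
      ≤ 2 ^ (2 ^ c) * (10 * (1 / 2) ^ (2 ^ E) * 2 ^ (2 ^ (n + p.length + 3))) :=
        mul_le_mul_of_nonneg_left key2 hp1.le
    _ = (1 / 2) ^ (2 ^ E) * (10 * (2 ^ (2 ^ c) * 2 ^ (2 ^ (n + p.length + 3)))) := by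
        ring
    _ < (1 / 2) ^ (2 ^ E) * (16 * (2 ^ (2 ^ c) * 2 ^ (2 ^ (n + p.length + 3)))) := by
        apply mul_lt_mul_of_pos_left _ hp3
        nlinarith [mul_pos hp1 hp2]
    _ ≤ (1 / 2) ^ (2 ^ E) * 2 ^ (2 ^ E) := by
        apply mul_le_mul_of_nonneg_left _ hp3.le
        linarith
    _ = 1 := hhalf

theorem prfCM2 (h1 : FS.DSC) (h2 : FS.RTB) (h3 : FS.CHP) (h4 : FS.ZER) : CM2 := by
  intro fx hfx p h c n k x hp hwp hh hwh hn h0p h0h hfs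
  have hx0 : |x| ≤ 2 ^ (2 ^ (n + 1)) := by
    by_cases hz : fP h = 0
    · rw [hz] at hfs
      rw [h4 k x hfs, abs_zero]
      positivity
    · exact h2 h n x hn hz h0h
  have hxE : |x| ≤ 2 ^ (2 ^ (c + p.length + n + k + 8)) :=
    hx0.trans (pow_le_pow_right₀ one_le_two (Nat.pow_le_pow_right (by norm_num) (by omega)))
  have hEE : k + h.length + 6 ≤ 2 ^ (c + p.length + n + k + 8) := by
    have := Nat.lt_two_pow_self (n := c + p.length + n + k + 8)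
    omega
  obtain ⟨y, hy1, l, hl1, -, hl2, hl3⟩ := h1 h x k (c + p.length + n + k + 8) hh hwh h0h hxE hEE hfs
  have hfin := CM2_fin p c n (c + p.length + n + k + 8) x y h0p hx0 (by omega) hy1
  obtain ⟨a, b, ha, hb, hal, hbl, hb0, hab⟩ := h3 l hl1 y hl3
  have hlen : l.length ≤ 100 * (k + 2) * (c + p.length + n + k + 10) * (n + 2) := by
    refine hl2.trans ?_
    rw [List.length_nil, zero_add]
    exact Nat.mul_le_mul_left _ (by omega)
  obtain ⟨hwf, N, D, hv, hND, hD⟩ := hfx c a b p hp hwp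
  refine ⟨a, b, ha, hb, by omega, by omega, hwf, ?_⟩
  have hD0 : D ≠ 0 := hD hb0
  have hDR : (D : ℝ) ≠ 0 := Int.cast_ne_zero.2 hD0
  have hval := hND hD0
  rw [hab] at hval
  rw [← hval] at hfin
  have hDpos : 0 < (D : ℝ) ^ 2 := by positivity
  have h8 : 2 ^ (2 ^ c) * (N : ℝ) * D < (D : ℝ) ^ 2 := by
    have h9 : (D : ℝ) ^ 2 * (2 ^ (2 ^ c) * ((N : ℝ) / D)) < (D : ℝ) ^ 2 * 1 :=
      mul_lt_mul_of_pos_left hfin hDpos
    have h10 : (D : ℝ) ^ 2 * (2 ^ (2 ^ c) * ((N : ℝ) / D)) = 2 ^ (2 ^ c) * (N : ℝ) * D := by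
      field_simp
    rw [h10, mul_one] at h9
    exact h9
  have h9 : (2 ^ (2 ^ c) * N * D : ℤ) < D ^ 2 := by
    exact_mod_cast h8
  rw [hv]
  linarith

end Pool.Agent.Work.MP_859ada_lc.FC
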