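import Pool.Agent.Work.MP_859ada_lc.FC.Stmts

/-!
# Item CPR of block FC: the program for `cmb`
-/

set_option autoImplicit false

namespace Pool.Agent.Work.MP_859ada_lc.FC

open Polynomial Pool.Agent.PT Finset

/-- the block number `j`, `w = j * (9 + 2 * s)` -/
def CPR_B (k s j w : ℕ) : List Gate :=
  [.var j, .var (k + j), .mul (w + 5) (w + 5), .var j] ++
    ((List.range s).map (fun i => .mul (w + 7 + i) (w + 7 + i)) ++
      (.sub (w + 4) (w + 6) :: ((List.range s).map (fun i =>
          .mul (w + 8 + s + i) (w + 8 + s + i)) ++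
        [.mul w (w + 7 + s), .mul (w + 3) (w + 7 + s), .mul (w + 8 + s + s) w,
          .add (w + 10 + s + s) (w + 11 + s + s)])))

/-- the program -/
def CPR_cb (k s : ℕ) : List Gate :=
  [.one, .sub 0 0, .sub 0 0, .sub 0 0] ++
    ((List.range k).flatMap (fun j => CPR_B k s j (j * (9 + s + s))) ++
      [.sub (k * (9 + s + s)) (k * (9 + s + s) + 3)])

theorem CPR_len (k s j w : ℕ) : (CPR_B k s j w).length = 9 + s + s := by
  unfold CPR_B
  simp
  omega

theorem CPR_flen (k s : ℕ) :
    ((List.range k).flatMap (fun j => CPR_B k s j (j * (9 + s + s)))).length =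
      k * (9 + s + s) :=
  length_flatMap_range fun j _ => CPR_len k s j _

/-- the gates of the program satisfy `P` -/
theorem CPR_all (P : ℕ → Gate → Prop) (k s : ℕ) : AllAt P 0 (CPR_cb k s) ↔
    (P 0 .one ∧ P 1 (.sub 0 0) ∧ P 2 (.sub 0 0) ∧ P 3 (.sub 0 0)) ∧
    (∀ j < k, AllAt P (4 + j * (9 + s + s)) (CPR_B k s j (j * (9 + s + s)))) ∧
    P (4 + k * (9 + s + s)) (.sub (k * (9 + s + s)) (k * (9 + s + s) + 3)) := by
  unfold CPR_cb
  rw [allAt_append, allAt_append, allAt_flatMap_range _ fun j _ => CPR_len k s j _, CPR_flen]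
  simp only [allAt_cons, allAt_nil, List.length_cons, List.length_nil, Nat.zero_add, and_true]

theorem CPR_ok (k s : ℕ) : WF (2 * k) (CPR_cb k s) := by
  rw [wf_iff, CPR_all]
  refine ⟨⟨trivial, ⟨by omega, by omega⟩, ⟨by omega, by omega⟩, ⟨by omega, by omega⟩⟩, ?_,
    ⟨by omega, by omega⟩⟩
  intro j hj
  obtain ⟨w, hw⟩ : ∃ w, w = j * (9 + s + s) := ⟨_, rfl⟩
  rw [← hw]
  unfold CPR_B
  simp only [allAt_append, allAt_map_range, allAt_cons, allAt_nil, List.length_cons,
    List.length_nil, List.length_map, List.length_range, Gate.Ok]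
  refine ⟨⟨by omega, by omega, ⟨by omega, by omega⟩, by omega, trivial⟩,
    fun i hi => ⟨by omega, by omega⟩, ⟨by omega, by omega⟩, fun i hi => ⟨by omega, by omega⟩,
    ⟨by omega, by omega⟩, ⟨by omega, by omega⟩, ⟨by omega, by omega⟩, ⟨by omega, by omega⟩,
    trivial⟩

/-- the values of a block -/
theorem CPR_blk {x v : ℕ → ℤ} {k s j w : ℕ}
    (h : AllAt (fun i g => v i = g.eqv x v) (4 + w) (CPR_B k s j w)) :
    v (w + 9 + s + s) = v w * x j ^ (2 ^ s) ∧
    v (w + 12 + s + s) = v (w + 3) * x j ^ (2 ^ s) + (x j - x (k + j) ^ 2) ^ (2 ^ s) * v w := by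
  unfold CPR_B at h
  simp only [allAt_append, allAt_map_range, allAt_cons, allAt_nil, List.length_cons,
    List.length_nil, List.length_map, List.length_range, Gate.eqv] at h
  obtain ⟨⟨h0, h1, h2, h3, -⟩, h4, h5, h6, h7, h8, h9, h10, -⟩ := h
  have e0 : v (w + 4) = x j := by rw [← h0]; congr 1; omega
  have e1 : v (w + 5) = x (k + j) := by rw [← h1]; congr 1; omega
  have e2 : v (w + 6) = x (k + j) ^ 2 := by
    rw [sq, ← e1, ← h2]; congr 1; omega
  have e3 : v (w + 7) = x j := by rw [← h3]; congr 1; omega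
  have e4 : ∀ i ≤ s, v (w + 7 + i) = x j ^ (2 ^ i) := by
    intro i
    induction i with
    | zero => intro _; rw [Nat.add_zero, e3, pow_zero, pow_one]
    | succ i ih =>
      intro hi
      have := h4 i (by omega)
      rw [pow_succ 2 i, pow_mul, sq, ← ih (by omega), ← this]
      congr 1
      omega
  have e5 : v (w + 8 + s) = x j - x (k + j) ^ 2 := by
    rw [← e2, ← e0, ← h5]; congr 1; omega
  have e6 : ∀ i ≤ s, v (w + 8 + s + i) = (x j - x (k + j) ^ 2) ^ (2 ^ i) := by
    intro i
    induction i with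
    | zero => intro _; rw [Nat.add_zero, e5, pow_zero, pow_one]
    | succ i ih =>
      intro hi
      have := h6 i (by omega)
      rw [pow_succ 2 i, pow_mul, sq, ← ih (by omega), ← this]
      congr 1
      omega
  have e7 : v (w + 9 + s + s) = v w * x j ^ (2 ^ s) := by
    rw [← e4 s le_rfl, ← h7]; congr 1; omega
  have e8 : v (w + 10 + s + s) = v (w + 3) * x j ^ (2 ^ s) := by
    rw [← e4 s le_rfl, ← h8]; congr 1; omega
  have e9 : v (w + 11 + s + s) = (x j - x (k + j) ^ 2) ^ (2 ^ s) * v w := by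
    rw [← e6 s le_rfl, ← h9]; congr 1; omega
  have e10 : v (w + 12 + s + s) = v (w + 10 + s + s) + v (w + 11 + s + s) := by
    rw [← h10]; congr 1; omega
  exact ⟨e7, by rw [e10, e8, e9]⟩

/-- the recursion of `cmb` -/
theorem CPR_rec (s : ℕ) (D n : ℕ → ℤ) (P S : ℕ → ℤ) (P0 : P 0 = 1) (S0 : S 0 = 0) (k : ℕ)
    (hP : ∀ j < k, P (j + 1) = P j * D j ^ (2 ^ s))
    (hS : ∀ j < k, S (j + 1) = S j * D j ^ (2 ^ s) + (D j - n j ^ 2) ^ (2 ^ s) * P j) :
    P k - S k = cmb k s D n := by
  have key : ∀ m ≤ k, P m = ∏ i ∈ range m, D i ^ (2 ^ s) ∧ S m = ∑ j ∈ range m,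
      (D j - n j ^ 2) ^ (2 ^ s) * ∏ i ∈ (range m).erase j, D i ^ (2 ^ s) := by
    intro m
    induction m with
    | zero => intro _; simp [P0, S0]
    | succ m ih =>
      intro hm
      obtain ⟨i1, i2⟩ := ih (by omega)
      refine ⟨by rw [hP m (by omega), i1, Finset.prod_range_succ], ?_⟩
      rw [hS m (by omega), Finset.sum_range_succ]
      have h1 : (range (m + 1)).erase m = range m := by
        rw [Finset.range_add_one, Finset.erase_insert Finset.notMem_range_self]
      rw [h1, ← i1]
      congr 1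
      rw [i2, Finset.sum_mul]
      refine Finset.sum_congr rfl fun j hj => ?_
      have h2 : (range (m + 1)).erase j = insert m ((range m).erase j) := by
        rw [Finset.range_add_one, Finset.erase_insert_of_ne]
        have := Finset.mem_range.1 hj
        omega
      rw [h2, Finset.prod_insert (fun h => Finset.notMem_range_self (Finset.mem_of_mem_erase h))]
      ring
  obtain ⟨h1, h2⟩ := key k le_rfl
  rw [h1, h2]
  rfl

theorem prfCPR : CPR := by
  refine ⟨CPR_cb, ?_, fun k s => ⟨CPR_ok k s, fun x => ?_⟩⟩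
  · unfold CPR_cb CPR_B
    refine PTF.append (PTF.const _) (PTF.append (PTF.flatMap' ?_ (by fun_prop)) (by fun_prop))
    refine PTF.append (by fun_prop) (PTF.append (PTF.map' (by fun_prop) (by fun_prop)) ?_)
    refine PTF.cons (by fun_prop) (PTF.append (PTF.map' (by fun_prop) (by fun_prop)) (by fun_prop))
  · have h := models_self (CPR_ok k s) x
    obtain ⟨v, hv⟩ : ∃ v : ℕ → ℤ, v = fun i => (vals x (CPR_cb k s)).getD i 0 := ⟨_, rfl⟩
    have h' : AllAt (fun i g => v i = g.eqv x v) 0 (CPR_cb k s) := by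
      rw [hv]
      exact h
    rw [CPR_all] at h'
    obtain ⟨⟨h0, -, -, h3⟩, hb, hl⟩ := h'
    simp only [Gate.eqv, sub_self] at h0 h3 hl
    have hlen : (CPR_cb k s).length - 1 = 4 + k * (9 + s + s) := by
      unfold CPR_cb
      rw [List.length_append, List.length_append, CPR_flen]
      simp only [List.length_cons, List.length_nil]
      omega
    have hval : value x (CPR_cb k s) = v (4 + k * (9 + s + s)) := by
      rw [value_eq_getD, hlen, hv]
    rw [hval, hl]
    refine CPR_rec s x (fun j => x (k + j)) (fun j => v (j * (9 + s + s)))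
      (fun j => v (j * (9 + s + s) + 3)) ?_ ?_ k ?_ ?_
    · rw [Nat.zero_mul]
      exact h0
    · rw [Nat.zero_mul]
      exact h3
    · intro j hj
      have := (CPR_blk (hb j hj)).1
      rw [← this]
      congr 1
      ring
    · intro j hj
      have := (CPR_blk (hb j hj)).2
      rw [← this]
      congr 1
      ring

end Pool.Agent.Work.MP_859ada_lc.FC
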