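import Pool.Agent.Work.MP_859ada_lc.FC.Stmts
import Pool.Agent.Work.MP_859ada_lc.FS.ELN

/-! Item EL4 of block FC: the length of the code of a certificate with four programs. -/

set_option autoImplicit false

namespace Pool.Agent.Work.MP_859ada_lc.FC

open Polynomial Pool.Agent.PT Finset

theorem prfEL4 : EL4 := by
  intro n a b a' b' ha hb ha' hb' hla hlb hla' hlb'
  have e : encSys [a, b, a', b'] = encNums ([4] ++
      (a.flatMap (fun g => [0, g.code.1, g.code.2.1, g.code.2.2]) ++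
      (b.flatMap (fun g => [1, g.code.1, g.code.2.1, g.code.2.2]) ++
      (a'.flatMap (fun g => [2, g.code.1, g.code.2.1, g.code.2.2]) ++
      b'.flatMap (fun g => [3, g.code.1, g.code.2.1, g.code.2.2]))))) := by
    simp [encSys, List.range_succ]
  rw [e, FS.ELN_app, FS.ELN_app, FS.ELN_app, FS.ELN_app]
  have h1 := FS.ELN_gates 0 (4 + 2 * n) a (FS.ELN_wf n a ha hla)
  have h2 := FS.ELN_gates 1 (4 + 2 * n) b (FS.ELN_wf n b hb hlb)
  have h1' := FS.ELN_gates 2 (4 + 2 * n) a' (FS.ELN_wf n a' ha' hla')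
  have h2' := FS.ELN_gates 3 (4 + 2 * n) b' (FS.ELN_wf n b' hb' hlb')
  have h3 : (encNums [4]).length = 5 := rfl
  rw [h3]
  have h4 : a.length * (0 + (4 + 2 * n) + 4) ≤ n * (0 + (4 + 2 * n) + 4) :=
    Nat.mul_le_mul_right _ hla
  have h5 : b.length * (1 + (4 + 2 * n) + 4) ≤ n * (1 + (4 + 2 * n) + 4) :=
    Nat.mul_le_mul_right _ hlb
  have h6 : a'.length * (2 + (4 + 2 * n) + 4) ≤ n * (2 + (4 + 2 * n) + 4) :=
    Nat.mul_le_mul_right _ hla'
  have h7 : b'.length * (3 + (4 + 2 * n) + 4) ≤ n * (3 + (4 + 2 * n) + 4) :=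
    Nat.mul_le_mul_right _ hlb'
  have h8 : 5 + (n * (0 + (4 + 2 * n) + 4) + (n * (1 + (4 + 2 * n) + 4) +
      (n * (2 + (4 + 2 * n) + 4) + n * (3 + (4 + 2 * n) + 4)))) ≤ 60 * (n + 1) ^ 2 := by
    have : n * (0 + (4 + 2 * n) + 4) + (n * (1 + (4 + 2 * n) + 4) +
      (n * (2 + (4 + 2 * n) + 4) + n * (3 + (4 + 2 * n) + 4))) = 8 * (n * n) + 38 * n := by ring
    rw [this]
    have h9 : 60 * (n + 1) ^ 2 = 60 * (n * n) + 120 * n + 60 := by ring
    rw [h9]
    omega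
  refine le_trans ?_ h8
  omega

end Pool.Agent.Work.MP_859ada_lc.FC
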