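import Pool.Agent.Work.MP_859ada_lc.FC.Stmts
import Pool.Agent.Work.MP_859ada_lc.Main

/-!
# Block FC, item FNV: the value of the final program
-/

set_option autoImplicit false

namespace Pool.Agent.Work.MP_859ada_lc.FC

open Polynomial Pool.Agent.PT Finset

theorem FNV_len (n c : ℕ) (p : List Gate) :
    (finP n c p).length = 9 + 6 * n + c + p.length := by
  unfold finP
  rw [List.length_append, List.length_append, length_flatMap_range (W := 6) (fun j _ => rfl)]
  simp only [List.length_append, List.length_cons, List.length_nil, List.length_map,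
    List.length_range]
  rw [length_copyB (Nat.le_succ _), Nat.succ_eq_add_one]
  ring

theorem FNV_wf (n c : ℕ) (p : List Gate) : WF n (finP n c p) := by
  rw [wf_iff]
  unfold finP
  rw [allAt_append, allAt_append, allAt_flatMap_range _ (W := 6) (fun j _ => rfl)]
  rw [length_flatMap_range (W := 6) (fun j _ => rfl)]
  simp only [allAt_append, allAt_map_range, allAt_cons, allAt_nil, List.length_cons,
    List.length_nil, List.length_map, List.length_range, Gate.Ok]
  rw [length_copyB (Nat.le_succ _)]
  refine ⟨?_, fun j hj => ?_, ?_, fun j hj => ?_, ?_, ?_, ?_⟩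
  · simp only [true_and, and_true]
    omega
  · simp only [and_true]
    omega
  · omega
  · omega
  · omega
  · have e : 0 + (0 + 1 + 1 + 1) + n * 6 + 1 + c + 1 = 5 + 6 * n + c := by omega
    rw [e]
    refine copyB_ok (by omega) fun k => ?_
    split_ifs with hk
    · exact hk
    · exact ⟨by omega, by omega⟩
  · simp only [and_true]
    omega

theorem FNV_val (n c : ℕ) (p : List Gate) (hp : WF n p) (A : Type) [CommRing A] (x : ℕ → A) :
    value x (finP n c p) = (2 + ∑ i ∈ range n, x i ^ 2) ^ (2 ^ c) *
      ∑ i ∈ range n, (x i ^ 2 - x i) ^ 2 - (2 * value x p - 1) := by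
  have h := models_self (FNV_wf n c p) x
  rw [value_eq_getD, FNV_len]
  generalize hv : (fun k => (vals x (finP n c p)).getD k 0) = v at h
  have hv' : ∀ k, (vals x (finP n c p)).getD k 0 = v k := fun k => congrFun hv k
  rw [hv']
  simp only [hv'] at h
  clear hv hv'
  unfold finP at h
  rw [allAt_append, allAt_append, allAt_flatMap_range _ (W := 6) (fun j _ => rfl)] at h
  rw [length_flatMap_range (W := 6) (fun j _ => rfl)] at h
  simp only [allAt_append, allAt_map_range, allAt_cons, allAt_nil, List.length_cons,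
    List.length_nil, List.length_map, List.length_range, Gate.eqv] at h
  rw [length_copyB (Nat.le_succ _)] at h
  obtain ⟨⟨e0, e1, e2, -⟩, h1, h2, h3, h4, h5, h6, h7, h8, -⟩ := h
  have b1 : v 1 = 2 := by
    have : v 1 = v 0 + v 0 := e1
    rw [this, e0]
    norm_num
  have b2 : v 2 = 0 := by
    have : v 2 = v 0 - v 0 := e2
    rw [this, sub_self]
  have f : ∀ j ≤ n, v (1 + 6 * j) = 2 + ∑ i ∈ range j, x i ^ 2 ∧
      v (2 + 6 * j) = ∑ i ∈ range j, (x i ^ 2 - x i) ^ 2 := by
    intro j
    induction j with
    | zero =>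
      intro _
      rw [Finset.sum_range_zero, Finset.sum_range_zero, add_zero]
      exact ⟨b1, b2⟩
    | succ j ih =>
      intro hj
      obtain ⟨i1, i2⟩ := ih (by omega)
      obtain ⟨g1, g2, g3, g4, g5, g6, -⟩ := h1 j (by omega)
      have g1' : v (3 + 6 * j) = x j := (congrArg v (by omega)).trans g1
      have g2' : v (4 + 6 * j) = v (3 + 6 * j) * v (3 + 6 * j) := (congrArg v (by omega)).trans g2
      have g3' : v (5 + 6 * j) = v (4 + 6 * j) - v (3 + 6 * j) := (congrArg v (by omega)).trans g3
      have g4' : v (6 + 6 * j) = v (5 + 6 * j) * v (5 + 6 * j) := (congrArg v (by omega)).trans g4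
      have g5' : v (1 + 6 * (j + 1)) = v (1 + 6 * j) + v (4 + 6 * j) :=
        (congrArg v (by omega)).trans g5
      have g6' : v (2 + 6 * (j + 1)) = v (2 + 6 * j) + v (6 + 6 * j) :=
        (congrArg v (by omega)).trans g6
      rw [Finset.sum_range_succ, Finset.sum_range_succ, g5', g6', i1, i2, g4', g3', g2', g1']
      constructor <;> ring
  obtain ⟨f1, f2⟩ := f n le_rfl
  have k0 : v (3 + 6 * n) = 2 + ∑ i ∈ range n, x i ^ 2 := by
    have : v (3 + 6 * n) = v (1 + 6 * n) + v 2 := (congrArg v (by omega)).trans h2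
    rw [this, f1, b2, add_zero]
  have k : ∀ j ≤ c, v (3 + 6 * n + j) = (2 + ∑ i ∈ range n, x i ^ 2) ^ (2 ^ j) := by
    intro j
    induction j with
    | zero =>
      intro _
      rw [add_zero, k0, pow_zero, pow_one]
    | succ j ih =>
      intro hj
      have ih' := ih (by omega)
      have g := h3 j (by omega)
      have g' : v (3 + 6 * n + (j + 1)) = v (3 + 6 * n + j) * v (3 + 6 * n + j) :=
        (congrArg v (by omega)).trans g
      rw [g', ih', pow_succ 2 j, mul_two, pow_add]
  have k4 : v (4 + 6 * n + c) = v (3 + 6 * n + c) * v (2 + 6 * n) :=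
    (congrArg v (by omega)).trans h4
  have e5 : 0 + (0 + 1 + 1 + 1) + n * 6 + 1 + c + 1 = 5 + 6 * n + c := by omega
  rw [e5] at h5
  have h5' : AllAt (fun k g => v k = g.eqv x v) (5 + 6 * n + c)
      (copyB (p.length + 1) 2 (5 + 6 * n + c)
        (fun k => if k < n then .var k else .sub 0 0) p) := h5
  have hV := copyB_value h5' b2 (Nat.le_succ _) (Nat.succ_le_succ (Nat.zero_le _))
    (x' := fun k => if k < n then x k else 0) (fun k => by
      split_ifs
      · rfl
      · rw [eqv_sub, sub_self])
  have hV' : v (5 + 6 * n + c + p.length) = value x p := by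
    refine (congrArg v (by omega)).trans (hV.trans ?_)
    refine value_congr fun k hk => ?_
    obtain ⟨j, hj, he⟩ := List.getElem_of_mem hk
    have h9 := hp j hj
    rw [he] at h9
    exact if_pos h9
  have k6 : v (6 + 6 * n + c + p.length) =
      v (5 + 6 * n + c + p.length) + v (5 + 6 * n + c + p.length) :=
    (congrArg v (by omega)).trans h6
  have k7 : v (7 + 6 * n + c + p.length) = v (6 + 6 * n + c + p.length) - v 0 :=
    (congrArg v (by omega)).trans h7
  have k8 : v (9 + 6 * n + c + p.length - 1) = v (4 + 6 * n + c) - v (7 + 6 * n + c + p.length) :=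
    (congrArg v (by omega)).trans h8
  rw [k8, k7, k6, hV', k4, k c le_rfl, f2, e0]
  ring

theorem FNV_ptf : PTF (fun x : (ℕ × ℕ) × List Gate => finP x.1.1 x.1.2 x.2) := by
  unfold finP
  refine PTF.append (by fun_prop) (PTF.append (PTF.flatMap' ?_ (by fun_prop))
    (PTF.cons (by fun_prop) (PTF.append (PTF.map' ?_ (by fun_prop))
      (PTF.cons (by fun_prop) (PTF.append ?_ (by fun_prop))))))
  · fun_prop
  · fun_prop
  · refine PTF.copyB (r := fun (x : (ℕ × ℕ) × List Gate) k =>
      if k < x.1.1 then .var k else .sub 0 0) (by fun_prop) (by fun_prop) (by fun_prop) ?_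
      (by fun_prop)
    fun_prop

theorem prfFNV : FNV :=
  ⟨FNV_ptf, fun n c p => ⟨FNV_wf n c p, fun hp A _ x => FNV_val n c p hp A x⟩⟩

end Pool.Agent.Work.MP_859ada_lc.FC
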