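import Pool.Agent.Work.MP_859ada_lc.FC.Stmts
import Pool.Agent.Work.MP_859ada_lc.FS.FPW
import Pool.Agent.Work.MP_859ada_lc.FS.FPV
import Pool.Agent.Work.MP_859ada_lc.FS.FPT

/-!
# Block FC, item FPX: the query of the certificate
-/

set_option autoImplicit false

namespace Pool.Agent.Work.MP_859ada_lc.FC

open Polynomial Pool.Agent.PT

/-- The query. Layout as for `FS.fprog`; the last four gates give `D^2 - 2^(2^c) N D`. -/
def FPX_prog (c : ℕ) (a b p : List Gate) : List Gate :=
  preB c ++ (copyB (a.length + b.length + 1) 1 (c + 3) (fun _ => .sub 0 0) a ++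
    (copyB (a.length + b.length + 1) 1 (c + 3 + (a.length + b.length + 1)) (fun _ => .sub 0 0) b ++
      ((List.range p.length).flatMap (fun k =>
          FS.fblk (c + 2 + (a.length + b.length + 1)) (c + 2 + 2 * (a.length + b.length + 1))
            (c + 3 + 2 * (a.length + b.length + 1)) k (p.getD k .one)) ++
        [.mul (2 + c) (c + 3 + 2 * (a.length + b.length + 1) + 4 * p.length - 2),
         .mul (c + 3 + 2 * (a.length + b.length + 1) + 4 * p.length)
           (c + 3 + 2 * (a.length + b.length + 1) + 4 * p.length - 1),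
         .mul (c + 3 + 2 * (a.length + b.length + 1) + 4 * p.length - 1)
           (c + 3 + 2 * (a.length + b.length + 1) + 4 * p.length - 1),
         .sub (c + 3 + 2 * (a.length + b.length + 1) + 4 * p.length + 2)
           (c + 3 + 2 * (a.length + b.length + 1) + 4 * p.length + 1)])))

theorem FPX_wf (c : ℕ) (a b p : List Gate) (hp : WF 1 p) : WF 0 (FPX_prog c a b p) := by
  rw [wf_iff]
  unfold FPX_prog
  obtain ⟨n, hn⟩ : ∃ n, n = a.length + b.length + 1 := ⟨_, rfl⟩
  rw [← hn, allAt_append, allAt_append, allAt_append, allAt_append, length_preB,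
    length_copyB (by omega), length_copyB (by omega),
    allAt_flatMap_range _ (W := 4) (fun _ _ => FS.FPW_length_fblk _ _ _ _ _),
    length_flatMap_range (W := 4) (fun _ _ => FS.FPW_length_fblk _ _ _ _ _)]
  refine ⟨preB_ok 0 c, ?_, ?_, fun k hk => ?_, ?_⟩
  · rw [Nat.zero_add, Nat.add_comm 3 c]
    exact copyB_ok (by omega) (fun _ => ⟨by omega, by omega⟩)
  · rw [Nat.zero_add, Nat.add_comm 3 c]
    exact copyB_ok (by omega) (fun _ => ⟨by omega, by omega⟩)
  · rw [show 0 + (3 + c) + n + n + k * 4 = (c + 3 + 2 * n) + k * 4 by ring]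
    refine FS.FPW_fblk_ok (by omega) (by omega) ?_
    rw [List.getD_eq_getElem _ _ hk]
    exact hp k hk
  · simp only [allAt_cons, allAt_nil, Gate.Ok, and_true]
    refine ⟨⟨by omega, by omega⟩, ⟨by omega, by omega⟩, ⟨by omega, by omega⟩, by omega, by omega⟩

theorem FPX_value (c : ℕ) (a b p : List Gate) (hp0 : p ≠ []) (hp : WF 1 p) : ∃ N D : ℤ,
    value (fun _ => (0 : ℤ)) (FPX_prog c a b p) = D ^ 2 - 2 ^ (2 ^ c) * N * D ∧
    (D ≠ 0 → (N : ℝ) / D = value (fun _ => ((value (fun _ => (0 : ℤ)) a : ℤ) : ℝ) /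
      ((value (fun _ => (0 : ℤ)) b : ℤ) : ℝ)) p) ∧
    (value (fun _ => (0 : ℤ)) b ≠ 0 → D ≠ 0) := by
  have hwf := FPX_wf c a b p hp
  have hM := models_self hwf (fun _ => (0 : ℤ))
  have hL : 0 < p.length := List.length_pos_iff.2 hp0
  obtain ⟨n, hn⟩ : ∃ n, n = a.length + b.length + 1 := ⟨_, rfl⟩
  obtain ⟨L, hLL⟩ : ∃ L, L = p.length := ⟨_, rfl⟩
  have hlen : (FPX_prog c a b p).length = c + 3 + 2 * n + 4 * L + 4 := by
    unfold FPX_prog
    rw [List.length_append, List.length_append, List.length_append, List.length_append,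
      length_preB, length_copyB (by omega), length_copyB (by omega),
      length_flatMap_range (W := 4) (fun j _ => FS.FPV_length_fblk _ _ _ _ _), ← hn, ← hLL]
    simp only [List.length_cons, List.length_nil]
    omega
  rw [value_eq_getD, hlen]
  generalize hv : (fun i' => (vals (fun _ => (0 : ℤ)) (FPX_prog c a b p)).getD i' 0) = v at hM
  have hv' : ∀ i', (vals (fun _ => (0 : ℤ)) (FPX_prog c a b p)).getD i' 0 = v i' :=
    fun i' => by rw [← hv]
  rw [hv']
  simp only [hv'] at hM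
  clear hv hv'
  unfold FPX_prog at hM
  rw [allAt_append, allAt_append, allAt_append, allAt_append, length_preB,
    length_copyB (by omega), length_copyB (by omega),
    length_flatMap_range (W := 4) (fun j _ => FS.FPV_length_fblk _ _ _ _ _),
    allAt_flatMap_range (W := 4) _ (fun j _ => FS.FPV_length_fblk _ _ _ _ _), ← hn, ← hLL] at hM
  obtain ⟨hA, hB, hC, hD, hE⟩ := hM
  obtain ⟨v0, v1, v2⟩ := preB_value hA
  rw [show 0 + (3 + c) = c + 3 by ring] at hB hC hD hE
  have hVa := copyB_value hB v1 (by omega) (by omega) (x' := fun _ => 0) (fun _ => by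
    rw [eqv_sub, sub_self])
  have hVb := copyB_value hC v1 (by omega) (by omega) (x' := fun _ => 0) (fun _ => by
    rw [eqv_sub, sub_self])
  rw [show c + 3 + n - 1 = c + 2 + n by omega] at hVa
  rw [show c + 3 + n + n - 1 = c + 2 + 2 * n by omega] at hVb
  rw [show c + 3 + n + n = c + 3 + 2 * n by ring] at hD hE
  have hBl := FS.FPV_blocks hp v0 hVa hVb (o := c + 3 + 2 * n) (by
    intro k hk
    exact hD k (by omega)) (L - 1) (by omega)
  simp only [allAt_cons, allAt_nil, and_true, eqv_mul, eqv_sub] at hE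
  obtain ⟨g0, g1, g2, g3⟩ := hE
  obtain ⟨o, ho⟩ : ∃ o, o = c + 3 + 2 * n := ⟨_, rfl⟩
  rw [← ho] at g0 g1 g2 g3 hBl
  rw [show o + L * 4 = o + 4 * L by ring] at g0 g1 g2 g3
  rw [show o + 4 * (L - 1) + 3 = o + 4 * L - 1 by omega,
    show o + 4 * (L - 1) + 2 = o + 4 * L - 2 by omega] at hBl
  have g0' : v (o + 4 * L) = 2 ^ (2 ^ c) * v (o + 4 * L - 2) := by
    rw [g0, v2 c le_rfl]
  have g1' : v (o + 4 * L + 1) = v (o + 4 * L) * v (o + 4 * L - 1) := g1
  have g2' : v (o + 4 * L + 2) = v (o + 4 * L - 1) * v (o + 4 * L - 1) := g2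
  have g3' : v (o + 4 * L + 3) = v (o + 4 * L + 2) - v (o + 4 * L + 1) := g3
  refine ⟨v (o + 4 * L - 2), v (o + 4 * L - 1), ?_, ?_, hBl.2⟩
  · rw [show c + 3 + 2 * n + 4 * L + 4 - 1 = o + 4 * L + 3 by omega, g3', g2', g1', g0']
    ring
  · intro hD0
    rw [hBl.1 hD0, hLL]
    exact (value_eq_getD _ p).symm

theorem FPX_ptf : PTF (fun x : (ℕ × List Gate) × (List Gate × List Gate) =>
    FPX_prog x.1.1 x.2.1 x.2.2 x.1.2) := by
  unfold FPX_prog
  have hn : PTF (fun x : (ℕ × List Gate) × (List Gate × List Gate) =>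
    x.2.1.length + x.2.2.length + 1) := by fun_prop
  refine PTF.append (by fun_prop) (PTF.append (by fun_prop) (PTF.append (by fun_prop)
    (PTF.append (PTF.flatMap' ?_ (by fun_prop)) (by fun_prop))))
  exact FS.FPT_fblk (by fun_prop) (by fun_prop) (by fun_prop) (by fun_prop) (by fun_prop)

/-- FPX -/
theorem prfFPX : FPX :=
  ⟨fun x => FPX_prog x.1.1 x.2.1 x.2.2 x.1.2, FPX_ptf, fun c a b p hp0 hp =>
    ⟨FPX_wf c a b p hp, FPX_value c a b p hp0 hp⟩⟩

end Pool.Agent.Work.MP_859ada_lc.FC
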