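import Pool.Agent.Work.MP_859ada_lc.FC.Stmts

/-!
# Block FC, item HRD: the lower bound
-/

set_option autoImplicit false

namespace Pool.Agent.Work.MP_859ada_lc.FC

open Polynomial Pool.Agent.PT Finset Pool.Agent.Work.MP_46935e_lc

/-- the value of a program at a real number is the value of its polynomial -/
theorem HRD_value (p : List Gate) (x : ℝ) : aeval x (fP p) = value (fun _ => x) p := by
  have h3 := value_map ((aeval x : ℤ[X] →ₐ[ℤ] ℝ) : ℤ[X] →+* ℝ) (fun _ => (X : ℤ[X])) p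
  simp only [RingHom.coe_coe, aeval_X] at h3
  rw [h3]
  rfl

/-- the bound for the parameter -/
theorem HRD_bound (n : List Bool → ℕ) (hn : PTF n) :
    ∃ q : Polynomial ℕ, ∀ w, 3 * (4 * n w + 8) + 20 ≤ q.eval w.length := by
  have hK : PTF (fun x : List Bool => 3 * (4 * n x + 8) + 20) :=
    (((PTF.const 3).mul (((PTF.const 4).mul hn).add (PTF.const 8))).add (PTF.const 20))
  exact exists_poly_of_ptf hK

/-- yes-instances -/
theorem HRD_yes (h4 : RBV) (h5 : RBX) (h6 : MKD) (n K : ℕ) (p : List Gate) (hn : 1 ≤ n)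
    (hp : WF n p) (hK : 3 * (4 * n + 8) + 20 ≤ K) (y : ℕ → ℤ) (hy : ∀ i, y i = 0 ∨ y i = 1)
    (hpos : 0 < value y p) : Tame K (robP n p) := by
  obtain ⟨k, hk, hv⟩ := (h5 n p hp).2.1 y hy hpos
  obtain ⟨hne, hwf, -⟩ := h4.2 n p
  refine ⟨hne, hwf, Or.inl ⟨(k : ℝ) / 2 ^ (4 * n + 8), 2, ?_, ?_, ?_, ?_⟩⟩
  · refine h6.2 _ K _ hK (h6.1 k (4 * n + 8) (hk.trans ?_))
    exact Nat.pow_le_pow_right Nat.zero_lt_two (by omega)
  · have h7 := h6.1 2 0 (by norm_num)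
    have h8 : ((2 : ℕ) : ℝ) / 2 ^ 0 = 2 := by norm_num
    rw [h8] at h7
    exact h6.2 _ K _ (by omega) h7
  · rw [HRD_value]
    exact hv
  · rw [HRD_value]
    exact ((h5 n p hp).2.2 hn).le

/-- soundness -/
theorem HRD_no (h5 : RBX) (n : ℕ) (p : List Gate) (hp : WF n p)
    (h : ROOTL (encProg (robP n p))) : ∃ y : ℕ → ℤ, (∀ i, y i = 0 ∨ y i = 1) ∧ 0 < value y p := by
  obtain ⟨p', hp', hroot⟩ := h
  have hpp : robP n p = p' := by
    rw [← decProg_encProg (robP n p), hp', decProg_encProg]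
  rw [← hpp] at hroot
  obtain ⟨-, -, t, ht⟩ := hroot
  have ht' : aeval t (fP (robP n p)) = 0 := ht
  rw [HRD_value] at ht'
  exact (h5 n p hp).1 t ht'.le

/-- polynomial time, for any function in the place of `robP` -/
theorem HRD_ptf (r : ℕ → List Gate → List Gate) (h : PTF (fun x : ℕ × List Gate => r x.1 x.2))
    (n : List Bool → ℕ) (F : List Bool → List Gate) (hn : PTF n) (hF : PTF F) :
    Nonempty (Turing.TM2ComputableInPolyTime (fun s : List Bool => s) (fun s : List Bool => s)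
      (fun x : List Bool => encProg (r (n x) (F x)))) := by
  have h1 : PTF (fun x : List Bool => r (n x) (F x)) := h.comp (hn.pair hF)
  exact PTF.tm2_raw (MP_859ada_lc.PTF.encProg h1)

theorem prfHRD (h1 : SQA) (h2 : SQB) (h3 : BNB) (h4 : RBV) (h5 : RBX) (h6 : MKD) : HRD := by
  intro L hL
  obtain ⟨p, R, G, hR, hG, hGw, hL1⟩ := h1 L hL
  obtain ⟨m, R', Q, hm, hR', hQ, hQw, hL2⟩ := h2 L p R G hR hG hGw hL1
  obtain ⟨n, F, hn, hF, hL3⟩ := h3 L m R' Q hm hR' hQ hQw hL2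
  obtain ⟨q, hq⟩ := HRD_bound n hn
  refine ⟨fun x => encProg (robP (n x) (F x)), q, HRD_ptf robP h4.1 n F hn hF,
    fun w => ⟨fun hw => ?_, fun h => ?_⟩⟩
  · obtain ⟨y, hy, hpos⟩ := (hL3 w).2.2.1 hw
    exact ⟨robP (n w) (F w), rfl,
      HRD_yes h4 h5 h6 (n w) _ (F w) (hL3 w).1 (hL3 w).2.1 (hq w) y hy hpos⟩
  · exact (hL3 w).2.2.2 (HRD_no h5 (n w) (F w) (hL3 w).2.1 h)

end Pool.Agent.Work.MP_859ada_lc.FC
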