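import Pool.Agent.Work.MP_859ada_lc.FC.Stmts

/-!
# Item LIN of block FC: the program `x 0 - 2^(2^J) (x 1 + ... + x k)`
-/

set_option autoImplicit false

namespace Pool.Agent.Work.MP_859ada_lc.FC

open Polynomial Pool.Agent.PT Finset

theorem LIN_length (k J : ℕ) : (linP k J).length = 6 + J + 2 * k := by
  unfold linP
  rw [List.length_append, List.length_append, length_preB,
    length_flatMap_range (W := 2) (fun _ _ => rfl)]
  simp only [List.length_cons, List.length_nil]
  omega

theorem LIN_wf (k J : ℕ) : WF (k + 1) (linP k J) := by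
  rw [wf_iff]
  unfold linP
  rw [allAt_append, allAt_append, length_preB,
    allAt_flatMap_range _ (W := 2) (fun _ _ => rfl),
    length_flatMap_range (W := 2) (fun _ _ => rfl)]
  simp only [allAt_cons, allAt_nil, Gate.Ok, and_true, Nat.zero_add]
  refine ⟨preB_ok _ _, fun j hj => ⟨by omega, ?_, by omega⟩, ⟨by omega, ?_⟩, by omega,
    ⟨by omega, by omega⟩⟩
  · split_ifs <;> omega
  · split_ifs <;> omega

theorem LIN_value (k J : ℕ) (x : ℕ → ℤ) :
    value x (linP k J) = x 0 - 2 ^ (2 ^ J) * ∑ i ∈ range k, x (i + 1) := by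
  have hM := models_self (LIN_wf k J) x
  rw [value_eq_getD, LIN_length]
  generalize hv : (fun i' => (vals x (linP k J)).getD i' 0) = v at hM
  have hv' : ∀ i', (vals x (linP k J)).getD i' 0 = v i' := fun i' => by rw [← hv]
  rw [hv']
  simp only [hv'] at hM
  clear hv hv'
  unfold linP at hM
  rw [allAt_append, allAt_append, length_preB,
    allAt_flatMap_range _ (W := 2) (fun _ _ => rfl),
    length_flatMap_range (W := 2) (fun _ _ => rfl)] at hM
  simp only [allAt_cons, allAt_nil, Gate.eqv, and_true, Nat.zero_add] at hM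
  obtain ⟨h1, h2, h3, h4, h5⟩ := hM
  obtain ⟨v0, v1, v2⟩ := preB_value h1
  have hs : ∀ i, i ≤ k → v (if i = 0 then 1 else 2 + J + 2 * i) = ∑ j ∈ range i, x (j + 1) := by
    intro i
    induction i with
    | zero => intro _; simp [v1]
    | succ i ih =>
      intro hi
      have e1 := ih (by omega)
      obtain ⟨h6, h7⟩ := h2 i (by omega)
      rw [sum_range_succ, ← e1, if_neg (Nat.succ_ne_zero i),
        show 2 + J + 2 * (i + 1) = 3 + J + i * 2 + 1 by ring, h7,
        show 3 + J + 2 * i = 3 + J + i * 2 by ring, h6]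
  have hk := hs k le_rfl
  rw [show 6 + J + 2 * k - 1 = 3 + J + k * 2 + 1 + 1 by omega, h5,
    show 4 + J + 2 * k = 3 + J + k * 2 + 1 by ring, h4,
    show 3 + J + 2 * k = 3 + J + k * 2 by ring, h3, hk, show 2 + J = 2 + J by rfl, v2 J le_rfl]

theorem LIN_ptf : PTF (fun x : ℕ × ℕ => linP x.1 x.2) := by
  unfold linP
  have hc : PTF (fun x : (ℕ × ℕ) × ℕ => decide (x.2 = 0)) := by fun_prop
  have hi : PTF (fun x : (ℕ × ℕ) × ℕ => if x.2 = 0 then 1 else 2 + x.1.2 + 2 * x.2) := by
    refine (PTF.ite hc (PTF.const 1) (by fun_prop :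
      PTF (fun x : (ℕ × ℕ) × ℕ => 2 + x.1.2 + 2 * x.2))).congr (fun a => ?_)
    simp
  have hk : PTF (fun x : ℕ × ℕ => if x.1 = 0 then 1 else 2 + x.2 + 2 * x.1) := by
    refine (PTF.ite (by fun_prop : PTF (fun x : ℕ × ℕ => decide (x.1 = 0))) (PTF.const 1)
      (by fun_prop : PTF (fun x : ℕ × ℕ => 2 + x.2 + 2 * x.1))).congr (fun a => ?_)
    simp
  refine PTF.append (by fun_prop) (PTF.append (PTF.flatMap' ?_ (by fun_prop)) ?_)
  · fun_prop
  · fun_prop

theorem prfLIN : LIN :=
  ⟨LIN_ptf, fun k J => ⟨LIN_wf k J, LIN_value k J⟩⟩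

end Pool.Agent.Work.MP_859ada_lc.FC
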