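import Pool.Agent.Work.MP_859ada_lc.FC.Stmts

/-!
# Block FC, item MKD: the dyadic rational numbers are marks
-/

set_option autoImplicit false

namespace Pool.Agent.Work.MP_859ada_lc.FC

open Polynomial Pool.Agent.PT Finset

/-- the program for `2^m X - k` (from the binary digits of `k`) -/
def MKD_P : ℕ → ℕ → List Gate
  | 0, k => [.one, .sub 0 0, .var 0, .sub 2 (if 1 ≤ k then 0 else 1),
      .sub 3 (if 2 ≤ k then 0 else 1)]
  | m + 1, k => MKD_P m (k / 2) ++ [.add (4 + 2 * m) (4 + 2 * m)] ++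
      [.sub (5 + 2 * m) (if k % 2 = 1 then 0 else 1)]

theorem MKD_length (m k : ℕ) : (MKD_P m k).length = 5 + 2 * m := by
  induction m generalizing k with
  | zero => rfl
  | succ m ih =>
    rw [MKD_P, List.length_append, List.length_append, ih]
    simp only [List.length_singleton]
    ring

theorem MKD_wf (m k : ℕ) : WF 1 (MKD_P m k) := by
  rw [wf_iff]
  induction m generalizing k with
  | zero =>
    unfold MKD_P
    simp only [allAt_cons, allAt_nil, Gate.Ok]
    split_ifs <;> simp
  | succ m ih =>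
    rw [MKD_P, allAt_append, allAt_append]
    refine ⟨⟨ih _, ?_⟩, ?_⟩
    · rw [allAt_cons, allAt_nil, MKD_length]
      simp only [Gate.Ok, and_true]
      omega
    · rw [allAt_cons, allAt_nil, List.length_append, MKD_length]
      simp only [Gate.Ok, List.length_singleton, and_true]
      split_ifs <;> omega

theorem MKD_vals {A : Type} [CommRing A] (x : ℕ → A) (m : ℕ) : ∀ k : ℕ, k ≤ 2 ^ (m + 1) →
    (vals x (MKD_P m k)).getD 0 0 = 1 ∧ (vals x (MKD_P m k)).getD 1 0 = 0 ∧
      (vals x (MKD_P m k)).getD (4 + 2 * m) 0 = 2 ^ m * x 0 - (k : A) := by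
  induction m with
  | zero =>
    intro k hk
    have h2 : k ≤ 2 := by simpa using hk
    interval_cases k
    · simp [MKD_P, vals, Gate.val]
    · simp [MKD_P, vals, Gate.val]
    · refine ⟨by simp [MKD_P, vals, Gate.val], by simp [MKD_P, vals, Gate.val], ?_⟩
      simp [MKD_P, vals, Gate.val]
      ring
  | succ m ih =>
    intro k hk
    have hk2 : k / 2 ≤ 2 ^ (m + 1) := by
      have h1 : 2 ^ (m + 1 + 1) = 2 * 2 ^ (m + 1) := by ring
      omega
    obtain ⟨h0, h1, h4⟩ := ih (k / 2) hk2
    have hlen : (vals x (MKD_P m (k / 2))).length = 5 + 2 * m := by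
      rw [length_vals, MKD_length]
    generalize hl : vals x (MKD_P m (k / 2)) = l at h0 h1 h4 hlen
    have hv : vals x (MKD_P (m + 1) k) = l ++ [l.getD (4 + 2 * m) 0 + l.getD (4 + 2 * m) 0] ++
        [(l ++ [l.getD (4 + 2 * m) 0 + l.getD (4 + 2 * m) 0]).getD (5 + 2 * m) 0 -
          (l ++ [l.getD (4 + 2 * m) 0 + l.getD (4 + 2 * m) 0]).getD
            (if k % 2 = 1 then 0 else 1) 0] := by
      rw [MKD_P, vals_concat, vals_concat, hl]
      rfl
    have e5 : (l ++ [l.getD (4 + 2 * m) 0 + l.getD (4 + 2 * m) 0]).getD (5 + 2 * m) 0 =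
        l.getD (4 + 2 * m) 0 + l.getD (4 + 2 * m) 0 := by
      rw [List.getD_append_right _ _ _ _ hlen.le, hlen, Nat.sub_self]
      rfl
    have e01 : ∀ j < 2, (l ++ [l.getD (4 + 2 * m) 0 + l.getD (4 + 2 * m) 0]).getD j 0 =
        l.getD j 0 := by
      intro j hj
      exact List.getD_append _ _ _ _ (by omega)
    have hlen' : (l ++ [l.getD (4 + 2 * m) 0 + l.getD (4 + 2 * m) 0]).length = 6 + 2 * m := by
      rw [List.length_append, hlen, List.length_singleton]
      ring
    rw [hv]
    refine ⟨?_, ?_, ?_⟩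
    · rw [List.getD_append _ _ _ _ (by omega), e01 0 (by norm_num), h0]
    · rw [List.getD_append _ _ _ _ (by omega), e01 1 (by norm_num), h1]
    · rw [List.getD_append_right _ _ _ _ (by omega), hlen',
        show 4 + 2 * (m + 1) - (6 + 2 * m) = 0 by omega, List.getD_cons_zero, e5]
      have hk3 : (k : A) = 2 * ((k / 2 : ℕ) : A) + ((k % 2 : ℕ) : A) := by
        have h5 : k = 2 * (k / 2) + k % 2 := by omega
        conv_lhs => rw [h5]
        push_cast
        ring
      rcases Nat.mod_two_eq_zero_or_one k with hm | hm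
      · rw [if_neg (by omega), e01 1 (by norm_num), h1, h4, hk3, hm]
        push_cast
        ring
      · rw [if_pos hm, e01 0 (by norm_num), h0, h4, hk3, hm]
        push_cast
        ring

theorem MKD_value {A : Type} [CommRing A] (x : ℕ → A) (m k : ℕ) (hk : k ≤ 2 ^ (m + 1)) :
    value x (MKD_P m k) = 2 ^ m * x 0 - (k : A) := by
  rw [value_eq_getD, MKD_length, show 5 + 2 * m - 1 = 4 + 2 * m by omega]
  exact (MKD_vals x m k hk).2.2

theorem MKD_fP (m k : ℕ) (hk : k ≤ 2 ^ (m + 1)) :
    fP (MKD_P m k) = 2 ^ m * (X : ℤ[X]) - (k : ℤ[X]) := MKD_value _ m k hk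

theorem prfMKD : MKD := by
  refine ⟨fun k m hk => ?_, ?_⟩
  · have hne : MKD_P m k ≠ [] := by
      intro h
      have h1 := MKD_length m k
      rw [h] at h1
      simp at h1
      omega
    refine ⟨MKD_P m k, hne, MKD_wf m k, ?_, ?_, ?_⟩
    · rw [MKD_length]
      omega
    · rw [MKD_fP m k hk, map_sub, map_mul, map_pow, aeval_X, map_natCast, map_ofNat]
      have h2 : (2 : ℝ) ^ m ≠ 0 := by positivity
      field_simp
      ring
    · refine ⟨∅, by simp, fun z hz hzx => ?_⟩
      exfalso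
      apply hzx
      rw [MKD_fP m k hk, map_sub, map_mul, map_pow, aeval_X, map_natCast, map_ofNat] at hz
      have h2 : (2 : ℂ) ^ m ≠ 0 := pow_ne_zero _ two_ne_zero
      push_cast
      rw [eq_div_iff h2, mul_comm]
      exact sub_eq_zero.1 hz
  · rintro k k' x hk ⟨h, h1, h2, h3, h4, S, h5, h6⟩
    refine ⟨h, h1, h2, h3.trans hk, h4, S, h5.trans hk, fun z hz hzx hlt => h6 z hz hzx
      (lt_of_le_of_lt ?_ hlt)⟩
    exact mul_le_mul_of_nonneg_right (pow_le_pow_right₀ (by norm_num) hk) (norm_nonneg _)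

end Pool.Agent.Work.MP_859ada_lc.FC
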