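import Pool.Agent.Work.MP_859ada_lc.FC.Stmts

/-!
# Block FC, item PAT: dyadic points with a prescribed pattern for the logistic map
-/

set_option autoImplicit false

namespace Pool.Agent.Work.MP_859ada_lc.FC

open Polynomial Pool.Agent.PT Finset

theorem PAT_mem (z : ℝ) (h0 : 0 ≤ z) (h1 : z ≤ 1) : 0 ≤ lg z ∧ lg z ≤ 1 := by
  unfold lg
  constructor
  · have : 0 ≤ 1 - z := by linarith
    positivity
  · nlinarith [sq_nonneg (2 * z - 1)]

theorem PAT_iter (j : ℕ) (z : ℝ) (h0 : 0 ≤ z) (h1 : z ≤ 1) : 0 ≤ lg^[j] z ∧ lg^[j] z ≤ 1 := by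
  induction j with
  | zero => exact ⟨h0, h1⟩
  | succ j ih =>
    rw [Function.iterate_succ_apply']
    exact PAT_mem _ ih.1 ih.2

theorem PAT_lip (a b : ℝ) (ha0 : 0 ≤ a) (ha1 : a ≤ 1) (hb0 : 0 ≤ b) (hb1 : b ≤ 1) :
    |lg a - lg b| ≤ 4 * |a - b| := by
  have h1 : lg a - lg b = 4 * ((a - b) * (1 - a - b)) := by
    unfold lg
    ring
  have h2 : |1 - a - b| ≤ 1 := by
    rw [abs_le]
    constructor <;> linarith
  rw [h1, abs_mul, abs_mul, abs_of_nonneg (by norm_num : (0 : ℝ) ≤ 4)]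
  have h3 : |a - b| * |1 - a - b| ≤ |a - b| * 1 :=
    mul_le_mul_of_nonneg_left h2 (abs_nonneg _)
  linarith

theorem PAT_lipj (j : ℕ) (a b : ℝ) (ha0 : 0 ≤ a) (ha1 : a ≤ 1) (hb0 : 0 ≤ b) (hb1 : b ≤ 1) :
    |lg^[j] a - lg^[j] b| ≤ 4 ^ j * |a - b| := by
  induction j with
  | zero => simp
  | succ j ih =>
    rw [Function.iterate_succ_apply', Function.iterate_succ_apply']
    obtain ⟨h1, h2⟩ := PAT_iter j a ha0 ha1
    obtain ⟨h3, h4⟩ := PAT_iter j b hb0 hb1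
    have h5 := PAT_lip _ _ h1 h2 h3 h4
    rw [pow_succ]
    linarith

theorem PAT_claim (n : ℕ) : ∀ y : ℕ → ℤ, (∀ i, y i = 0 ∨ y i = 1) → ∃ t : ℝ, 1 / 5 ≤ t ∧
    t ≤ 4 / 5 ∧ ∀ i < n, |lg^[2 * i] t - y i| ≤ 2 / 5 := by
  induction n with
  | zero =>
    intro y _
    exact ⟨1 / 5, le_refl _, by norm_num, fun i hi => absurd hi (Nat.not_lt_zero i)⟩
  | succ n ih =>
    intro y hy
    obtain ⟨t', h1, h2, h3⟩ := ih (fun i => y (i + 1)) (fun i => hy (i + 1))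
    have hc : ContinuousOn (fun z : ℝ => lg (lg z)) (Set.Icc (1 / 5 : ℝ) (2 / 5)) := by
      unfold lg
      fun_prop
    have hiv := intermediate_value_Icc' (by norm_num : (1 / 5 : ℝ) ≤ 2 / 5) hc
    have hmem : t' ∈ Set.Icc ((fun z : ℝ => lg (lg z)) (2 / 5)) ((fun z : ℝ => lg (lg z)) (1 / 5)) := by
      constructor
      · show lg (lg (2 / 5 : ℝ)) ≤ t'
        have : lg (lg (2 / 5 : ℝ)) = 96 / 625 := by unfold lg; norm_num
        rw [this]
        linarith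
      · show t' ≤ lg (lg (1 / 5 : ℝ))
        have : lg (lg (1 / 5 : ℝ)) = 576 / 625 := by unfold lg; norm_num
        rw [this]
        linarith
    obtain ⟨z, ⟨hz1, hz2⟩, hz3⟩ := hiv hmem
    have key : ∀ t : ℝ, lg (lg t) = t' → |t - y 0| ≤ 2 / 5 →
        ∀ i < n + 1, |lg^[2 * i] t - y i| ≤ 2 / 5 := by
      intro t ht h0 i hi
      rcases i with _ | i
      · simpa using h0
      · have h4 : lg^[2 * (i + 1)] t = lg^[2 * i] t' := by
          rw [show 2 * (i + 1) = 2 * i + 1 + 1 by ring, Function.iterate_succ_apply,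
            Function.iterate_succ_apply, ht]
        rw [h4]
        exact h3 i (by omega)
    rcases hy 0 with h0 | h0
    · refine ⟨z, hz1, by linarith, key z hz3 ?_⟩
      rw [h0, Int.cast_zero, sub_zero, abs_of_nonneg (by linarith)]
      exact hz2
    · refine ⟨1 - z, by linarith, by linarith, key (1 - z) ?_ ?_⟩
      · have h5 : lg (1 - z) = lg z := by
          unfold lg
          ring
        rw [h5]
        exact hz3
      · rw [h0, Int.cast_one, abs_le]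
        constructor <;> linarith

/-- item PAT -/
theorem prfPAT : PAT := by
  intro n y hy
  obtain ⟨t, h1, h2, h3⟩ := PAT_claim n y hy
  have hM : (0 : ℝ) < 2 ^ (4 * n + 8) := by positivity
  have hf1 : ((⌊2 ^ (4 * n + 8) * t⌋₊ : ℕ) : ℝ) ≤ 2 ^ (4 * n + 8) * t :=
    Nat.floor_le (by have : 0 ≤ t := by linarith
                     positivity)
  have hf2 : 2 ^ (4 * n + 8) * t < (⌊2 ^ (4 * n + 8) * t⌋₊ : ℕ) + 1 := Nat.lt_floor_add_one _
  set k := ⌊(2 : ℝ) ^ (4 * n + 8) * t⌋₊ with hk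
  have hu1 : (k : ℝ) / 2 ^ (4 * n + 8) ≤ t := by
    rw [div_le_iff₀ hM]
    linarith
  have hu2 : t - 1 / 2 ^ (4 * n + 8) ≤ (k : ℝ) / 2 ^ (4 * n + 8) := by
    rw [sub_le_iff_le_add, ← add_div, le_div_iff₀ hM]
    linarith
  have hu0 : 0 ≤ (k : ℝ) / 2 ^ (4 * n + 8) := by positivity
  refine ⟨k, ?_, ?_⟩
  · have h4 : (k : ℝ) ≤ 2 ^ (4 * n + 8) := by
      have : (2 : ℝ) ^ (4 * n + 8) * t ≤ 2 ^ (4 * n + 8) * 1 :=
        mul_le_mul_of_nonneg_left (by linarith) hM.le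
      linarith
    exact_mod_cast h4
  · intro i hi
    obtain ⟨h4, h5⟩ := PAT_iter (2 * i) _ hu0 (by linarith)
    refine ⟨h4, h5, ?_⟩
    have h6 := PAT_lipj (2 * i) ((k : ℝ) / 2 ^ (4 * n + 8)) t hu0 (by linarith) (by linarith)
      (by linarith)
    have h7 : |(k : ℝ) / 2 ^ (4 * n + 8) - t| ≤ 1 / 2 ^ (4 * n + 8) := by
      rw [abs_le]
      constructor <;> linarith [one_div_pos.2 hM]
    have h8 : (4 : ℝ) ^ (2 * i) ≤ 2 ^ (4 * n) := by
      have : (4 : ℝ) ^ (2 * i) = 2 ^ (4 * i) := by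
        rw [show (4 : ℝ) = 2 ^ 2 by norm_num, ← pow_mul]
        congr 1
        ring
      rw [this]
      exact pow_le_pow_right₀ (by norm_num) (by omega)
    have h9 : (4 : ℝ) ^ (2 * i) * |(k : ℝ) / 2 ^ (4 * n + 8) - t| ≤ 1 / 256 := by
      calc (4 : ℝ) ^ (2 * i) * |(k : ℝ) / 2 ^ (4 * n + 8) - t|
          ≤ 2 ^ (4 * n) * (1 / 2 ^ (4 * n + 8)) :=
            mul_le_mul h8 h7 (abs_nonneg _) (by positivity)
        _ = 1 / 256 := by
          rw [pow_add]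
          field_simp
          norm_num
    have h10 := h3 i hi
    have h11 := abs_sub_le (lg^[2 * i] ((k : ℝ) / 2 ^ (4 * n + 8))) (lg^[2 * i] t) (y i : ℝ)
    linarith

end Pool.Agent.Work.MP_859ada_lc.FC
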