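import Pool.Agent.Work.MP_859ada_lc.FC.Stmts

/-!
# Block FC: item PWN
-/

set_option autoImplicit false

namespace Pool.Agent.Work.MP_859ada_lc.FC

open Polynomial Pool.Agent.PT Finset

/-- one more gate which refers to the last gate -/
theorem PWN_step {q : List Gate} (hq : q ≠ []) (hw : WF 0 q) (g : Gate)
    (hg : g = .mul (q.length - 1) (q.length - 1) ∨ g = .add (q.length - 1) (q.length - 1)) :
    WF 0 (q ++ [g]) := by
  have hl : 0 < q.length := List.length_pos_iff.2 hq
  rw [wf_iff] at hw ⊢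
  rw [allAt_append]
  refine ⟨hw, ?_⟩
  rw [allAt_cons]
  refine ⟨?_, (allAt_nil _).2 trivial⟩
  rcases hg with h | h <;> subst h <;> simp only [Gate.Ok] <;> omega

theorem PWN_mul {q : List Gate} :
    value (fun _ => (0 : ℤ)) (q ++ [Gate.mul (q.length - 1) (q.length - 1)]) =
      value (fun _ => (0 : ℤ)) q * value (fun _ => (0 : ℤ)) q := by
  rw [value_concat, value_eq_getD]
  rfl

theorem PWN_add {q : List Gate} :
    value (fun _ => (0 : ℤ)) (q ++ [Gate.add (q.length - 1) (q.length - 1)]) =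
      value (fun _ => (0 : ℤ)) q + value (fun _ => (0 : ℤ)) q := by
  rw [value_concat, value_eq_getD]
  rfl

/-- programs for powers of two -/
theorem PWN_pow : ∀ (t k : ℕ), k < 2 ^ t → ∃ q : List Gate, q ≠ [] ∧ WF 0 q ∧
    q.length ≤ 2 * t + 1 ∧ value (fun _ => (0 : ℤ)) q = 2 ^ k := by
  intro t
  induction t with
  | zero =>
    intro k hk
    have hk0 : k = 0 := by simpa using hk
    subst hk0
    refine ⟨[.one], by simp, ?_, by simp, ?_⟩
    · rw [wf_iff, allAt_cons]
      exact ⟨trivial, (allAt_nil _).2 trivial⟩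
    · rfl
  | succ t ih =>
    intro k hk
    obtain ⟨q, hne, hw, hl, hv⟩ := ih (k / 2) (by
      rw [pow_succ] at hk
      omega)
    have hw1 := PWN_step hne hw (.mul (q.length - 1) (q.length - 1)) (Or.inl rfl)
    have hv1 := PWN_mul (q := q)
    rw [hv] at hv1
    rcases Nat.even_or_odd k with he | ho
    · refine ⟨q ++ [Gate.mul (q.length - 1) (q.length - 1)], by simp, hw1, ?_, ?_⟩
      · simp only [List.length_append, List.length_cons, List.length_nil]
        omega
      · rw [hv1, ← pow_add]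
        congr 1
        obtain ⟨m, hm⟩ := he
        omega
    · refine ⟨(q ++ [Gate.mul (q.length - 1) (q.length - 1)]) ++
        [Gate.add ((q ++ [Gate.mul (q.length - 1) (q.length - 1)]).length - 1)
          ((q ++ [Gate.mul (q.length - 1) (q.length - 1)]).length - 1)], by simp,
        PWN_step (by simp) hw1 _ (Or.inr rfl), ?_, ?_⟩
      · simp only [List.length_append, List.length_cons, List.length_nil]
        omega
      · rw [PWN_add, hv1, ← pow_add, ← two_mul, ← pow_succ']
        congr 1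
        obtain ⟨m, hm⟩ := ho
        omega

theorem prfPWN : PWN := by
  intro D L hD hDL
  have hex : ∃ k : ℕ, 8 * D < 5 * 4 ^ (k + 1) := by
    refine ⟨D.toNat, ?_⟩
    have h1 : D.toNat < 4 ^ D.toNat := Nat.lt_pow_self (by norm_num)
    have h2 : (D.toNat : ℤ) < 4 ^ D.toNat := by exact_mod_cast h1
    rw [Int.toNat_of_nonneg hD.le] at h2
    rw [pow_succ]
    linarith
  classical
  obtain ⟨k, hk1, hk2⟩ : ∃ k : ℕ, 5 * (4 : ℤ) ^ k ≤ 8 * D ∧ 8 * D < 5 * 4 ^ (k + 1) := by
    refine ⟨Nat.find hex, ?_, Nat.find_spec hex⟩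
    rcases Nat.eq_zero_or_pos (Nat.find hex) with h | h
    · rw [h]
      simp only [pow_zero]
      linarith
    · have := Nat.find_min hex (m := Nat.find hex - 1) (by omega)
      rw [Nat.sub_add_cancel h] at this
      exact not_lt.1 this
  have hk : k < 2 ^ (L + 1) := by
    by_contra hcon
    push Not at hcon
    have h1 : 2 ^ L + 3 ≤ 2 * k := by
      have : 1 ≤ 2 ^ L := Nat.one_le_two_pow
      rw [pow_succ] at hcon
      omega
    have h2 : (2 : ℤ) ^ (2 ^ L + 3) ≤ 2 ^ (2 * k) :=
      pow_le_pow_right₀ (by norm_num) h1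
    rw [pow_mul, pow_add] at h2
    norm_num at h2
    have h3 : (0 : ℤ) < 2 ^ 2 ^ L := by positivity
    linarith
  obtain ⟨q, hne, hw, hl, hv⟩ := PWN_pow (L + 1) k hk
  refine ⟨q, hne, hw, by omega, ?_, ?_⟩
  · rw [hv, ← pow_mul, mul_comm k 2, pow_mul]
    norm_num
    rw [pow_succ] at hk2
    linarith
  · rw [hv, ← pow_mul, mul_comm k 2, pow_mul]
    norm_num
    linarith

end Pool.Agent.Work.MP_859ada_lc.FC
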