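import Pool.Agent.Work.MP_859ada_lc.FC.Stmts

/-!
# Item RBV of block FC: the program in one variable
-/

set_option autoImplicit false

namespace Pool.Agent.Work.MP_859ada_lc.FC

open Polynomial Pool.Agent.PT Finset

theorem RBV_ptf (h3 : SBT) (h4 : BTV) (h5 : FNV) :
    PTF (fun x : ℕ × List Gate => robP x.1 x.2) := by
  have hb : PTF (fun y : (ℕ × List Gate) × ℕ =>
      betP (y.1.2.length + 2 * y.1.1 + 12) y.2) :=
    PTF.comp (g := fun y : (ℕ × List Gate) × ℕ => (y.1.2.length + 2 * y.1.1 + 12, y.2)) h4.1
      (by fun_prop)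
  have hf : PTF (fun x : ℕ × List Gate => finP x.1 (x.2.length + 4) x.2) :=
    PTF.comp (g := fun x : ℕ × List Gate => ((x.1, x.2.length + 4), x.2)) h5.1 (by fun_prop)
  have hm : PTF (fun x : ℕ × List Gate =>
      (List.range x.1).map (fun i => betP (x.2.length + 2 * x.1 + 12) i)) :=
    PTF.map' hb (by fun_prop)
  exact PTF.comp (g := fun x : ℕ × List Gate => ((1,
    (List.range x.1).map (fun i => betP (x.2.length + 2 * x.1 + 12) i)),
      finP x.1 (x.2.length + 4) x.2)) h3 (PTF.pair (PTF.pair (by fun_prop) hm) hf)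

theorem RBV_x (h4 : BTV) (n r : ℕ) (A : Type) [CommRing A] (t : A) (k : ℕ) :
    value (fun _ => t) (((List.range n).map (fun i => betP r i)).getD k []) =
      if k < n then bt r k t else 0 := by
  by_cases hk : k < n
  · rw [if_pos hk, List.getD_eq_getElem?_getD, List.getElem?_map, List.getElem?_range hk]
    exact (h4.2 r k).2 A t
  · rw [if_neg hk, List.getD_eq_default]
    · rfl
    · rw [List.length_map, List.length_range]
      omega

theorem prfRBV (h1 : SBW) (h2 : SBV) (h3 : SBT) (h4 : BTV) (h5 : FNV) : RBV := by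
  refine ⟨RBV_ptf h3 h4 h5, fun n p => ⟨?_, (h1 1 _ _).1, ?_⟩⟩
  · intro h
    have h6 := (h1 1 ((List.range n).map (fun i => betP (p.length + 2 * n + 12) i))
      (finP n (p.length + 4) p)).2
    have h7 : substP 1 ((List.range n).map (fun i => betP (p.length + 2 * n + 12) i))
      (finP n (p.length + 4) p) = [] := h
    rw [h7, List.length_nil] at h6
    omega
  · intro hp A _ t
    have hσ : ∀ q ∈ (List.range n).map (fun i => betP (p.length + 2 * n + 12) i), WF 1 q := by
      intro q hq
      rw [List.mem_map] at hq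
      obtain ⟨i, -, rfl⟩ := hq
      exact (h4.2 _ _).1
    have h6 := h2 A 1 ((List.range n).map (fun i => betP (p.length + 2 * n + 12) i))
      (finP n (p.length + 4) p) (fun _ => t) hσ
    have h7 : (fun k => value (fun _ => t)
        (((List.range n).map (fun i => betP (p.length + 2 * n + 12) i)).getD k [])) =
        fun k => if k < n then bt (p.length + 2 * n + 12) k t else 0 :=
      funext (fun k => RBV_x h4 n _ A t k)
    rw [h7] at h6
    unfold robP
    rw [h6, (h5.2 n (p.length + 4) p).2 hp A _]
    have h8 : ∀ i ∈ range n, (if i < n then bt (p.length + 2 * n + 12) i t else 0) =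
        bt (p.length + 2 * n + 12) i t := fun i hi => if_pos (Finset.mem_range.1 hi)
    have h9 : ∑ i ∈ range n, (if i < n then bt (p.length + 2 * n + 12) i t else 0) ^ 2 =
        ∑ i ∈ range n, bt (p.length + 2 * n + 12) i t ^ 2 :=
      Finset.sum_congr rfl (fun i hi => by rw [h8 i hi])
    have h10 : ∑ i ∈ range n, ((if i < n then bt (p.length + 2 * n + 12) i t else 0) ^ 2 -
        (if i < n then bt (p.length + 2 * n + 12) i t else 0)) ^ 2 =
        ∑ i ∈ range n, (bt (p.length + 2 * n + 12) i t ^ 2 -
          bt (p.length + 2 * n + 12) i t) ^ 2 :=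
      Finset.sum_congr rfl (fun i hi => by rw [h8 i hi])
    rw [h9, h10]

end Pool.Agent.Work.MP_859ada_lc.FC
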