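import Pool.Agent.Work.MP_859ada_lc.FC.Stmts

/-!
# Block FC, item RBX: from bits to one real number
-/

set_option autoImplicit false

namespace Pool.Agent.Work.MP_859ada_lc.FC

open Polynomial Pool.Agent.PT Finset

/-- The values of the inputs. -/
noncomputable def RBX_x (n : ℕ) (p : List Gate) (t : ℝ) (i : ℕ) : ℝ :=
  if i < n then bt (p.length + 2 * n + 12) i t else 0

theorem RBX_form (h1 : RBV) {n : ℕ} {p : List Gate} (hp : WF n p) (t : ℝ) :
    value (fun _ => t) (robP n p) =
      (2 + ∑ i ∈ range n, RBX_x n p t i ^ 2) ^ (2 ^ (p.length + 4)) *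
        ∑ i ∈ range n, (RBX_x n p t i ^ 2 - RBX_x n p t i) ^ 2 -
        (2 * value (RBX_x n p t) p - 1) := by
  have h := ((h1.2 n p).2.2 hp ℝ t)
  have e : ∀ i ∈ range n, RBX_x n p t i = bt (p.length + 2 * n + 12) i t := by
    intro i hi
    unfold RBX_x
    rw [if_pos (Finset.mem_range.1 hi)]
  have e1 : ∑ i ∈ range n, RBX_x n p t i ^ 2 =
      ∑ i ∈ range n, bt (p.length + 2 * n + 12) i t ^ 2 :=
    Finset.sum_congr rfl (fun i hi => by rw [e i hi])
  have e2 : ∑ i ∈ range n, (RBX_x n p t i ^ 2 - RBX_x n p t i) ^ 2 =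
      ∑ i ∈ range n, (bt (p.length + 2 * n + 12) i t ^ 2 - bt (p.length + 2 * n + 12) i t) ^ 2 :=
    Finset.sum_congr rfl (fun i hi => by rw [e i hi])
  rw [e1, e2]
  exact h

theorem RBX_zero {n : ℕ} {p : List Gate} {t : ℝ} (i : ℕ) (hi : n ≤ i) : RBX_x n p t i = 0 := by
  unfold RBX_x
  rw [if_neg (by omega)]

theorem RBX_cast (r : ℕ) (z : ℤ) : ((am^[r] z : ℤ) : ℝ) = am^[r] (z : ℝ) := by
  induction r with
  | zero => rfl
  | succ r ih =>
    rw [Function.iterate_succ_apply', Function.iterate_succ_apply', ← ih]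
    unfold am
    push_cast
    ring

theorem prfRBX (h1 : RBV) (h2 : ROA) (h3 : ROB) (h4 : AMP) (h5 : PAT) : RBX := by
  intro n p hp
  refine ⟨?_, ?_, ?_⟩
  · intro t ht
    rw [RBX_form h1 hp] at ht
    obtain ⟨y, hy, -, hv⟩ := h2 n p (RBX_x n p t) (fun i hi => RBX_zero i hi) ht
    exact ⟨y, hy, hv⟩
  · intro y hy hv
    obtain ⟨y', hy'⟩ : ∃ y' : ℕ → ℤ, y' = fun i => if i < n then y i else 0 := ⟨_, rfl⟩
    have hb : ∀ i, y' i = 0 ∨ y' i = 1 := by
      intro i
      rw [hy']
      show (if i < n then y i else 0) = 0 ∨ (if i < n then y i else 0) = 1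
      by_cases hi : i < n
      · rw [if_pos hi]; exact hy i
      · rw [if_neg hi]; exact Or.inl rfl
    have hv' : 0 < value y' p := by
      have e : value y' p = value y p := by
        refine value_congr fun k hk => ?_
        obtain ⟨i, hi, he⟩ := List.getElem_of_mem hk
        have h := hp i hi
        rw [he] at h
        have hkn : k < n := h
        rw [hy']
        show (if k < n then y k else 0) = y k
        rw [if_pos hkn]
      rw [e]
      exact hv
    obtain ⟨k, hk, hkk⟩ := h5 n y' hb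
    refine ⟨k, hk, ?_⟩
    have hpos : (0 : ℝ) < 2 ^ (4 * n + 8) := by positivity
    have t0 : (0 : ℝ) ≤ (k : ℝ) / 2 ^ (4 * n + 8) := by positivity
    have t1 : (k : ℝ) / 2 ^ (4 * n + 8) ≤ 1 := by
      rw [div_le_one hpos]
      exact_mod_cast hk
    obtain ⟨t, ht⟩ : ∃ t : ℝ, t = (k : ℝ) / 2 ^ (4 * n + 8) := ⟨_, rfl⟩
    rw [← ht] at t0 t1 ⊢
    rw [RBX_form h1 hp]
    refine h3 n p (RBX_x n p t) y' hb ?_ ?_ hv'
    · intro i
      by_cases hi : i < n
      · have e : RBX_x n p t i = bt (p.length + 2 * n + 12) i t := by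
          unfold RBX_x
          rw [if_pos hi]
        rw [e]
        exact h4.1 _ i t t0 t1
      · rw [RBX_zero i (by omega)]
        exact ⟨le_rfl, zero_le_one⟩
    · intro i
      by_cases hi : i < n
      · have e : RBX_x n p t i = am^[p.length + 2 * n + 12] (lg^[2 * i] t) := by
          unfold RBX_x bt
          rw [if_pos hi]
        obtain ⟨z0, z1, z2⟩ := hkk i hi
        rw [← ht] at z0 z1 z2
        have hb' : ((y' i : ℤ) : ℝ) = 0 ∨ ((y' i : ℤ) : ℝ) = 1 := by
          rcases hb i with h | h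
          · left; rw [h]; norm_num
          · right; rw [h]; norm_num
        have h := h4.2.1 _ _ z0 z1 hb' z2 (p.length + 2 * n + 12) (by omega)
        rw [e]
        have e5 : p.length + 2 * n + 12 - 5 = p.length + 2 * n + 7 := by omega
        rw [e5] at h
        exact h
      · rw [RBX_zero i (by omega)]
        have e : y' i = 0 := by
          rw [hy']
          show (if i < n then y i else 0) = 0
          rw [if_neg hi]
        rw [e]
        simp
  · intro hn
    by_contra hc
    rw [not_lt, RBX_form h1 hp] at hc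
    obtain ⟨y, hy, hxy, -⟩ := h2 n p (RBX_x n p 2) (fun i hi => RBX_zero i hi) hc
    have h := hxy 0
    have e : RBX_x n p 2 0 = ((am^[p.length + 2 * n + 12] (2 : ℤ) : ℤ) : ℝ) := by
      rw [RBX_cast]
      unfold RBX_x bt
      rw [if_pos (by omega)]
      norm_num
    rw [e] at h
    obtain ⟨m, hm⟩ : ∃ m : ℤ, m = am^[p.length + 2 * n + 12] (2 : ℤ) := ⟨_, rfl⟩
    obtain ⟨hm0, hm1⟩ := h4.2.2 (p.length + 2 * n + 12) 2 (by norm_num) (by norm_num)
    rw [← hm] at h hm0 hm1
    have h' : |((m - y 0 : ℤ) : ℝ)| ≤ 1 / 16 := by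
      push_cast
      exact h
    have hz : m - y 0 = 0 := by
      by_contra hne
      have h6 : (1 : ℤ) ≤ |m - y 0| := Int.one_le_abs hne
      have h7 : (1 : ℝ) ≤ |((m - y 0 : ℤ) : ℝ)| := by
        rw [← Int.cast_abs]
        exact_mod_cast h6
      linarith
    rcases hy 0 with h8 | h8
    · exact hm0 (by omega)
    · exact hm1 (by omega)

end Pool.Agent.Work.MP_859ada_lc.FC
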