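import Pool.Agent.Work.MP_859ada_lc.FC.Stmts

/-!
# Block FC of MP_859ada_lc, item ROA: a point with a nonpositive value is close to bits (helper65)
-/

set_option autoImplicit false

namespace Pool.Agent.Work.MP_859ada_lc.FC

open Polynomial Pool.Agent.PT Finset

theorem ROA_close (a : ℝ) : |a - (((if 1 / 2 < a then 1 else 0 : ℤ)) : ℝ)| ^ 2 ≤
    4 * (a ^ 2 - a) ^ 2 := by
  rw [sq_abs]
  split_ifs with h
  · push_cast
    have h1 : 0 ≤ (a - 1) ^ 2 := sq_nonneg _
    have h2 : 1 ≤ 4 * a ^ 2 := by nlinarith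
    have h3 : 4 * (a ^ 2 - a) ^ 2 = 4 * a ^ 2 * (a - 1) ^ 2 := by ring
    rw [h3]
    nlinarith
  · push_cast
    push Not at h
    have h1 : 0 ≤ a ^ 2 := sq_nonneg _
    have h2 : 1 ≤ 4 * (1 - a) ^ 2 := by nlinarith
    have h3 : 4 * (a ^ 2 - a) ^ 2 = 4 * (1 - a) ^ 2 * a ^ 2 := by ring
    rw [h3, sub_zero]
    nlinarith

theorem prfROA : ROA := by
  intro n p x hx0 hle
  set L := p.length with hL
  set S : ℝ := ∑ i ∈ range n, x i ^ 2 with hS
  set E : ℝ := ∑ i ∈ range n, (x i ^ 2 - x i) ^ 2 with hE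
  have hS0 : 0 ≤ S := by rw [hS]; positivity
  have hE0 : 0 ≤ E := by rw [hE]; positivity
  have hM2 : (2 : ℝ) ≤ 2 + S := by linarith
  set K : ℝ := (2 + S) ^ (2 ^ L) with hK
  have hK2 : 2 ≤ K := by
    calc (2 : ℝ) ≤ 2 + S := hM2
      _ = (2 + S) ^ 1 := (pow_one _).symm
      _ ≤ K := pow_le_pow_right₀ (by linarith) Nat.one_le_two_pow
  have hK0 : 0 < K := by linarith
  have hxM : ∀ i, ‖x i‖ ≤ 2 + S := by
    intro i
    rw [Real.norm_eq_abs]
    by_cases hi : i < n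
    · have h1 : x i ^ 2 ≤ S := by
        rw [hS]
        exact Finset.single_le_sum (f := fun i => x i ^ 2) (fun j _ => sq_nonneg _)
          (Finset.mem_range.2 hi)
      have h2 : |x i| ^ 2 ≤ S := by rwa [sq_abs]
      nlinarith [sq_nonneg (|x i| - 1), abs_nonneg (x i)]
    · rw [hx0 i (not_lt.1 hi), abs_zero]
      linarith
  have hf : |value x p| ≤ K := by
    have h := norm_value_le (𝕜 := ℝ) hM2 hxM (p := p) (n := L) le_rfl
    rwa [Real.norm_eq_abs] at h
  have hpow : (2 + S) ^ (2 ^ (L + 4)) = K ^ 16 := by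
    rw [hK, ← pow_mul, pow_add]
    norm_num
  rw [hpow] at hle
  have h14 : E * K ^ 14 ≤ 1 := by
    have h1 : K ^ 16 * E ≤ K ^ 2 := by
      have h2 := (abs_le.1 hf).2
      nlinarith
    have h3 : K ^ 2 * (E * K ^ 14) ≤ K ^ 2 * 1 := by
      calc K ^ 2 * (E * K ^ 14) = K ^ 16 * E := by ring
        _ ≤ K ^ 2 := h1
        _ = K ^ 2 * 1 := (mul_one _).symm
    exact le_of_mul_le_mul_left h3 (by positivity)
  have h12 : 4 * E * K ^ 12 ≤ 1 := by
    have h1 : (4 : ℝ) ≤ K ^ 2 := by nlinarith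
    calc 4 * E * K ^ 12 = 4 * (E * K ^ 12) := by ring
      _ ≤ K ^ 2 * (E * K ^ 12) := mul_le_mul_of_nonneg_right h1 (by positivity)
      _ = E * K ^ 14 := by ring
      _ ≤ 1 := h14
  set d : ℝ := (K ^ 6)⁻¹ with hd
  have hK6 : (64 : ℝ) ≤ K ^ 6 := by
    calc (64 : ℝ) = 2 ^ 6 := by norm_num
      _ ≤ K ^ 6 := pow_le_pow_left₀ (by norm_num) hK2 6
  have hd0 : 0 ≤ d := by rw [hd]; positivity
  have hd1 : d ≤ 1 / 16 := by
    rw [hd, inv_le_comm₀ (by positivity) (by norm_num)]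
    norm_num
    linarith
  let y : ℕ → ℤ := fun i => if 1 / 2 < x i then 1 else 0
  have hy : ∀ i, y i = 0 ∨ y i = 1 := by
    intro i
    by_cases h : 1 / 2 < x i
    · right; simp only [y]; rw [if_pos h]
    · left; simp only [y]; rw [if_neg h]
  have hxy : ∀ i, |x i - y i| ≤ d := by
    intro i
    have h1 : |x i - y i| ^ 2 ≤ 4 * (x i ^ 2 - x i) ^ 2 := ROA_close (x i)
    have h2 : (x i ^ 2 - x i) ^ 2 ≤ E := by
      by_cases hi : i < n
      · rw [hE]
        exact Finset.single_le_sum (f := fun i => (x i ^ 2 - x i) ^ 2) (fun j _ => sq_nonneg _)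
          (Finset.mem_range.2 hi)
      · rw [hx0 i (not_lt.1 hi)]
        simpa using hE0
    have h3 : (|x i - y i| * K ^ 6) ^ 2 ≤ 1 := by
      calc (|x i - y i| * K ^ 6) ^ 2 = |x i - y i| ^ 2 * K ^ 12 := by ring
        _ ≤ 4 * E * K ^ 12 := by
          refine mul_le_mul_of_nonneg_right ?_ (by positivity)
          linarith
        _ ≤ 1 := h12
    have h4 : |x i - y i| * K ^ 6 ≤ 1 := by
      by_contra hc
      push Not at hc
      nlinarith
    rw [hd, ← one_div, le_div_iff₀ (by positivity)]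
    exact h4
  refine ⟨y, hy, fun i => (hxy i).trans hd1, ?_⟩
  have hyv : value (fun i => ((y i : ℤ) : ℝ)) p = ((value y p : ℤ) : ℝ) := by
    have := value_map (Int.castRingHom ℝ) y p
    simpa using this
  have hsub : |value x p - value (fun i => ((y i : ℤ) : ℝ)) p| ≤
      d * (2 + S) ^ (2 ^ (L + 1)) := by
    have h := norm_value_sub_le (𝕜 := ℝ) (M := 2 + S) (d := d) hM2 hd0
      (x := x) (y := fun i => ((y i : ℤ) : ℝ)) (p := p) (n := L) hxM
      (fun i => by
        rw [Real.norm_eq_abs]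
        rcases hy i with h | h <;> rw [h] <;> norm_num <;> linarith)
      (fun i => by
        rw [Real.norm_eq_abs]
        exact hxy i) le_rfl
    rwa [Real.norm_eq_abs] at h
  have hpow2 : (2 + S) ^ (2 ^ (L + 1)) = K ^ 2 := by
    rw [hK, ← pow_mul, pow_succ]
  rw [hpow2] at hsub
  have hd2 : d * K ^ 2 ≤ 1 / 16 := by
    have h1 : d * K ^ 2 * K ^ 4 = 1 := by
      rw [hd, mul_assoc, ← pow_add]
      exact inv_mul_cancel₀ (by positivity)
    have h2 : (16 : ℝ) ≤ K ^ 4 := by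
      calc (16 : ℝ) = 2 ^ 4 := by norm_num
        _ ≤ K ^ 4 := pow_le_pow_left₀ (by norm_num) hK2 4
    have h3 : 0 ≤ d * K ^ 2 := by positivity
    nlinarith
  have hx : 1 / 2 ≤ value x p := by
    have : 0 ≤ K ^ 16 * E := by positivity
    linarith
  have hfin : (0 : ℝ) < ((value y p : ℤ) : ℝ) := by
    rw [← hyv]
    have := (abs_le.1 hsub).2
    linarith
  exact_mod_cast hfin

end Pool.Agent.Work.MP_859ada_lc.FC
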