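import Pool.Agent.Work.MP_859ada_lc.FC.Stmts

/-!
# Block FC, item SBT: the composition is computable in polynomial time
-/

set_option autoImplicit false

namespace Pool.Agent.Work.MP_859ada_lc.FC

open Polynomial Pool.Agent.PT Finset

theorem prfSBT : SBT := by
  unfold SBT substP
  have hn : PTF (fun x : (ℕ × List (List Gate)) × List Gate => nOf x.1.2) :=
    PTF.comp (f := nOf) (g := fun x : (ℕ × List (List Gate)) × List Gate => x.1.2) ptf_nOf
      (by fun_prop)
  refine PTF.append (by fun_prop) (PTF.append (PTF.flatMap' ?_ (by fun_prop)) ?_)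
  · have hn' : PTF (fun x : ((ℕ × List (List Gate)) × List Gate) × ℕ => nOf x.1.1.2) :=
      PTF.comp (f := nOf) (g := fun x : ((ℕ × List (List Gate)) × List Gate) × ℕ => x.1.1.2) ptf_nOf
        (by fun_prop)
    refine PTF.copyB (r := fun (x : ((ℕ × List (List Gate)) × List Gate) × ℕ) k =>
      if k < x.1.1.1 then .var k else .sub 0 0) hn' (by fun_prop) (by fun_prop) ?_ (by fun_prop)
    fun_prop
  · refine PTF.copyB (r := fun (x : (ℕ × List (List Gate)) × List Gate) k =>
      if k < x.1.2.length then .add (1 + (k + 1) * nOf x.1.2) 1 else .sub 0 0) (by fun_prop)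
      (by fun_prop) (by fun_prop) ?_ (by fun_prop)
    have hn' : PTF (fun x : ((ℕ × List (List Gate)) × List Gate) × ℕ => nOf x.1.1.2) :=
      PTF.comp (f := nOf) (g := fun x : ((ℕ × List (List Gate)) × List Gate) × ℕ => x.1.1.2) ptf_nOf
        (by fun_prop)
    fun_prop

end Pool.Agent.Work.MP_859ada_lc.FC
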