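import Pool.Agent.Work.MP_859ada_lc.FC.Stmts
import Pool.Agent.Work.MP_859ada_lc.Main

/-!
# MP_859ada_lc, block FC, item SBV: the value of a composition of programs
-/

set_option autoImplicit false

namespace Pool.Agent.Work.MP_859ada_lc.FC

open Polynomial Pool.Agent.PT Finset

theorem prfSBV (h1 : SBW) : SBV := by
  intro A _ n σ p x hσ
  obtain ⟨hwf, hlen⟩ := h1 n σ p
  have hM := models_self hwf x
  rw [value_eq_getD, hlen]
  generalize hv : (fun i' => (vals x (substP n σ p)).getD i' 0) = v at hM
  have hv' : ∀ i', (vals x (substP n σ p)).getD i' 0 = v i' := fun i' => by rw [← hv]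
  rw [hv']
  simp only [hv'] at hM
  clear hv hv'
  unfold substP at hM
  have hblk : ∀ i < σ.length,
      (copyB (nOf σ) 1 (2 + i * nOf σ) (fun k => if k < n then Gate.var k else .sub 0 0)
        (σ.getD i [])).length = nOf σ := fun i _ => length_copyB (length_le_nOf σ i)
  rw [allAt_append, allAt_append, allAt_flatMap_range _ hblk, length_flatMap_range hblk] at hM
  simp only [allAt_cons, allAt_nil, eqv_one, eqv_sub, and_true, Nat.zero_add, List.length_cons,
    List.length_nil, sub_self] at hM
  obtain ⟨⟨g0, g1⟩, h2, h3⟩ := hM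
  rw [show 1 + 1 = 2 by rfl] at h2 h3
  have hn : 1 ≤ nOf σ := by unfold nOf; omega
  have hval : ∀ i < σ.length, v (1 + (i + 1) * nOf σ) = value x (σ.getD i []) := by
    intro i hi
    have hV := copyB_value (h2 i hi) g1 (length_le_nOf σ i) hn
      (x' := fun k => if k < n then x k else 0) (fun k => by
        split_ifs
        · rfl
        · rw [eqv_sub, sub_self])
    rw [show 2 + i * nOf σ + nOf σ - 1 = 1 + (i + 1) * nOf σ by
      rw [Nat.add_mul, Nat.one_mul]; omega] at hV
    rw [hV]
    refine value_congr fun k hk => ?_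
    have hq : σ.getD i [] ∈ σ := by
      rw [List.getD_eq_getElem _ _ hi]
      exact List.getElem_mem hi
    obtain ⟨j, hj, he⟩ := List.getElem_of_mem hk
    have h5 := hσ _ hq j hj
    rw [he] at h5
    exact if_pos h5
  have hV := copyB_value h3 g1 (Nat.le_succ _) (Nat.succ_le_succ (Nat.zero_le _))
    (x' := fun k => value x (σ.getD k [])) (fun k => by
      split_ifs with hk
      · rw [eqv_add, hval k hk, g1, add_zero]
      · rw [eqv_sub, sub_self, List.getD_eq_default _ _ (by omega)]
        rfl)
  rw [← hV]
  congr 1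
  omega

end Pool.Agent.Work.MP_859ada_lc.FC
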