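import Pool.Agent.Work.MP_859ada_lc.FC.Stmts

/-!
# Block FC, item SBW: composition of programs, length and well-formedness
-/

set_option autoImplicit false

namespace Pool.Agent.Work.MP_859ada_lc.FC

open Polynomial Pool.Agent.PT Finset

theorem SBW_len (n : ℕ) (σ : List (List Gate)) (j : ℕ) :
    (copyB (nOf σ) 1 (2 + j * nOf σ) (fun k => if k < n then .var k else .sub 0 0)
      (σ.getD j [])).length = nOf σ :=
  length_copyB (length_le_nOf σ j)

theorem prfSBW : SBW := by
  intro n σ p
  constructor
  · rw [wf_iff]
    unfold substP
    rw [allAt_append, allAt_append,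
      allAt_flatMap_range (W := nOf σ) _ (fun j _ => SBW_len n σ j),
      length_flatMap_range (fun j _ => SBW_len n σ j)]
    simp only [allAt_cons, allAt_nil, Gate.Ok, and_true, List.length_cons, List.length_nil,
      Nat.zero_add]
    refine ⟨⟨trivial, ⟨by omega, by omega⟩⟩, fun j _ => ?_, ?_⟩
    · refine copyB_ok (by omega) (fun k => ?_)
      split_ifs with h
      · exact h
      · exact ⟨by omega, by omega⟩
    · refine copyB_ok (by omega) (fun k => ?_)
      split_ifs with h
      · refine ⟨?_, by omega⟩
        have h1 : (k + 1) * nOf σ ≤ σ.length * nOf σ := Nat.mul_le_mul_right _ h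
        omega
      · exact ⟨by omega, by omega⟩
  · unfold substP
    rw [List.length_append, List.length_append, length_flatMap_range (fun j _ => SBW_len n σ j),
      length_copyB (by omega)]
    simp only [List.length_cons, List.length_nil]
    ring

end Pool.Agent.Work.MP_859ada_lc.FC
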