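import Pool.Agent.Work.MP_859ada_lc.FC.Stmts

/-!
# Block FC, item SN2: soundness of the certificate with two queries
-/

set_option autoImplicit false

namespace Pool.Agent.Work.MP_859ada_lc.FC

open Polynomial Pool.Agent.PT Finset

/-- the value of a program at a real number is the value of its polynomial -/
theorem SN2_value (p : List Gate) (x : ℝ) : value (fun _ => x) p = aeval x (fP p) := by
  have h3 := value_map ((aeval x : ℤ[X] →ₐ[ℤ] ℝ) : ℤ[X] →+* ℝ) (fun _ => (X : ℤ[X])) p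
  simp only [RingHom.coe_coe, aeval_X] at h3
  rw [h3]
  rfl

theorem SN2_wf (h1 : SBW) (p : List Gate) : WF 1 (ngP p) ∧ ngP p ≠ [] := by
  refine ⟨(h1 1 [p] _).1, fun h => ?_⟩
  have h2 := (h1 1 [p] [.one, .sub 0 0, .var 0, .sub 1 2]).2
  have h3 : (substP 1 [p] [.one, .sub 0 0, .var 0, .sub 1 2]).length = 0 := by
    have : ngP p = substP 1 [p] [.one, .sub 0 0, .var 0, .sub 1 2] := rfl
    rw [← this, h]
    rfl
  omega

theorem SN2_ng (h2 : SBV) (p : List Gate) (hwf : WF 1 p) (x : ℝ) :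
    value (fun _ => x) (ngP p) = -value (fun _ => x) p := by
  unfold ngP
  rw [h2 ℝ 1 [p] _ (fun _ => x) (by
    intro q hq
    rw [List.mem_singleton.1 hq]
    exact hwf)]
  simp [value, vals, Gate.val]

/-- one query: if it is positive then `2^(2^c) f(x) < 1` at some real `x` -/
theorem SN2_query (fx : (ℕ × List Gate) × (List Gate × List Gate) → List Gate) (hfx : FXS fx)
    (c : ℕ) (p a b : List Gate) (hp : p ≠ []) (hwf : WF 1 p) (hq : PosSLP (fx ((c, p), (a, b)))) :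
    ∃ x : ℝ, 2 ^ (2 ^ c) * value (fun _ => x) p < 1 := by
  obtain ⟨-, N, D, hv, hND, -⟩ := hfx c a b p hp hwf
  have h := hq.2
  rw [hv] at h
  have hD : D ≠ 0 := by
    rintro rfl
    simp at h
  have hDR : (D : ℝ) ≠ 0 := by exact_mod_cast hD
  have hD2 : (0 : ℝ) < (D : ℝ) ^ 2 := by positivity
  have h' : (0 : ℝ) < (D : ℝ) ^ 2 - 2 ^ (2 ^ c) * (N : ℝ) * (D : ℝ) := by
    have := (Int.cast_pos (R := ℝ)).2 h
    push_cast at this
    exact this
  have e : (2 : ℝ) ^ (2 ^ c) * ((N : ℝ) / D) = (2 ^ (2 ^ c) * (N : ℝ) * (D : ℝ)) / (D : ℝ) ^ 2 := by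
    field_simp
  have h1 : (2 : ℝ) ^ (2 ^ c) * ((N : ℝ) / D) < 1 := by
    rw [e, div_lt_one hD2]
    linarith
  rw [hND hD] at h1
  exact ⟨_, h1⟩

theorem prfSN2 (h1 : SBW) (h2 : SBV) (h3 : FS.NRM) : SN2 := by
  intro fx hfx c p a b a' b' hp hwf hc hq1 hq2
  refine ⟨hp, hwf, ?_⟩
  by_contra hcon
  push Not at hcon
  have hcon' : ∀ x : ℝ, aeval x (fP p) ≠ 0 := hcon
  have hn := h3 p p.length le_rfl
  have he : 16 * (2 ^ p.length) ^ 3 = 2 ^ (3 * p.length + 4) := (RootCH.bigM_eq p.length).symm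
  have hlow : ∀ x : ℝ, 1 < 2 ^ (2 ^ c) * |aeval x (fP p)| := by
    intro x
    have h := RootCH.abs_lower (fP p) (2 ^ p.length) Nat.one_le_two_pow hn.1 hn.2 hcon' x
    rw [he] at h
    refine h.trans_le (mul_le_mul_of_nonneg_right ?_ (abs_nonneg _))
    exact pow_le_pow_right₀ (by norm_num) (Nat.pow_le_pow_right (by norm_num) hc)
  have hcont : Continuous fun x : ℝ => aeval x (fP p) := by
    exact (fP p).continuous_aeval
  obtain ⟨x, hx⟩ := SN2_query fx hfx c p a b hp hwf hq1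
  obtain ⟨y, hy⟩ := SN2_query fx hfx c (ngP p) a' b' (SN2_wf h1 p).2 (SN2_wf h1 p).1 hq2
  rw [SN2_ng h2 p hwf, SN2_value] at hy
  rw [SN2_value] at hx
  have hP : (0 : ℝ) < 2 ^ (2 ^ c) := by positivity
  have hx' : aeval x (fP p) < 0 := by
    by_contra h
    have := hlow x
    rw [abs_of_nonneg (not_lt.1 h)] at this
    linarith
  have hy' : 0 < aeval y (fP p) := by
    by_contra h
    have := hlow y
    rw [abs_of_nonpos (not_lt.1 h)] at this
    linarith
  obtain ⟨z, hz⟩ := mem_range_of_exists_le_of_exists_ge hcont ⟨x, hx'.le⟩ ⟨y, hy'.le⟩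
  exact hcon' z hz

end Pool.Agent.Work.MP_859ada_lc.FC
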