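import Pool.Agent.Work.MP_859ada_lc.FC.Stmts

/-!
# MP_859ada_lc, block FC, item SQA (helper60)

The first half of the proof of `oneReal_of_npPosSLP` (Main.lean).
-/

set_option autoImplicit false

namespace Pool.Agent.Work.MP_859ada_lc.FC

open Polynomial Pool.Agent.PT Turing Pool.Agent.Work.MP_46935e_lc

theorem SQA_wf (p : List Gate) : WF 0 (negP p) := by
  rw [wf_iff]
  unfold negP
  rw [allAt_append, allAt_append, length_copyB (by omega)]
  simp only [allAt_cons, allAt_nil, Gate.Ok, and_true, List.length_cons, List.length_nil,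
    Nat.zero_add]
  exact ⟨⟨trivial, ⟨by omega, by omega⟩⟩, copyB_ok (by omega) (fun k => ⟨by omega, by omega⟩),
    ⟨by omega, by omega⟩⟩

theorem SQA_neg (g : List Gate) (hg : WF 0 g) :
    0 < value (fun _ => (0 : ℤ)) (negP g) ↔ ¬ PosSLP g := by
  rw [negP_value]
  unfold PosSLP
  constructor
  · rintro h3 ⟨-, h4⟩
    omega
  · intro h3
    by_contra hcon
    exact h3 ⟨hg, by omega⟩

theorem prfSQA : SQA := by
  intro L h
  obtain ⟨p, R, Y, Z, hR, hY, hZ, hL⟩ := h
  have hR' := ptf_of_R hR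
  have hY' := ptf_of_E hY
  have hZ' := ptf_of_E hZ
  have hneg : PTF (fun p : List Gate => negP p) := by
    unfold negP
    fun_prop
  have h1 : PTF (fun q : List Bool × List Bool => R q && (Y q).all (fun g => wfb 0 g)) :=
    hR'.and (PTF.all' (f := fun _ g => wfb 0 g) (by fun_prop) hY')
  have h2 : PTF (fun q : List Bool × List Bool =>
      (Y q).filter (fun g => wfb 0 g) ++
        ((Z q).filter (fun g => wfb 0 g)).map (fun g => negP g)) :=
    (PTF.filter' (f := fun _ g => wfb 0 g) (by fun_prop) hY').append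
      (PTF.map' (f := fun _ g => negP g) (hneg.comp PTF.snd)
        (PTF.filter' (f := fun _ g => wfb 0 g) (by fun_prop) hZ'))
  refine ⟨p, _, _, h1, h2, ?_, fun x => ?_⟩
  · intro s g hg
    simp only [List.mem_append, List.mem_filter, List.mem_map, wfb_iff] at hg
    rcases hg with hg | ⟨g', _, rfl⟩
    · exact hg.2
    · exact SQA_wf g'
  rw [hL]
  refine exists_congr fun w => and_congr_right fun _ => ?_
  simp only [Bool.and_eq_true, List.all_eq_true, wfb_iff, List.mem_append, List.mem_map,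
    List.mem_filter]
  rw [and_assoc]
  refine and_congr_right fun _ => ?_
  constructor
  · rintro ⟨h3, h4⟩
    refine ⟨fun g hg => (h3 g hg).1, ?_⟩
    rintro q (hq | ⟨g, ⟨hg, hg2⟩, rfl⟩)
    · exact (h3 q hq.1).2
    · exact (SQA_neg g hg2).2 (h4 g hg)
  · rintro ⟨h3, h4⟩
    refine ⟨fun g hg => ⟨h3 g hg, h4 g (Or.inl ⟨hg, h3 g hg⟩)⟩, fun g hg h5 => ?_⟩
    exact (SQA_neg g h5.1).1 (h4 _ (Or.inr ⟨g, ⟨hg, h5.1⟩, rfl⟩)) h5

end Pool.Agent.Work.MP_859ada_lc.FC
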