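import Pool.Agent.Work.MP_859ada_lc.FC.Stmts
import Pool.Agent.Work.MP_859ada_lc.FS.ELN

/-!
# Block FC, item SQB: one query
-/

set_option autoImplicit false

namespace Pool.Agent.Work.MP_859ada_lc.FC

open Polynomial Pool.Agent.PT Finset Pool.Agent.Work.MP_46935e_lc

/-! ### The list of the guessed programs -/

/-- `h` if this is well formed without variables, otherwise the empty program -/
def SQB_pick (h : List Gate) : List Gate := if wfb 0 h = true then h else []

theorem SQB_nil_wf : WF 0 [] := fun k h => absurd h (Nat.not_lt_zero k)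

theorem SQB_pick_wf (h : List Gate) : WF 0 (SQB_pick h) := by
  unfold SQB_pick
  split_ifs with h1
  · exact (wfb_iff 0 h).1 h1
  · exact SQB_nil_wf

theorem SQB_pick_eq {h : List Gate} (hw : WF 0 h) : SQB_pick h = h := by
  unfold SQB_pick
  rw [if_pos ((wfb_iff 0 h).2 hw)]

/-- the `k` guessed programs -/
def SQB_hs (k : ℕ) (l : List (List Gate)) : List (List Gate) :=
  (List.range k).map (fun j => SQB_pick (l.getD j []))

theorem SQB_hs_getD {k j : ℕ} (l : List (List Gate)) (hj : j < k) :
    (SQB_hs k l).getD j [] = SQB_pick (l.getD j []) := by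
  unfold SQB_hs
  rw [List.getD_eq_getElem _ _ (by simpa using hj)]
  simp

theorem SQB_hs_wf (k : ℕ) (l : List (List Gate)) : ∀ q ∈ SQB_hs k l, WF 0 q := by
  intro q hq
  unfold SQB_hs at hq
  rw [List.mem_map] at hq
  obtain ⟨j, -, rfl⟩ := hq
  exact SQB_pick_wf _

theorem SQB_ptf_pick : PTF (fun h : List Gate => SQB_pick h) := by
  unfold SQB_pick
  exact PTF.ite (by fun_prop) PTF.id (PTF.const _)

theorem SQB_ptf_hs {α : Type} [Enc α] {k : α → ℕ} {l : α → List (List Gate)} (hk : PTF k)
    (hl : PTF l) : PTF (fun a => SQB_hs (k a) (l a)) := by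
  unfold SQB_hs
  exact PTF.map' (f := fun a j => SQB_pick ((l a).getD j []))
    (SQB_ptf_pick.comp (by fun_prop)) (by fun_prop)

/-! ### The length of the code -/

theorem SQB_flat (s : List ℕ) (f : ℕ → List ℕ) (C : ℕ)
    (h : ∀ j ∈ s, (encNums (f j)).length ≤ C) :
    (encNums (s.flatMap f)).length ≤ s.length * C := by
  induction s with
  | nil => simp [encNums]
  | cons j s ih =>
    rw [List.flatMap_cons, FS.ELN_app, List.length_cons]
    have h1 := ih fun i hi => h i (List.mem_cons_of_mem _ hi)
    have h2 := h j List.mem_cons_self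
    nlinarith

theorem SQB_code (B : ℕ) (l : List (List Gate)) (hl : l.length ≤ B)
    (h : ∀ q ∈ l, WF 0 q ∧ q.length ≤ 2 * B + 10) : (encSys l).length ≤ 22 * (B + 4) ^ 3 := by
  have e : encSys l = encNums ([l.length] ++ (List.range l.length).flatMap (fun j =>
      (l.getD j []).flatMap (fun g => [j, g.code.1, g.code.2.1, g.code.2.2]))) := rfl
  rw [e, FS.ELN_app, FS.ELN_len [l.length]]
  have h1 : (encNums ((List.range l.length).flatMap (fun j =>
      (l.getD j []).flatMap (fun g => [j, g.code.1, g.code.2.1, g.code.2.2])))).length ≤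
      (List.range l.length).length * ((2 * B + 10) * (5 * B + 28)) := by
    refine SQB_flat _ _ _ fun j hj => ?_
    rw [List.mem_range] at hj
    have h2 : l.getD j [] ∈ l := by
      rw [List.getD_eq_getElem _ _ hj]
      exact List.getElem_mem hj
    obtain ⟨h3, h4⟩ := h _ h2
    refine (FS.ELN_gates j (4 + 2 * (2 * B + 10)) _ (FS.ELN_wf _ _ h3 h4)).trans ?_
    exact Nat.mul_le_mul h4 (by omega)
  rw [List.length_range] at h1
  simp only [List.sum_cons, List.sum_nil, List.length_cons, List.length_nil]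
  have h5 : l.length * ((2 * B + 10) * (5 * B + 28)) ≤ B * ((2 * B + 10) * (5 * B + 28)) :=
    Nat.mul_le_mul_right _ hl
  have h6 : B + 1 + B * ((2 * B + 10) * (5 * B + 28)) ≤ 22 * (B + 4) ^ 3 := by nlinarith
  omega

/-! ### The value -/

theorem SQB_cmb {k s : ℕ} {D D' n n' : ℕ → ℤ} (h1 : ∀ i < k, D i = D' i)
    (h2 : ∀ i < k, n i = n' i) : cmb k s D n = cmb k s D' n' := by
  unfold cmb
  congr 1
  · exact Finset.prod_congr rfl fun i hi => by rw [h1 i (Finset.mem_range.mp hi)]
  · refine Finset.sum_congr rfl fun j hj => ?_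
    rw [h1 j (Finset.mem_range.mp hj), h2 j (Finset.mem_range.mp hj)]
    congr 1
    refine Finset.prod_congr rfl fun i hi => ?_
    rw [h1 i (Finset.mem_range.mp (Finset.mem_of_mem_erase hi))]

theorem SQB_value {cb : ℕ → ℕ → List Gate} (hcb : ∀ k s : ℕ, WF (2 * k) (cb k s) ∧
      ∀ x : ℕ → ℤ, value x (cb k s) = cmb k s x (fun j => x (k + j)))
    (h5 : SBV) (gs l : List (List Gate)) (hgs : ∀ q ∈ gs, WF 0 q) :
    value (fun _ => (0 : ℤ)) (substP 0 (gs ++ SQB_hs gs.length l)
      (cb gs.length (gs.length + 1))) =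
    cmb gs.length (gs.length + 1) (fun i => value (fun _ => (0 : ℤ)) (gs.getD i []))
      (fun j => value (fun _ => (0 : ℤ)) (SQB_pick (l.getD j []))) := by
  rw [h5 ℤ 0 _ _ _ (fun q hq => by
    rcases List.mem_append.mp hq with h | h
    · exact hgs q h
    · exact SQB_hs_wf _ _ q h), (hcb _ _).2]
  refine SQB_cmb (fun i hi => ?_) (fun i hi => ?_)
  · rw [List.getD_append _ _ _ _ hi]
  · rw [List.getD_append_right _ _ _ _ (by omega), Nat.add_sub_cancel_left, SQB_hs_getD l hi]

theorem SQB_size (g : List Gate) (n : ℕ) (hn : g.length ≤ n) :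
    value (fun _ => (0 : ℤ)) g ≤ 2 ^ 2 ^ n := by
  have h1 := norm_value_le (𝕜 := ℝ) (M := 2) le_rfl (x := fun _ => (0 : ℝ))
    (fun i => by simp) hn
  rw [value_int_real, Real.norm_eq_abs] at h1
  have h2 := (le_abs_self _).trans h1
  exact_mod_cast h2

/-! ### The item -/

theorem prfSQB (h1 : CIN) (h2 : CPR) (h3 : PWN) (h4 : SBW) (h5 : SBV) (h6 : SBT) : SQB := by
  intro L p R G hR hG hwf hL
  obtain ⟨cb, hcb, hcbv⟩ := h2
  obtain ⟨k, hk⟩ := hG.size
  have hP : PTF (fun x : List Bool => p.eval x.length) := ptf_eval p PTF.id.length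
  have hPB : PB (fun x : List Bool => p.eval x.length) :=
    hP.size.mono (fun a => by rw [sz_nat]; omega)
  have hB1 : PB (fun a : List Bool => (sz a + (4 * p.eval a.length + 1) + 1 + 2) ^ k) :=
    (((PB.sz.add (((PB.const 4).mul hPB).add (PB.const 1))).add (PB.const 1)).add
      (PB.const 2)).pow k
  obtain ⟨B, hB, hB'⟩ := hB1.exists_ptf
  have hbound : ∀ x w : List Bool, w.length ≤ p.eval x.length → sz (G (x, w)) ≤ B x := by
    intro x w hw
    refine (hk (x, w)).trans (le_trans (Nat.pow_le_pow_left ?_ _) (hB' x))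
    rw [sz_pair]
    have := sz_bits_le w
    omega
  have hcard : ∀ x w : List Bool, w.length ≤ p.eval x.length → (G (x, w)).length ≤ B x :=
    fun x w hw => (length_le_sz _).trans (hbound x w hw)
  have hlen : ∀ x w : List Bool, w.length ≤ p.eval x.length → ∀ g ∈ G (x, w), g.length ≤ B x :=
    fun x w hw g hg => ((length_le_sz g).trans (sz_le_of_mem hg)).trans (hbound x w hw)
  -- the functions
  obtain ⟨W, hW⟩ : ∃ W : List Bool × List Bool → List Bool × List Bool,
    W = fun s => (s.1, strip (s.2.take (p.eval s.1.length + 1))) := ⟨_, rfl⟩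
  obtain ⟨l, hl⟩ : ∃ l : List Bool × List Bool → List (List Gate),
    l = fun s => decSys (strip (s.2.drop (p.eval s.1.length + 1))) := ⟨_, rfl⟩
  have hP1 : PTF (fun s : List Bool × List Bool => p.eval s.1.length) :=
    ptf_eval p PTF.fst.length
  have hWp : PTF W := by rw [hW]; fun_prop
  have hlp : PTF l := by rw [hl]; fun_prop
  have hGW : PTF (fun s => G (W s)) := hG.comp hWp
  have hQp : PTF (fun s : List Bool × List Bool => substP 0 (G (W s) ++
      SQB_hs (G (W s)).length (l s)) (cb (G (W s)).length ((G (W s)).length + 1))) := by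
    have e1 : PTF (fun s : List Bool × List Bool => SQB_hs (G (W s)).length (l s)) :=
      SQB_ptf_hs hGW.length hlp
    have e2 : PTF (fun s : List Bool × List Bool =>
        cb (G (W s)).length ((G (W s)).length + 1)) :=
      hcb.comp (g := fun s => ((G (W s)).length, (G (W s)).length + 1))
        (hGW.length.pair (hGW.length.add (PTF.const 1)))
    exact h6.comp (g := fun s => ((0, G (W s) ++ SQB_hs (G (W s)).length (l s)),
      cb (G (W s)).length ((G (W s)).length + 1)))
      (((PTF.const 0).pair (hGW.append e1)).pair e2)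
  have hmp : PTF (fun x : List Bool => (p.eval x.length + 1) + (22 * (B x + 4) ^ 3 + 1)) := by
    have e1 : PTF (fun x : List Bool => (B x + 4) ^ 3) := ptf_pow (hB.add (PTF.const 4)) 3
    fun_prop
  refine ⟨fun x => (p.eval x.length + 1) + (22 * (B x + 4) ^ 3 + 1), fun s => R (W s), _, hmp,
    hR.comp hWp, hQp, fun s => (h4 0 _ _).1, fun x => ?_⟩
  rw [hL]
  constructor
  · rintro ⟨w, hw, hRw, hpos⟩
    have hq : ∀ g ∈ G (x, w), ∃ q : List Gate, WF 0 q ∧ q.length ≤ 2 * B x + 10 ∧
        2 * value (fun _ => (0 : ℤ)) g ≤ 5 * (value (fun _ => (0 : ℤ)) q) ^ 2 ∧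
        5 * (value (fun _ => (0 : ℤ)) q) ^ 2 ≤ 8 * value (fun _ => (0 : ℤ)) g := by
      intro g hg
      obtain ⟨q, -, q1, q2, q3, q4⟩ := h3 (value (fun _ => (0 : ℤ)) g) (B x) (hpos g hg)
        (SQB_size g _ (hlen x w hw g hg))
      exact ⟨q, q1, q2, q3, q4⟩
    choose! qf hqf using hq
    have hcode := SQB_code (B x) ((G (x, w)).map qf) (by rw [List.length_map]; exact hcard x w hw)
      (fun q hq => by
        rw [List.mem_map] at hq
        obtain ⟨g, hg, rfl⟩ := hq
        exact ⟨(hqf g hg).1, (hqf g hg).2.1⟩)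
    have hlen1 : (w ++ true :: List.replicate (p.eval x.length - w.length) false).length =
        p.eval x.length + 1 := by
      rw [List.length_append, List.length_cons, List.length_replicate]
      omega
    obtain ⟨c, hc⟩ : ∃ c, c = encSys ((G (x, w)).map qf) := ⟨_, rfl⟩
    rw [← hc] at hcode
    obtain ⟨u, hu⟩ : ∃ u, u = (w ++ true :: List.replicate (p.eval x.length - w.length) false) ++
      (c ++ true :: List.replicate (22 * (B x + 4) ^ 3 - c.length) false) := ⟨_, rfl⟩
    have htake : u.take (p.eval x.length + 1) =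
        w ++ true :: List.replicate (p.eval x.length - w.length) false := by
      rw [hu, ← hlen1, List.take_left]
    have hdrop : u.drop (p.eval x.length + 1) =
        c ++ true :: List.replicate (22 * (B x + 4) ^ 3 - c.length) false := by
      rw [hu, ← hlen1, List.drop_left]
    have hWu : W (x, u) = (x, w) := by
      rw [hW]
      dsimp only
      rw [htake, strip_pad]
    have hlu : l (x, u) = (G (x, w)).map qf := by
      rw [hl]
      dsimp only
      rw [hdrop, strip_pad, hc, decSys_encSys]
    refine ⟨u, ?_, ?_, ?_⟩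
    · dsimp only
      rw [hu, List.length_append, hlen1, List.length_append, List.length_cons,
        List.length_replicate]
      omega
    · dsimp only
      rw [hWu]
      exact hRw
    · rw [hWu, hlu, SQB_value hcbv h5 _ _ (hwf (x, w))]
      refine (h1 _ _ _ _ (by omega)).2 (by omega) fun j hj => ?_
      have hmem : (G (x, w)).getD j [] ∈ G (x, w) := by
        rw [List.getD_eq_getElem _ _ hj]
        exact List.getElem_mem hj
      have hg : ((G (x, w)).map qf).getD j [] = qf ((G (x, w)).getD j []) := by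
        rw [List.getD_eq_getElem _ _ (by rw [List.length_map]; exact hj), List.getElem_map,
          List.getD_eq_getElem _ _ hj]
      rw [hg, SQB_pick_eq (hqf _ hmem).1]
      exact ⟨hpos _ hmem, (hqf _ hmem).2.2⟩
  · rintro ⟨u, hu, hRu, hpos⟩
    have hW1 : W (x, u) = (x, (W (x, u)).2) := by rw [hW]
    have hWl : (W (x, u)).2.length ≤ p.eval x.length := by
      rw [hW]
      dsimp only
      have e1 := length_strip (u.take (p.eval x.length + 1))
      have e2 : (u.take (p.eval x.length + 1)).length ≤ p.eval x.length + 1 :=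
        List.length_take_le _ _
      omega
    refine ⟨(W (x, u)).2, hWl, by rw [← hW1]; exact hRu, ?_⟩
    rw [← hW1]
    rw [SQB_value hcbv h5 _ _ (hwf _)] at hpos
    have h7 := (h1 _ _ _ _ (by omega)).1 hpos
    intro g hg
    obtain ⟨j, hj, rfl⟩ := List.getElem_of_mem hg
    have h8 := h7 j hj
    rwa [List.getD_eq_getElem _ _ hj] at h8

end Pool.Agent.Work.MP_859ada_lc.FC
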