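import Pool.Agent.Work.MP_859ada_lc.FC.Stmts
import Pool.Agent.Work.MP_859ada_lc.FS.Main0
import Pool.Agent.Work.MP_859ada_lc.FS.CLS

/-!
# Block FC, item UPP: the upper bound
-/

set_option autoImplicit false

namespace Pool.Agent.Work.MP_859ada_lc.FC

open Polynomial Pool.Agent.PT Finset

/-- the machine -/
def UPP_R (g : List Bool → List Bool) (s : List Bool × List Bool) : Bool :=
  FS.certR (g s.1, s.2)

/-- the two queries -/
def UPP_Y (fx : (ℕ × List Gate) × (List Gate × List Gate) → List Gate)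
    (g : List Bool → List Bool) (s : List Bool × List Bool) : List (List Gate) :=
  [fx ((3 * (decProg (g s.1)).length + 4, decProg (g s.1)),
      ((decSys s.2).getD 0 [], (decSys s.2).getD 1 [])),
    fx ((3 * (decProg (g s.1)).length + 4, ngP (decProg (g s.1))),
      ((decSys s.2).getD 2 [], (decSys s.2).getD 3 []))]

theorem UPP_ptf_ngP (h : SBT) : PTF ngP := by
  have h2 : PTF (fun p : List Gate =>
      ((1, [p]), ([.one, .sub 0 0, .var 0, .sub 1 2] : List Gate))) := by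
    fun_prop
  exact h.comp h2

theorem UPP_ptf_R {g : List Bool → List Bool} (hg : PTF g) : PTF (UPP_R g) := by
  have h : PTF (fun s : List Bool × List Bool => (g s.1, s.2)) := by fun_prop
  exact FS.CLS_certR.comp h

theorem UPP_ptf_Y {fx : (ℕ × List Gate) × (List Gate × List Gate) → List Gate} (hfx : PTF fx)
    (h : SBT) {g : List Bool → List Bool} (hg : PTF g) : PTF (UPP_Y fx g) := by
  have hn : PTF ngP := UPP_ptf_ngP h
  have h1 : PTF (fun s : List Bool × List Bool => ((3 * (decProg (g s.1)).length + 4,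
      decProg (g s.1)), ((decSys s.2).getD 0 [], (decSys s.2).getD 1 []))) := by
    fun_prop
  have h2 : PTF (fun s : List Bool × List Bool => ((3 * (decProg (g s.1)).length + 4,
      ngP (decProg (g s.1))), ((decSys s.2).getD 2 [], (decSys s.2).getD 3 []))) := by
    fun_prop
  exact PTF.cons (hfx.comp h1) (PTF.cons (hfx.comp h2) (PTF.const []))

theorem UPP_ng (h5 : SBW) (h6 : SBV) (p : List Gate) (hwf : WF 1 p) :
    ngP p ≠ [] ∧ WF 1 (ngP p) ∧ (ngP p).length = p.length + 10 ∧ fP (ngP p) = - fP p := by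
  have h := h5 1 [p] [.one, .sub 0 0, .var 0, .sub 1 2]
  have hlen : (ngP p).length = p.length + 10 := by
    have h2 := h.2
    unfold ngP
    rw [h2]
    simp [nOf]
    try omega
  refine ⟨?_, h.1, hlen, ?_⟩
  · intro h0
    rw [h0] at hlen
    simp at hlen
  · have h3 := h6 ℤ[X] 1 [p] [.one, .sub 0 0, .var 0, .sub 1 2] (fun _ => X) (by
      intro q hq
      rw [List.mem_singleton.1 hq]
      exact hwf)
    unfold fP ngP
    rw [h3]
    simp [value, vals, Gate.val]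

theorem UPP_mark {k k' : ℕ} {x : ℝ} (h : Mark k x) (hk : k ≤ k') : Mark k' x := by
  obtain ⟨p, h1, h2, h3, h4, h5⟩ := h
  exact ⟨p, h1, h2, h3.trans hk, h4, FS.fewScales_mono h5 hk⟩

theorem UPP_tame (h8 : FS.SPR) (h9 : FS.NRM) {K K' : ℕ} {p : List Gate} (h : Tame K p)
    (hK : p.length + 3 * K + 10 ≤ K') : ∃ x y : ℝ, Mark K' x ∧ Mark K' y ∧
      aeval x (fP p) ≤ 0 ∧ 0 ≤ aeval y (fP p) := by
  obtain ⟨hne, hwf, ⟨x, y, hx, hy, h1, h2⟩ | ⟨hq, x, hx⟩⟩ := h
  · exact ⟨x, y, UPP_mark hx (by omega), UPP_mark hy (by omega), h1, h2⟩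
  · obtain ⟨z, hz, hm⟩ : ∃ z : ℝ, aeval z (fP p) = 0 ∧ Mark K' z := by
      by_cases h0 : fP p = 0
      · exact ⟨0, by rw [h0]; simp, p, hne, hwf, by omega, by rw [h0]; simp,
          FS.fewScales_zero _ _⟩
      · refine ⟨x, hx, p, hne, hwf, by omega, hx, ?_⟩
        have h1 := h8 (fP p) p.length K x h0 (h9 p p.length le_rfl).1 hq
        exact FS.fewScales_mono h1 (by omega)
    exact ⟨z, z, hm, hm, hz.le, hz.ge⟩

/-- the bound for the lengths of the four programs -/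
def UPP_T (l e : ℕ) : ℕ :=
  5 * (100 * ((l + 3 * e + 10) + 2) * ((3 * l + 4) + l + 20 + 2 * (l + 3 * e + 10)) *
    ((l + 3 * e + 10) + 2)) + 5

theorem UPP_T_mono {l l' : ℕ} (e : ℕ) (h : l ≤ l') : UPP_T l e ≤ UPP_T l' e := by
  unfold UPP_T
  gcongr

theorem UPP_core (h3 : CM2) (h4 : EL4) (h5 : SBW) (h6 : SBV) (h8 : FS.SPR)
    (h9 : FS.NRM) {fx : (ℕ × List Gate) × (List Gate × List Gate) → List Gate} (hfx : FXS fx)
    {K : ℕ} {p : List Gate} (h : Tame K p) :
    ∃ a b a' b' : List Gate, (encSys [a, b, a', b']).length ≤ 60 * (UPP_T p.length K + 1) ^ 2 ∧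
      PosSLP (fx ((3 * p.length + 4, p), (a, b))) ∧
      PosSLP (fx ((3 * p.length + 4, ngP p), (a', b'))) := by
  obtain ⟨hne, hwf, -⟩ := id h
  obtain ⟨K', hK'⟩ : ∃ K', K' = p.length + 3 * K + 10 := ⟨_, rfl⟩
  obtain ⟨x, y, hx, hy, hpx, hpy⟩ := UPP_tame h8 h9 h (K' := K') (by omega)
  obtain ⟨n1, n2, n3, n4⟩ := UPP_ng h5 h6 p hwf
  obtain ⟨q, hq1, hq2, hq3, hq4, hq5⟩ := hx
  obtain ⟨q', hq1', hq2', hq3', hq4', hq5'⟩ := hy
  obtain ⟨a, b, ha, hb, hal, hbl, hpos⟩ := h3 fx hfx p q (3 * p.length + 4) K' K' x hne hwf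
    hq1 hq2 hq3 hpx hq4 hq5
  obtain ⟨a', b', ha', hb', hal', hbl', hpos'⟩ := h3 fx hfx (ngP p) q' (3 * p.length + 4) K' K' y
    n1 n2 hq1' hq2' hq3' (by rw [n4, map_neg]; linarith) hq4' hq5'
  refine ⟨a, b, a', b', ?_, hpos, hpos'⟩
  have e1 : 5 * (100 * (K' + 2) * (3 * p.length + 4 + p.length + K' + K' + 10) * (K' + 2)) + 5 ≤
      UPP_T p.length K := by
    unfold UPP_T
    rw [← hK']
    gcongr ?_ + 5
    gcongr 5 * ?_
    gcongr 100 * (K' + 2) * ?_ * (K' + 2)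
    omega
  have e2 : 5 * (100 * (K' + 2) * (3 * p.length + 4 + (ngP p).length + K' + K' + 10) *
      (K' + 2)) + 5 ≤ UPP_T p.length K := by
    unfold UPP_T
    rw [← hK', n3]
    gcongr ?_ + 5
    gcongr 5 * ?_
    gcongr 100 * (K' + 2) * ?_ * (K' + 2)
    omega
  exact h4 _ a b a' b' ha hb ha' hb' (hal.trans e1) (hbl.trans e1) (hal'.trans e2) (hbl'.trans e2)

theorem prfUPP (h1 : FPX) (h2 : SN2) (h3 : CM2) (h4 : EL4) (h5 : SBW) (h6 : SBV) (h7 : SBT)
    (h8 : FS.SPR) (h9 : FS.NRM) (h10 : FS.ELN) : UPP := by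
  intro L g q hg hL
  obtain ⟨fx, hfx, hfs⟩ := h1
  have hE : PTF (fun w : List Bool => q.eval w.length) := MP_46935e_lc.ptf_eval q PTF.id.length
  obtain ⟨E, hEd⟩ : ∃ E : List Bool → ℕ, E = fun w : List Bool => q.eval w.length := ⟨_, rfl⟩
  rw [← hEd] at hE
  have hB : PTF (fun w => 60 * ((UPP_T (g w).length (E w) + 1) * (UPP_T (g w).length (E w) + 1))) := by
    unfold UPP_T
    fun_prop
  obtain ⟨B, hB'⟩ := MP_46935e_lc.exists_poly_of_ptf hB
  refine ⟨B, UPP_R g, UPP_Y fx g, fun _ => [], R_of_ptf (UPP_ptf_R hg),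
    E_of_ptf (UPP_ptf_Y hfx h7 hg), E_of_ptf (PTF.const _), fun w => ?_⟩
  constructor
  · intro hw
    obtain ⟨p, hp, ht⟩ := (hL w).1 hw
    obtain ⟨a, b, a', b', hlen, hq1, hq2⟩ := UPP_core h3 h4 h5 h6 h8 h9 hfs ht
    refine ⟨encSys [a, b, a', b'], ?_, ?_, ?_, fun _ h => absurd h List.not_mem_nil⟩
    · refine hlen.trans (le_trans ?_ (hB' w))
      have hp' : p.length ≤ (g w).length := by
        rw [hp]
        exact h10.2 p
      have hT := UPP_T_mono (q.eval w.length) hp'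
      rw [hEd, ← sq]
      dsimp only
      gcongr
    · unfold UPP_R FS.certR
      simp only [hp, decProg_encProg, Bool.and_eq_true, decide_eq_true_eq, wfb_iff]
      exact ⟨⟨trivial, ht.1⟩, ht.2.1⟩
    · intro r hr
      unfold UPP_Y at hr
      simp only [hp, decProg_encProg, decSys_encSys, List.mem_cons, List.not_mem_nil,
        or_false] at hr
      rcases hr with rfl | rfl
      · exact hq1
      · exact hq2
  · rintro ⟨s, -, hR, hY, -⟩
    unfold UPP_R FS.certR at hR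
    simp only [Bool.and_eq_true, decide_eq_true_eq] at hR
    obtain ⟨⟨hs1, hne⟩, hwf⟩ := hR
    have hwf' : WF 1 (decProg (g w)) := (wfb_iff 1 _).1 hwf
    have hq1 := hY _ (List.mem_cons_self)
    have hq2 := hY _ (List.mem_cons_of_mem _ List.mem_cons_self)
    have hroot := h2 fx hfs _ _ _ _ _ _ hne hwf' le_rfl hq1 hq2
    exact (hL w).2 ⟨decProg (g w), hs1.symm, hroot⟩

end Pool.Agent.Work.MP_859ada_lc.FC
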