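import Pool.Agent.Work.MP_859ada_lc.FS.Asm
import Pool.Agent.Work.MP_859ada_lc.FC.SBW
import Pool.Agent.Work.MP_859ada_lc.FC.SBV
import Pool.Agent.Work.MP_859ada_lc.FC.SBT
import Pool.Agent.Work.MP_859ada_lc.FC.FPX
import Pool.Agent.Work.MP_859ada_lc.FC.SN2
import Pool.Agent.Work.MP_859ada_lc.FC.CM2
import Pool.Agent.Work.MP_859ada_lc.FC.EL4
import Pool.Agent.Work.MP_859ada_lc.FC.UPP
import Pool.Agent.Work.MP_859ada_lc.FC.SQA
import Pool.Agent.Work.MP_859ada_lc.FC.CIN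
import Pool.Agent.Work.MP_859ada_lc.FC.CPR
import Pool.Agent.Work.MP_859ada_lc.FC.PWN
import Pool.Agent.Work.MP_859ada_lc.FC.SQB
import Pool.Agent.Work.MP_859ada_lc.FC.LIN
import Pool.Agent.Work.MP_859ada_lc.FC.BNA
import Pool.Agent.Work.MP_859ada_lc.FC.BNB
import Pool.Agent.Work.MP_859ada_lc.FC.BTV
import Pool.Agent.Work.MP_859ada_lc.FC.FNV
import Pool.Agent.Work.MP_859ada_lc.FC.RBV
import Pool.Agent.Work.MP_859ada_lc.FC.ROA
import Pool.Agent.Work.MP_859ada_lc.FC.ROB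
import Pool.Agent.Work.MP_859ada_lc.FC.AMP
import Pool.Agent.Work.MP_859ada_lc.FC.PAT
import Pool.Agent.Work.MP_859ada_lc.FC.RBX
import Pool.Agent.Work.MP_859ada_lc.FC.MKD
import Pool.Agent.Work.MP_859ada_lc.FC.HRD

/-!
# Block FC: assembly
-/

set_option autoImplicit false

namespace Pool.Agent.Work.MP_859ada_lc.FC

open Polynomial

theorem aSBV : SBV := prfSBV prfSBW
theorem aSN2 : SN2 := prfSN2 prfSBW aSBV FS.prfNRM
theorem aCM2 : CM2 := prfCM2 FS.aDSC FS.aRTB FS.prfCHP FS.prfZER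
theorem aUPP : UPP := prfUPP prfFPX aSN2 aCM2 prfEL4 prfSBW aSBV prfSBT FS.aSPR FS.prfNRM FS.prfELN
theorem aSQB : SQB := prfSQB prfCIN prfCPR prfPWN prfSBW aSBV prfSBT
theorem aBNA : BNA := prfBNA aSBV prfLIN
theorem aBNB : BNB := prfBNB aBNA prfLIN prfSBW prfSBT
theorem aRBV : RBV := prfRBV prfSBW aSBV prfSBT prfBTV prfFNV
theorem aRBX : RBX := prfRBX aRBV prfROA prfROB prfAMP prfPAT
theorem aHRD : HRD := prfHRD prfSQA aSQB aBNB aRBV aRBX prfMKD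

theorem tame_root {k : ℕ} {p : List Gate} (h : Tame k p) : ROOT p := by
  obtain ⟨h1, h2, h3⟩ := h
  refine ⟨h1, h2, ?_⟩
  change ∃ z : ℝ, aeval z (fP p) = 0
  rcases h3 with ⟨x, y, -, -, hx, hy⟩ | ⟨-, x, hx⟩
  · have hc : Continuous (fun z : ℝ => aeval z (fP p)) := Polynomial.continuous_aeval _
    exact mem_range_of_exists_le_of_exists_ge hc ⟨x, hx⟩ ⟨y, hy⟩
  · exact ⟨x, hx⟩

theorem complete_main (L : List Bool → Prop) : NPPosSLP L ↔
    ∃ (g : List Bool → List Bool) (q : Polynomial ℕ),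
      Nonempty (Turing.TM2ComputableInPolyTime (fun s : List Bool => s) (fun s : List Bool => s) g) ∧
      ∀ w, (L w ↔ ROOTL (g w)) ∧
        (L w → ∃ p, g w = encProg p ∧ Tame (q.eval w.length) p) := by
  constructor
  · intro h
    obtain ⟨g, q, hg, h1⟩ := aHRD L h
    refine ⟨g, q, hg, fun w => ⟨⟨fun hw => ?_, (h1 w).2⟩, (h1 w).1⟩⟩
    obtain ⟨p, hp, ht⟩ := (h1 w).1 hw
    exact ⟨p, hp, tame_root ht⟩
  · rintro ⟨g, q, hg, h⟩
    exact aUPP L g q (ptf_of_f hg) fun w => ⟨(h w).2, (h w).1.2⟩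

end Pool.Agent.Work.MP_859ada_lc.FC
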