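import Pool.Agent.Work.MP_859ada_lc.FC.Stmts

/-!
# Block FC, item CIN: the conjunction of positivity conditions
-/

set_option autoImplicit false

namespace Pool.Agent.Work.MP_859ada_lc.FC

open Polynomial Pool.Agent.PT Finset

/-- `2^s` is even -/
theorem CIN_even (s : ℕ) (hs : 1 ≤ s) : Even (2 ^ s) :=
  (even_two).pow_of_ne_zero (by omega)

/-- the numerical inequality -/
theorem CIN_num (k s : ℕ) (hs : 1 ≤ s) (hk : k < s) : (k : ℤ) * 3 ^ (2 ^ s) < 5 ^ (2 ^ s) := by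
  obtain ⟨t, rfl⟩ : ∃ t, s = t + 1 := ⟨s - 1, by omega⟩
  have h1 : t + 1 ≤ 2 ^ t := Nat.lt_two_pow_self
  have h2 : (k : ℤ) < 2 ^ (2 ^ t) := by
    have h3 : k < 2 ^ (2 ^ t) := lt_of_lt_of_le (lt_of_lt_of_le hk h1) Nat.lt_two_pow_self.le
    exact_mod_cast h3
  have e3 : (3 : ℤ) ^ (2 ^ (t + 1)) = 9 ^ (2 ^ t) := by
    rw [pow_succ, mul_comm (2 ^ t) 2, pow_mul]
    norm_num
  have e5 : (5 : ℤ) ^ (2 ^ (t + 1)) = 25 ^ (2 ^ t) := by
    rw [pow_succ, mul_comm (2 ^ t) 2, pow_mul]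
    norm_num
  rw [e3, e5]
  calc (k : ℤ) * 9 ^ (2 ^ t) < 2 ^ (2 ^ t) * 9 ^ (2 ^ t) := by
        exact mul_lt_mul_of_pos_right h2 (by positivity)
    _ = 18 ^ (2 ^ t) := by rw [← mul_pow]; norm_num
    _ ≤ 25 ^ (2 ^ t) := pow_le_pow_left₀ (by norm_num) (by norm_num) _

theorem prfCIN : CIN := by
  intro k s D n hs
  have hev := CIN_even s hs
  have hne : 2 ^ s ≠ 0 := by positivity
  have ha : ∀ i, 0 ≤ D i ^ (2 ^ s) := fun i => hev.pow_nonneg _
  have he : ∀ j, 0 ≤ (D j - n j ^ 2) ^ (2 ^ s) := fun j => hev.pow_nonneg _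
  constructor
  · intro hpos j hj
    have hj' : j ∈ range k := mem_range.mpr hj
    unfold cmb at hpos
    have hterm : (D j - n j ^ 2) ^ (2 ^ s) * ∏ i ∈ (range k).erase j, D i ^ (2 ^ s) ≤
        ∑ j ∈ range k, (D j - n j ^ 2) ^ (2 ^ s) * ∏ i ∈ (range k).erase j, D i ^ (2 ^ s) :=
      Finset.single_le_sum
        (f := fun j => (D j - n j ^ 2) ^ (2 ^ s) * ∏ i ∈ (range k).erase j, D i ^ (2 ^ s))
        (fun j _ => mul_nonneg (he j) (Finset.prod_nonneg fun i _ => ha i)) hj'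
    have hprod : D j ^ (2 ^ s) * ∏ i ∈ (range k).erase j, D i ^ (2 ^ s) =
        ∏ i ∈ range k, D i ^ (2 ^ s) :=
      Finset.mul_prod_erase (range k) (fun i => D i ^ (2 ^ s)) hj'
    have hR : 0 ≤ ∏ i ∈ (range k).erase j, D i ^ (2 ^ s) := Finset.prod_nonneg fun i _ => ha i
    have hlt : (D j - n j ^ 2) ^ (2 ^ s) < D j ^ (2 ^ s) := by
      by_contra hc
      push Not at hc
      have := mul_le_mul_of_nonneg_right hc hR
      rw [hprod] at this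
      linarith
    by_contra hD
    push Not at hD
    have h1 : |D j| ≤ |D j - n j ^ 2| := by
      have h2 : 0 ≤ n j ^ 2 := sq_nonneg _
      rw [abs_of_nonpos hD, abs_of_nonpos (by linarith)]
      linarith
    have h3 : |D j| ^ (2 ^ s) ≤ |D j - n j ^ 2| ^ (2 ^ s) := pow_le_pow_left₀ (abs_nonneg _) h1 _
    rw [hev.pow_abs, hev.pow_abs] at h3
    exact absurd hlt (not_lt.mpr h3)
  · intro hk hD
    have hP : 0 < ∏ i ∈ range k, D i ^ (2 ^ s) :=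
      Finset.prod_pos fun i hi => pow_pos (hD i (mem_range.mp hi)).1 _
    have hj : ∀ j ∈ range k, 5 ^ (2 ^ s) * ((D j - n j ^ 2) ^ (2 ^ s) *
        ∏ i ∈ (range k).erase j, D i ^ (2 ^ s)) ≤ 3 ^ (2 ^ s) * ∏ i ∈ range k, D i ^ (2 ^ s) := by
      intro j hj'
      obtain ⟨h1, h2, h3⟩ := hD j (mem_range.mp hj')
      have h4 : |5 * (D j - n j ^ 2)| ≤ |3 * D j| := by
        rw [abs_of_pos (show 0 < 3 * D j by linarith), abs_le]
        constructor <;> linarith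
      have h5 : |5 * (D j - n j ^ 2)| ^ (2 ^ s) ≤ |3 * D j| ^ (2 ^ s) :=
        pow_le_pow_left₀ (abs_nonneg _) h4 _
      rw [hev.pow_abs, hev.pow_abs, mul_pow, mul_pow] at h5
      have hR : 0 ≤ ∏ i ∈ (range k).erase j, D i ^ (2 ^ s) := Finset.prod_nonneg fun i _ => ha i
      calc 5 ^ (2 ^ s) * ((D j - n j ^ 2) ^ (2 ^ s) * ∏ i ∈ (range k).erase j, D i ^ (2 ^ s))
          = (5 ^ (2 ^ s) * (D j - n j ^ 2) ^ (2 ^ s)) *
            ∏ i ∈ (range k).erase j, D i ^ (2 ^ s) := by ring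
        _ ≤ (3 ^ (2 ^ s) * D j ^ (2 ^ s)) * ∏ i ∈ (range k).erase j, D i ^ (2 ^ s) :=
            mul_le_mul_of_nonneg_right h5 hR
        _ = 3 ^ (2 ^ s) * (D j ^ (2 ^ s) * ∏ i ∈ (range k).erase j, D i ^ (2 ^ s)) := by ring
        _ = 3 ^ (2 ^ s) * ∏ i ∈ range k, D i ^ (2 ^ s) := by
            rw [Finset.mul_prod_erase (range k) (fun i => D i ^ (2 ^ s)) hj']
    have hsum : 5 ^ (2 ^ s) * ∑ j ∈ range k, ((D j - n j ^ 2) ^ (2 ^ s) *
        ∏ i ∈ (range k).erase j, D i ^ (2 ^ s)) ≤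
        (k : ℤ) * (3 ^ (2 ^ s) * ∏ i ∈ range k, D i ^ (2 ^ s)) := by
      rw [Finset.mul_sum]
      refine (Finset.sum_le_sum hj).trans ?_
      rw [Finset.sum_const, card_range, nsmul_eq_mul]
    have hnum := CIN_num k s hs hk
    have h6 : (k : ℤ) * (3 ^ (2 ^ s) * ∏ i ∈ range k, D i ^ (2 ^ s)) <
        5 ^ (2 ^ s) * ∏ i ∈ range k, D i ^ (2 ^ s) := by
      rw [← mul_assoc]
      exact mul_lt_mul_of_pos_right hnum hP
    have h7 := lt_of_le_of_lt hsum h6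
    have h8 := lt_of_mul_lt_mul_left h7 (by positivity)
    unfold cmb
    linarith

end Pool.Agent.Work.MP_859ada_lc.FC
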