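import Pool.Agent.Work.MP_859ada_lc.FS.Scales

/-!
# MP_859ada_lc, block FC: programs with a sign change between numbers with few scales
-/

set_option autoImplicit false

namespace Pool.Agent.Work.MP_859ada_lc

open Polynomial

/-- The real number `x` is a root with at most `k` scales of the polynomial of a program with at
most `k` gates. -/
def Mark (k : ℕ) (x : ℝ) : Prop := ∃ h : List Gate, h ≠ [] ∧ WF 1 h ∧ h.length ≤ k ∧
  aeval x (fP h) = 0 ∧ FewScales (fP h) k x

/-- The polynomial `f_p` satisfies `f_p(x) ≤ 0 ≤ f_p(y)` for two marks `x`, `y`, or it has a real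
root and at most `k` nonzero coefficients. -/
def Tame (k : ℕ) (p : List Gate) : Prop := p ≠ [] ∧ WF 1 p ∧
  ((∃ x y : ℝ, Mark k x ∧ Mark k y ∧ aeval x (fP p) ≤ 0 ∧ 0 ≤ aeval y (fP p)) ∨
    ((fP p).support.card ≤ k ∧ ∃ x : ℝ, aeval x (fP p) = 0))

end Pool.Agent.Work.MP_859ada_lc
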