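import Pool.Agent.Work.MP_859ada_lc.FC.Stmts

/-!
# Block FC of MP_859ada_lc, item ROB: points close to bits
-/

set_option autoImplicit false

namespace Pool.Agent.Work.MP_859ada_lc.FC

open Polynomial Pool.Agent.PT Finset

theorem ROB_exp (L n : ℕ) : (n + 1) * 2 ^ (L + 4) + n + 1 ≤ 2 ^ (L + 2 * n + 7) := by
  have h0 : n < 2 ^ n := Nat.lt_two_pow_self
  have h0' : 2 ^ n ≤ 2 ^ (2 * n) := Nat.pow_le_pow_right (by norm_num) (by omega)
  have h1 : n + 1 ≤ 2 ^ (2 * n) := by omega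
  have h2 : 1 ≤ 2 ^ (L + 4) := Nat.one_le_two_pow
  have h3 : 2 ^ (L + 2 * n + 7) = 2 ^ (L + 4) * (2 ^ (2 * n) * 8) := by
    rw [show L + 2 * n + 7 = (L + 4) + (2 * n) + 3 by ring, pow_add, pow_add]
    ring
  rw [h3]
  calc (n + 1) * 2 ^ (L + 4) + n + 1 = (n + 1) * 2 ^ (L + 4) + (n + 1) * 1 := by ring
    _ ≤ (n + 1) * 2 ^ (L + 4) + (n + 1) * 2 ^ (L + 4) := by gcongr
    _ = 2 ^ (L + 4) * ((n + 1) * 2) := by ring
    _ ≤ 2 ^ (L + 4) * (2 ^ (2 * n) * 8) := by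
      gcongr
      norm_num

theorem ROB_exp2 (L n : ℕ) : 2 ^ (L + 1) + 2 ≤ 2 ^ (L + 2 * n + 7) := by
  have h2 : 1 ≤ 2 ^ (L + 1) := Nat.one_le_two_pow
  have h3 : 2 ^ (L + 1) * 2 ^ 6 ≤ 2 ^ (L + 2 * n + 7) := by
    rw [← pow_add]
    exact Nat.pow_le_pow_right (by norm_num) (by omega)
  omega

theorem ROB_half (a e : ℕ) (k : ℕ) (h : a + k ≤ e) :
    (2 : ℝ) ^ a * (1 / 2) ^ e ≤ (1 / 2) ^ k := by
  obtain ⟨c, rfl⟩ := Nat.exists_eq_add_of_le h
  have h1 : (2 : ℝ) ^ a * (1 / 2) ^ (a + k + c) = (1 / 2) ^ k * (1 / 2) ^ c := by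
    rw [pow_add, pow_add, ← mul_assoc, ← mul_assoc, ← mul_pow]
    norm_num
  rw [h1]
  have h2 : ((1 : ℝ) / 2) ^ c ≤ 1 := pow_le_one₀ (by norm_num) (by norm_num)
  have h3 : (0 : ℝ) ≤ (1 / 2) ^ k := by positivity
  nlinarith

theorem ROB_term (a : ℝ) (b : ℤ) (δ : ℝ) (hb : b = 0 ∨ b = 1) (h0 : 0 ≤ a) (h1 : a ≤ 1)
    (h : |a - b| ≤ δ) : (a ^ 2 - a) ^ 2 ≤ δ ^ 2 := by
  have hδ : 0 ≤ δ := (abs_nonneg _).trans h
  have key : a * (1 - a) ≤ δ := by
    rcases hb with hb | hb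
    · subst hb
      have h' : a ≤ δ := by
        have := (abs_le.1 h).2
        push_cast at this
        linarith
      nlinarith
    · subst hb
      have h' : 1 - a ≤ δ := by
        have := (abs_le.1 h).1
        push_cast at this
        linarith
      nlinarith
  have h2 : 0 ≤ a * (1 - a) := mul_nonneg h0 (by linarith)
  have e : (a ^ 2 - a) ^ 2 = (a * (1 - a)) ^ 2 := by ring
  rw [e]
  exact pow_le_pow_left₀ h2 key 2

theorem prfROB : ROB := by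
  intro n p x y hy hx hxy hpos
  set L := p.length with hL
  set δ : ℝ := (1 / 2) ^ (2 ^ (L + 2 * n + 7)) with hδ
  have hδ0 : 0 < δ := by rw [hδ]; positivity
  have hδ1 : δ ≤ 1 := by rw [hδ]; exact pow_le_one₀ (by norm_num) (by norm_num)
  -- the value of the program
  have hyv : value (fun i => ((y i : ℤ) : ℝ)) p = ((value y p : ℤ) : ℝ) := by
    have := value_map (Int.castRingHom ℝ) y p
    simpa using this
  have hy1 : (1 : ℝ) ≤ value (fun i => ((y i : ℤ) : ℝ)) p := by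
    rw [hyv]
    exact_mod_cast hpos
  have hsub : |value x p - value (fun i => ((y i : ℤ) : ℝ)) p| ≤ δ * 2 ^ (2 ^ (L + 1)) := by
    have h := norm_value_sub_le (𝕜 := ℝ) (M := 2) (d := δ) le_rfl hδ0.le
      (x := x) (y := fun i => ((y i : ℤ) : ℝ)) (p := p) (n := L)
      (fun i => by
        rw [Real.norm_eq_abs, abs_of_nonneg (hx i).1]
        linarith [(hx i).2])
      (fun i => by
        rw [Real.norm_eq_abs]
        rcases hy i with h | h <;> rw [h] <;> norm_num)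
      (fun i => by
        rw [Real.norm_eq_abs]
        exact hxy i) le_rfl
    rwa [Real.norm_eq_abs] at h
  have hq : δ * 2 ^ (2 ^ (L + 1)) ≤ 1 / 4 := by
    have h := ROB_half (2 ^ (L + 1)) (2 ^ (L + 2 * n + 7)) 2 (ROB_exp2 L n)
    rw [← hδ] at h
    rw [mul_comm]
    refine h.trans ?_
    norm_num
  have hx34 : 3 / 4 ≤ value x p := by
    have := (abs_le.1 hsub).1
    linarith
  -- the first term
  have hM : (2 : ℝ) + ∑ i ∈ range n, x i ^ 2 ≤ 2 ^ (n + 1) := by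
    have h1 : ∑ i ∈ range n, x i ^ 2 ≤ ∑ i ∈ range n, (1 : ℝ) := by
      refine Finset.sum_le_sum fun i _ => ?_
      exact pow_le_one₀ (hx i).1 (hx i).2
    rw [Finset.sum_const, Finset.card_range, nsmul_eq_mul, mul_one] at h1
    have h2 : n + 2 ≤ 2 ^ (n + 1) := by
      have : n < 2 ^ n := Nat.lt_two_pow_self
      rw [pow_succ]
      omega
    have h3 : (n : ℝ) + 2 ≤ 2 ^ (n + 1) := by exact_mod_cast h2
    linarith
  have hM0 : (0 : ℝ) ≤ 2 + ∑ i ∈ range n, x i ^ 2 := by positivity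
  have hS : ∑ i ∈ range n, (x i ^ 2 - x i) ^ 2 ≤ n * δ ^ 2 := by
    have h1 : ∑ i ∈ range n, (x i ^ 2 - x i) ^ 2 ≤ ∑ i ∈ range n, δ ^ 2 := by
      refine Finset.sum_le_sum fun i _ => ?_
      exact ROB_term (x i) (y i) δ (hy i) (hx i).1 (hx i).2 (hxy i)
    rwa [Finset.sum_const, Finset.card_range, nsmul_eq_mul] at h1
  have hS0 : 0 ≤ ∑ i ∈ range n, (x i ^ 2 - x i) ^ 2 := by positivity
  have hS2 : ∑ i ∈ range n, (x i ^ 2 - x i) ^ 2 ≤ 2 ^ n * δ := by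
    refine hS.trans ?_
    have h1 : (n : ℝ) ≤ 2 ^ n := by
      have : n < 2 ^ n := Nat.lt_two_pow_self
      exact_mod_cast this.le
    have h2 : δ ^ 2 ≤ δ := by nlinarith
    exact mul_le_mul h1 h2 (by positivity) (by positivity)
  have hfirst : (2 + ∑ i ∈ range n, x i ^ 2) ^ (2 ^ (L + 4)) *
      ∑ i ∈ range n, (x i ^ 2 - x i) ^ 2 ≤ 1 / 2 := by
    calc (2 + ∑ i ∈ range n, x i ^ 2) ^ (2 ^ (L + 4)) * ∑ i ∈ range n, (x i ^ 2 - x i) ^ 2
        ≤ (2 ^ (n + 1)) ^ (2 ^ (L + 4)) * (2 ^ n * δ) :=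
          mul_le_mul (pow_le_pow_left₀ hM0 hM _) hS2 hS0 (by positivity)
      _ = 2 ^ ((n + 1) * 2 ^ (L + 4) + n) * (1 / 2) ^ (2 ^ (L + 2 * n + 7)) := by
          rw [← pow_mul, ← mul_assoc, ← pow_add]
      _ ≤ (1 / 2) ^ 1 := ROB_half _ _ 1 (ROB_exp L n)
      _ = 1 / 2 := by norm_num
  linarith

end Pool.Agent.Work.MP_859ada_lc.FC
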