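import Pool.Agent.Work.MP_859ada_lc.FC.Defs
import Pool.Agent.Work.MP_859ada_lc.FS.Stmts

/-!
# Block FC (few scales, completeness): statements

THEOREM FC. A language `L` is in `NP^PosSLP` iff there are a polynomial-time computable `g` and a
polynomial `q` such that for all `w`: if `w ∈ L` then `g(w)` is the code of a program `p` with
`Tame (q(|w|)) p`, and if `g(w)` is in ROOT then `w ∈ L`.

Part A: the upper bound (a small change of block FS). Part B: from `NP^PosSLP` to one positivity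
condition for a program with bits as inputs. Part C: from bits to one real number. The bits are
`β_i(t) = am^[r] (lg^[2i] t)` for the logistic map `lg z = 4z(1-z)` and `am z = z^2 (3-2z)`.

Every item may assume the items it quotes, as hypotheses (`theorem prfSBV (h1 : SBW) : SBV`). Put the
name of your item in the names of all auxiliary lemmas (they are all in the same namespace). Useful:
`Bd/B01.lean` (`value_map`, `value_eq_getD`, `vals_concat`, `models_self`, `wf_iff`, `allAt_append`,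
`allAt_cons`, `allAt_flatMap_range`, `length_flatMap_range`, `value_congr`, `value_induction`,
`norm_value_le`, `norm_value_sub_le`, `copyB_ok`, `copyB_value`, `length_copyB`, `preB_ok`,
`preB_value`, `length_preB`, `length_le_nOf`, `ptf_nOf`), `Bd/B02.lean` (`wfb_iff`, `clP_value`,
`clP_wf`, `uP_value`, `uP_wf`, `padP_value`, `padP_mem`, `length_padP`, `value_wf1`, `np_closure`,
`decProg_encProg`, `decSys_encSys`, `eqv_one` .. `eqv_mul`, `PTF.clP`, `PTF.uP`, `PTF.vlist`),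
`Main.lean` (`R_of_ptf`, `E_of_ptf`, `ptf_of_f`, `value_wf0`, `negP_value`, `oneReal_of_npPosSLP`,
`inNP_of_red`), and the item files of block FS (`FS/FPV.lean`, `FS/CMP.lean`, ...; copy from them, or
import them).
-/

set_option autoImplicit false

namespace Pool.Agent.Work.MP_859ada_lc.FC

open Polynomial Pool.Agent.PT Finset

/-! ## Composition of programs -/

/-- Composition: the program `p`, with the value of the `k`-th program of `σ` for the variable `k`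
(and `0` for the other variables). The programs of `σ` have `n` variables. The value of the `i`-th
one is at the position `1 + (i + 1) * nOf σ`. -/
def substP (n : ℕ) (σ : List (List Gate)) (p : List Gate) : List Gate :=
  [.one, .sub 0 0] ++ ((List.range σ.length).flatMap (fun i =>
      copyB (nOf σ) 1 (2 + i * nOf σ) (fun k => if k < n then .var k else .sub 0 0) (σ.getD i [])) ++
    copyB (p.length + 1) 1 (2 + σ.length * nOf σ)
      (fun k => if k < σ.length then .add (1 + (k + 1) * nOf σ) 1 else .sub 0 0) p)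

/-- SBW (EASY). PROOF. `wf_iff`, `allAt_append`, `allAt_flatMap_range`, `length_copyB`
(`length_le_nOf`; a program out of range is empty), `copyB_ok`. -/
def SBW : Prop := ∀ (n : ℕ) (σ : List (List Gate)) (p : List Gate), WF n (substP n σ p) ∧
  (substP n σ p).length = 3 + σ.length * nOf σ + p.length

/-- SBV (EASY-MEDIUM; uses SBW). PROOF. As `padP_value`, `negP_value`: `models_self` for SBW,
`v 0 = 1`, `v 1 = 0`, `copyB_value` for the block `i` with `x' k = x k` for `k < n`, `0` otherwise gives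
`v (1 + (i + 1) * nOf σ) = value x' (σ.getD i []) = value x (σ.getD i [])` (`value_congr`; the variables
of a `WF n` program are `< n`, see `value_wf1`). `copyB_value` for the last block, `value x [] = 0`. -/
def SBV : Prop := ∀ (A : Type) [CommRing A] (n : ℕ) (σ : List (List Gate)) (p : List Gate)
  (x : ℕ → A), (∀ q ∈ σ, WF n q) →
  value x (substP n σ p) = value (fun k => value x (σ.getD k [])) p

/-- SBT (EASY). PROOF. `unfold substP`, `PTF.append`, `PTF.flatMap'`, `fun_prop`; compare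
`PTF.uP`, `PTF.padS` (Bd/B02.lean), `FS/FPT.lean`. -/
def SBT : Prop := PTF (fun x : (ℕ × List (List Gate)) × List Gate => substP x.1.1 x.1.2 x.2)

/-- The program with the value `-f` -/
def ngP (p : List Gate) : List Gate := substP 1 [p] [.one, .sub 0 0, .var 0, .sub 1 2]

/-! ## Part A: the upper bound -/

/-- The query: positive iff `2^(2^c) f_p(α/β) < 1`. -/
def FXS (fx : (ℕ × List Gate) × (List Gate × List Gate) → List Gate) : Prop :=
  ∀ (c : ℕ) (a b p : List Gate), p ≠ [] → WF 1 p → WF 0 (fx ((c, p), (a, b))) ∧ ∃ N D : ℤ,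
    value (fun _ => (0 : ℤ)) (fx ((c, p), (a, b))) = D ^ 2 - 2 ^ (2 ^ c) * N * D ∧
    (D ≠ 0 → (N : ℝ) / D = value (fun _ => ((value (fun _ => (0 : ℤ)) a : ℤ) : ℝ) /
      ((value (fun _ => (0 : ℤ)) b : ℤ) : ℝ)) p) ∧
    (value (fun _ => (0 : ℤ)) b ≠ 0 → D ≠ 0)

/-- FPX (EASY-MEDIUM). PROOF. Take `FS.fprog` with other last gates (`D^2 - 2^(2^c) N D` in place of
`D^2 - (2^(2^c) N)^2`), and copy `FS/FPW.lean`, `FS/FPV.lean`, `FS/FPT.lean`. (With `t` the position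
after the blocks: `N` is at `t - 2`, `D` at `t - 1`, `2^(2^c)` at `2 + c`; the gates
`mul (2+c) (t-2)`, `mul t (t-1)`, `mul (t-1) (t-1)`, `sub (t+2) (t+1)`.) -/
def FPX : Prop := ∃ fx : (ℕ × List Gate) × (List Gate × List Gate) → List Gate, PTF fx ∧ FXS fx

/-- SN2 (EASY-MEDIUM; uses SBW, SBV, FS.NRM). Soundness. PROOF. Suppose `f = f_p` has no real root. Then
`f > 0` on the whole line or `f < 0` on the whole line (intermediate value theorem), and by
`RootCH.abs_lower (fP p) (2^L)` (`L = |p|`, as in FS/SND.lean) `1 < 2^(2^(3L+4)) |f(x)|` for all real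
`x`, so `1 < 2^(2^c) |f(x)|`. First query: `D^2 > 2^(2^c) N D`, so `D ≠ 0` and
`2^(2^c) f(x) < 1` for `x = α/β` (divide by `D^2`): `f > 0` is impossible. Second query: the same for
`-f = f_(ngP p)` (SBW, SBV: `ngP p` is `WF 1`, nonempty, its value at `x` is `-f(x)`): `f < 0` is
impossible. -/
def SN2 : Prop := ∀ fx : (ℕ × List Gate) × (List Gate × List Gate) → List Gate, FXS fx →
  ∀ (c : ℕ) (p a b a' b' : List Gate), p ≠ [] → WF 1 p → 3 * p.length + 4 ≤ c →
    PosSLP (fx ((c, p), (a, b))) → PosSLP (fx ((c, ngP p), (a', b'))) → ROOT p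

/-- CM2 (EASY-MEDIUM; uses FS.DSC, FS.RTB, FS.CHP, FS.ZER). Completeness. PROOF. As `FS/CMP.lean` and
`FS/FIN.lean`. If `fP h = 0` then `x = 0` (ZER), otherwise `|x| ≤ 2^(2^(n+1))` (RTB). DSC with
`E = c + |p| + n + k + 8` gives `y` with `|y - x| ≤ 10 (1/2)^(2^E)` in a chain. `norm_value_sub_le`
with `M = 2^(2^(n+2))`, `L = |p|`: `f(y) ≤ f(x) + |f(y) - f(x)| ≤ |y - x| 2^(2^(n+L+3))`, so
`2^(2^c) f(y) ≤ 10 · 2^(2^c + 2^(n+L+3)) / 2^(2^E) < 1`, because `2^E ≥ 2^c + 2^(n+L+3) + 4`.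
CHP gives `a`, `b` with `α/β = y`, `β ≠ 0`; FXS: `D ≠ 0`, `N/D = f(y)`, so `D^2 - 2^(2^c) N D > 0`. -/
def CM2 : Prop := ∀ fx : (ℕ × List Gate) × (List Gate × List Gate) → List Gate, FXS fx →
  ∀ (p h : List Gate) (c n k : ℕ) (x : ℝ), p ≠ [] → WF 1 p → h ≠ [] → WF 1 h → h.length ≤ n →
    aeval x (fP p) ≤ 0 → aeval x (fP h) = 0 → FewScales (fP h) k x →
    ∃ a b : List Gate, WF 0 a ∧ WF 0 b ∧
      a.length ≤ 5 * (100 * (k + 2) * (c + p.length + n + k + 10) * (n + 2)) + 5 ∧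
      b.length ≤ 5 * (100 * (k + 2) * (c + p.length + n + k + 10) * (n + 2)) + 5 ∧
      PosSLP (fx ((c, p), (a, b)))

/-- EL4 (EASY). PROOF. Copy `FS/ELN.lean` (a gate contributes at most `4 + 5 + 2(n+1)` bits). -/
def EL4 : Prop := ∀ (n : ℕ) (a b a' b' : List Gate), WF 0 a → WF 0 b → WF 0 a' → WF 0 b' →
  a.length ≤ n → b.length ≤ n → a'.length ≤ n → b'.length ≤ n →
  (encSys [a, b, a', b']).length ≤ 60 * (n + 1) ^ 2

/-- UPP (MEDIUM; uses FPX, SN2, CM2, EL4, SBW, SBV, SBT, FS.SPR, FS.NRM, FS.ELN). The upper bound.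
PROOF. `ptf_of_f`: `PTF g`. Certificate of `w`: `s = encSys [a, b, a', b']`; with `P = decProg (g w)`,
`c = 3|P| + 4`, the machine `R` is `FS.certR (g w, s)` (`encProg P = g w`, `P ≠ []`, `WF 1 P`) and
the programs are `fx ((c, P), (a, b))`, `fx ((c, ngP P), (a', b'))` (as in `FS/CLS.lean`, with
`(decSys s).getD i []`; `Z = []`). If they are positive then `ROOT P` (SN2), so `ROOTL (g w)`, so `L w`.
Conversely let `L w`, `g w = encProg P`, `Tame K P`, `K = q(|w|)`. Let `K' = |P| + 3K + 10`. There are `x`,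
`y` and programs `h`, `h'` with at most `K'` gates, `FewScales _ K' _`, and `f_P(x) ≤ 0 ≤ f_P(y)`: in
the first case of `Tame` clear (`fewScales_mono`, FS/Main0.lean), in the second one take `x = y` a root of
`f_P`, `h = h' = P` (SPR, NRM; if `f_P = 0` take `x = y = 0`; see `FS.main` in FS/Main0.lean). CM2 for `P`
and `x`, and for `ngP P` (`|ngP P| = |P| + 10` by SBW, value `-f_P`) and `y`, `n = k = K'`, gives
`a, b, a', b'` of length at most `T = 5(100(K'+2)(c + |P| + 20 + 2K')(K'+2)) + 5`, and the certificate has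
length `≤ 60(T+1)^2` (EL4). Here `|P| ≤ |g w|` (ELN), so this is at most a polynomial in `|w|`:
`exists_poly_of_ptf` (see `inNP_of_red` in Main.lean) for the same expression with `|g w|` for `|P|`. -/
def UPP : Prop := ∀ (L : List Bool → Prop) (g : List Bool → List Bool) (q : Polynomial ℕ),
  PTF g → (∀ w, (L w → ∃ p, g w = encProg p ∧ Tame (q.eval w.length) p) ∧ (ROOTL (g w) → L w)) →
  NPPosSLP L

/-! ## Part B: one positivity condition for a program with bits as inputs -/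

/-- SQA (EASY). PROOF. The first half of the proof of `oneReal_of_npPosSLP` (Main.lean): `R` is
`R q && (Y q).all (wfb 0)`, `G q = (Y q).filter (wfb 0) ++ ((Z q).filter (wfb 0)).map negP`
(`negP_value`; `negP g` is `WF 0`: `hwf` in the proof of `negP_value`). -/
def SQA : Prop := ∀ L : List Bool → Prop, NPPosSLP L → ∃ (p : Polynomial ℕ)
  (R : List Bool × List Bool → Bool) (G : List Bool × List Bool → List (List Gate)),
  PTF R ∧ PTF G ∧ (∀ s, ∀ g ∈ G s, WF 0 g) ∧ ∀ x, L x ↔ ∃ w : List Bool,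
    w.length ≤ p.eval x.length ∧ R (x, w) = true ∧ ∀ g ∈ G (x, w), 0 < value (fun _ => (0 : ℤ)) g

/-- All `D j` are positive, tested with approximations `n j ^ 2` of the `D j`. -/
def cmb (k s : ℕ) (D n : ℕ → ℤ) : ℤ := ∏ i ∈ range k, D i ^ (2 ^ s) -
  ∑ j ∈ range k, (D j - n j ^ 2) ^ (2 ^ s) * ∏ i ∈ (range k).erase j, D i ^ (2 ^ s)

/-- CIN (EASY-MEDIUM). PROOF. First part: the terms of the sum are `≥ 0` (`2^s` is even), so the product
`P` is positive, all `D i ≠ 0`, and the term `j` is `< P`, i.e. `(D j - n j ^ 2)^(2^s) < (D j)^(2^s)`, so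
`|D j - n j ^ 2| < |D j|`; as `n j ^ 2 ≥ 0` this is false for `D j < 0`. Second part:
`|D j - n j ^ 2| ≤ (3/5) D j`, so the term `j` is at most `(3/5)^(2^s) P`, and
`(3/5)^(2^s) = (9/25)^(2^(s-1)) ≤ (1/2)^(2^(s-1)) ≤ (1/2)^s`, `k (1/2)^s < 1`. -/
def CIN : Prop := ∀ (k s : ℕ) (D n : ℕ → ℤ), 1 ≤ s →
  (0 < cmb k s D n → ∀ j < k, 0 < D j) ∧
  (k < s → (∀ j < k, 0 < D j ∧ 2 * D j ≤ 5 * n j ^ 2 ∧ 5 * n j ^ 2 ≤ 8 * D j) → 0 < cmb k s D n)

/-- CPR (MEDIUM). PROOF. `P_0 = 1`, `S_0 = 0`, `P_(j+1) = P_j d_j`, `S_(j+1) = S_j d_j + e_j P_j`, with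
`d_j = (x j)^(2^s)`, `e_j = (x j - x (k+j)^2)^(2^s)`; then `P_k - S_k` is the value. Layout: `one`, `sub 0 0`,
then for `j < k` a block of `8 + 2s` gates at `b = 2 + j (8 + 2s)`: `var j`, `var (k+j)`,
`mul (b+1) (b+1)`, `sub b (b+2)`, the `s` squarings `mul u u` which start from `b` (positions `b+4 ..
b+3+s`), the `s` squarings which start from `b+3` (positions `b+4+s .. b+3+2s`), then `P d`, `S d`, `e P`,
and the sum of the last two. (Or any other program; first prove that the value of your program is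
`P_k - S_k` and then by induction on the number of blocks that this is `cmb`.) -/
def CPR : Prop := ∃ cb : ℕ → ℕ → List Gate, PTF (fun x : ℕ × ℕ => cb x.1 x.2) ∧
  ∀ k s : ℕ, WF (2 * k) (cb k s) ∧ ∀ x : ℕ → ℤ, value x (cb k s) = cmb k s x (fun j => x (k + j))

/-- PWN (EASY-MEDIUM). PROOF. Claim: for `k < 2^t` there is a nonempty `WF 0` program with at most `2t + 1`
gates and the value `2^k` (induction on `t`, `k = 2k' + b`: square the last value, and double it if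
`b = 1`). Let `k` be the largest number with `5 · 4^k ≤ 8 D` (`k = 0` is possible). Then `2 D < 5 · 4^k`, and
`4^k ≤ 2 · 2^(2^L)`, so `k ≤ 2^L < 2^(L+1)`. -/
def PWN : Prop := ∀ (D : ℤ) (L : ℕ), 0 < D → D ≤ 2 ^ 2 ^ L → ∃ q : List Gate, q ≠ [] ∧ WF 0 q ∧
  q.length ≤ 2 * L + 10 ∧ 2 * D ≤ 5 * (value (fun _ => (0 : ℤ)) q) ^ 2 ∧
  5 * (value (fun _ => (0 : ℤ)) q) ^ 2 ≤ 8 * D

/-- SQB (MEDIUM; uses CIN, CPR, PWN, SBW, SBV, SBT). One query. PROOF. `B x` (a `PTF` function, see the bound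
`hbound` in `np_closure`) bounds the number and the lengths of the programs of `G (x, w)` for
`|w| ≤ p(|x|)`. `m x = (p(|x|) + 1) + (22 (B x + 4)^3 + 1)`. A string `u` of length `m x` is split (`take`,
`drop` at `p(|x|) + 1`) into `u1`, `u2`; `w = strip u1` (so `|w| ≤ p(|x|)`), `l = decSys (strip u2)`. With
`g_0 .. g_(k-1)` the programs of `G (x, w)` and `h_j = l.getD j []` if this is `WF 0` (`wfb 0`), `[]`
otherwise: `R' (x, u) = R (x, w)`, `Q (x, u) = substP 0 (g_0, .., g_(k-1), h_0, .., h_(k-1)) (cb k (k+1))`.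
By SBV and CPR the value is `cmb k (k+1) D n`, `D j` the value of `g_j` and `n j` the value of `h_j`. If it is
positive then all `D j > 0` (CIN). Conversely let all `D j > 0`; `D j ≤ 2^(2^(B x))` (`norm_value_le` or
`value_induction`), PWN gives `h_j`, `|h_j| ≤ 2 B x + 10`; `u1 = w ++ true :: 0..0` and
`u2 = encSys (h_0, .., h_(k-1)) ++ true :: 0..0` (`strip_pad`), because
`|encSys (h_j)| ≤ (k+1) + k (2B+10) (k + 5 + 2(2B+11)) ≤ 22 (B+4)^3` (compare `FS/ELN.lean`). -/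
def SQB : Prop := ∀ (L : List Bool → Prop) (p : Polynomial ℕ)
  (R : List Bool × List Bool → Bool) (G : List Bool × List Bool → List (List Gate)),
  PTF R → PTF G → (∀ s, ∀ g ∈ G s, WF 0 g) → (∀ x, L x ↔ ∃ w : List Bool,
    w.length ≤ p.eval x.length ∧ R (x, w) = true ∧
      ∀ g ∈ G (x, w), 0 < value (fun _ => (0 : ℤ)) g) →
  ∃ (m : List Bool → ℕ) (R' : List Bool × List Bool → Bool)
    (Q : List Bool × List Bool → List Gate), PTF m ∧ PTF R' ∧ PTF Q ∧ (∀ s, WF 0 (Q s)) ∧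
    ∀ x, L x ↔ ∃ u : List Bool, u.length = m x ∧ R' (x, u) = true ∧
      0 < value (fun _ => (0 : ℤ)) (Q (x, u))

/-- The program `x 0 - 2^(2^J) (x 1 + ... + x k)`. -/
def linP (k J : ℕ) : List Gate :=
  preB J ++ ((List.range k).flatMap (fun i =>
      [.var (i + 1), .add (if i = 0 then 1 else 2 + J + 2 * i) (3 + J + 2 * i)]) ++
    [.mul (2 + J) (if k = 0 then 1 else 2 + J + 2 * k), .var 0, .sub (4 + J + 2 * k) (3 + J + 2 * k)])

/-- LIN (EASY-MEDIUM). PROOF. `models_self`; `preB_value`; induction on `i`: the value at `4 + J + 2i` is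
`x 1 + ... + x (i+1)`. -/
def LIN : Prop := PTF (fun x : ℕ × ℕ => linP x.1 x.2) ∧ ∀ k J : ℕ, WF (k + 1) (linP k J) ∧
  ∀ x : ℕ → ℤ, value x (linP k J) = x 0 - 2 ^ (2 ^ J) * ∑ i ∈ range k, x (i + 1)

/-- The valuation `v` describes the program `q`. -/
def Desc1 (N : ℕ) (nm : ℕ → Nm) (v : Nm → Bool) (q : List Gate) : Prop :=
  q.length = N ∧ (∀ k (h : k < q.length), q[k] ∈ glist N) ∧
    ∀ k < N, ∀ l < (glist N).length,
      (v (nm (k * (glist N).length + l)) = true ↔ (glist N).idxOf (q.getD k .one) = l)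

/-- The value of the described program, minus a large multiple of the sum over the clauses. The inputs
are the bits of the names in `V`, and one more (number `V.length`), which should be `0`. -/
def fU (N : ℕ) (φ : List (List (Bool × Nm))) (nm : ℕ → Nm) (V : List Nm) (J : ℕ) : List Gate :=
  substP (V.length + 1) (uP N (fun t => V.idxOf (nm t)) 0 0 ::
    (List.range φ.length).map (fun c => clP (fun ν => V.idxOf ν) V.length (φ.getD c [])))
    (linP φ.length J)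

/-- BNA (MEDIUM; uses SBV, LIN). PROOF. Compare `uSys_sound`, `uSys_complete`, `polyAt_uP` (Bd/B02.lean).
`n = V.length + 1`, `s = V.length`; `uP_wf`, `clP_wf`; by SBV, LIN and `clP_value` the value at `y` is
`u(y) - 2^(2^J) ∑_c ((y s)^2 + ∏_(l ∈ c) litv l)`, `u(y)` the value of `uP`. For bits `y` all terms of the
sum are integers `≥ 0` and `|u(y)| ≤ 2^(2^J)` (`norm_value_le` for `𝕜 = ℝ`, `M = 2`, or
`value_induction`; `length_uP`). (A): the sum must be `0`, so all clauses hold for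
`v ν = decide (y (V.idxOf ν) = 1)` (as in `uSys_sound`), and `u(y) > 0`; `uP_value` (`o = j = 0`) gives
`u(y) = c` for every described `q` with constant value `c`. (B): `y k = [v (V.getD k _)]` for
`k < V.length`, `0` for the other `k`; the sum is `0` and `u(y) = c` (`uP_value`). -/
def BNA : Prop := ∀ (N M J : ℕ) (φ : List (List (Bool × Nm))) (nm : ℕ → Nm) (V : List Nm), 1 ≤ N →
  V = vlist φ nm M → N * (glist N).length ≤ M → 2 + N * ((glist N).length * 4) ≤ J →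
  (∀ y : ℕ → ℤ, (∀ i, y i = 0 ∨ y i = 1) → 0 < value y (fU N φ nm V J) →
    ∃ v : Nm → Bool, SatBy v φ ∧ ∀ (q : List Gate) (c : ℤ), Desc1 N nm v q →
      (∀ x : ℕ → ℤ, value x q = c) → 0 < c) ∧
  (∀ v : Nm → Bool, SatBy v φ → ∀ (q : List Gate) (c : ℤ), Desc1 N nm v q →
      (∀ x : ℕ → ℤ, value x q = c) → 0 < c →
      ∃ y : ℕ → ℤ, (∀ i, y i = 0 ∨ y i = 1) ∧ 0 < value y (fU N φ nm V J))

/-- BNB (MEDIUM; uses BNA, LIN, SBW, SBT). PROOF. Adapt the proof of `np_closure` (Bd/B02.lean) to one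
program: `N a` bounds the lengths `|Q (a, w)| + 3` for `|w| = m a`, `q = padP N 0 (Q (a, w))`
(`length_padP`, `padP_mem`, `padP_value`; its value is constant by `value_wf0`),
`codeBits1 N q = (List.range (N * G)).map (fun t => decide (idxOf (q.getD (t / G) .one) = t % G))`,
`G = (glist N).length`, `B = N * G`; `R' (a, u) = R (a, u.drop B) && (u.take B = codeBits1 N q)`, `sat_link`;
`F a = fU (N a) (f a) (fun t => nm (a, t)) V (2 + N * (G * 4))`, `V = vlist (f a) _ (B a + m a)`,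
`n a = V.length + 1`, `WF` by SBW. -/
def BNB : Prop := ∀ (P : List Bool → Prop) (m : List Bool → ℕ)
  (R : List Bool × List Bool → Bool) (Q : List Bool × List Bool → List Gate),
  PTF m → PTF R → PTF Q → (∀ s, WF 0 (Q s)) → (∀ a, P a ↔ ∃ u : List Bool, u.length = m a ∧
    R (a, u) = true ∧ 0 < value (fun _ => (0 : ℤ)) (Q (a, u))) →
  ∃ (n : List Bool → ℕ) (F : List Bool → List Gate), PTF n ∧ PTF F ∧ ∀ a, 1 ≤ n a ∧
    WF (n a) (F a) ∧ (P a ↔ ∃ y : ℕ → ℤ, (∀ i, y i = 0 ∨ y i = 1) ∧ 0 < value y (F a))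

/-! ## Part C: from bits to one real number -/

/-- the logistic map -/
def lg {A : Type} [CommRing A] (z : A) : A := 4 * z * (1 - z)

/-- the amplification -/
def am {A : Type} [CommRing A] (z : A) : A := z ^ 2 * (3 - 2 * z)

/-- the bit `i` of `t` -/
def bt {A : Type} [CommRing A] (r i : ℕ) (t : A) : A := am^[r] (lg^[2 * i] t)

/-- The program for `bt r i`. The numbers `1, 0, 2, 3, t` are at the positions `0 .. 4`. -/
def betP (r i : ℕ) : List Gate :=
  [.one, .sub 0 0, .add 0 0, .add 2 0, .var 0] ++ ((List.range (2 * i)).flatMap (fun j =>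
      [.sub 0 (4 + 4 * j), .mul (4 + 4 * j) (5 + 4 * j), .add (6 + 4 * j) (6 + 4 * j),
        .add (7 + 4 * j) (7 + 4 * j)]) ++
    (List.range r).flatMap (fun j => [.mul (4 + 8 * i + 4 * j) (4 + 8 * i + 4 * j),
      .add (4 + 8 * i + 4 * j) (4 + 8 * i + 4 * j), .sub 3 (6 + 8 * i + 4 * j),
      .mul (5 + 8 * i + 4 * j) (7 + 8 * i + 4 * j)]))

/-- BTV (EASY-MEDIUM). PROOF. `models_self`; induction on `j`: the value at `4 + 4j` is `lg^[j] t` for
`j ≤ 2i`, and the value at `4 + 8i + 4j` is `am^[j] (lg^[2i] t)` for `j ≤ r`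
(`Function.iterate_succ_apply'`). -/
def BTV : Prop := PTF (fun x : ℕ × ℕ => betP x.1 x.2) ∧ ∀ r i : ℕ, WF 1 (betP r i) ∧
  ∀ (A : Type) [CommRing A] (t : A), value (fun _ => t) (betP r i) = bt r i t

/-- `(2 + ∑ x_i^2)^(2^c) ∑ (x_i^2 - x_i)^2 - (2 f_p(x) - 1)` -/
def finP (n c : ℕ) (p : List Gate) : List Gate :=
  [.one, .add 0 0, .sub 0 0] ++ ((List.range n).flatMap (fun i =>
      [.var i, .mul (3 + 6 * i) (3 + 6 * i), .sub (4 + 6 * i) (3 + 6 * i),
        .mul (5 + 6 * i) (5 + 6 * i), .add (1 + 6 * i) (4 + 6 * i), .add (2 + 6 * i) (6 + 6 * i)]) ++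
    (.add (1 + 6 * n) 2 :: ((List.range c).map (fun j => .mul (3 + 6 * n + j) (3 + 6 * n + j)) ++
    (.mul (3 + 6 * n + c) (2 + 6 * n) ::
      (copyB (p.length + 1) 2 (5 + 6 * n + c) (fun k => if k < n then .var k else .sub 0 0) p ++
    [.add (5 + 6 * n + c + p.length) (5 + 6 * n + c + p.length), .sub (6 + 6 * n + c + p.length) 0,
      .sub (4 + 6 * n + c) (7 + 6 * n + c + p.length)])))))

/-- FNV (MEDIUM). PROOF. `models_self`. The value at `1 + 6i` is `2 + ∑_(j<i) x_j^2`, the value at `2 + 6i` is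
`∑_(j<i) (x_j^2 - x_j)^2` (induction on `i ≤ n`; positions `1`, `2` are `2`, `0`), at `3 + 6n + j`:
`(2 + ∑ x^2)^(2^j)`, at `4 + 6n + c` the product, at `5 + 6n + c + |p|` the value of `p`
(`copyB_value` with `x' k = x k` for `k < n`, `0` otherwise, `value_congr`). -/
def FNV : Prop := PTF (fun x : (ℕ × ℕ) × List Gate => finP x.1.1 x.1.2 x.2) ∧
  ∀ (n c : ℕ) (p : List Gate), WF n (finP n c p) ∧ (WF n p → ∀ (A : Type) [CommRing A]
    (x : ℕ → A), value x (finP n c p) = (2 + ∑ i ∈ range n, x i ^ 2) ^ (2 ^ c) *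
      ∑ i ∈ range n, (x i ^ 2 - x i) ^ 2 - (2 * value x p - 1))

/-- The program in one variable. -/
def robP (n : ℕ) (p : List Gate) : List Gate :=
  substP 1 ((List.range n).map (fun i => betP (p.length + 2 * n + 12) i)) (finP n (p.length + 4) p)

/-- RBV (EASY; uses SBW, SBV, SBT, BTV, FNV). PROOF. SBV, BTV, FNV; `(List.map ..).getD k []` is the `k`-th
program for `k < n` and `[]` (value `0`) for `k ≥ n`. `robP n p` is not empty by the length in SBW. -/
def RBV : Prop := PTF (fun x : ℕ × List Gate => robP x.1 x.2) ∧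
  ∀ (n : ℕ) (p : List Gate), robP n p ≠ [] ∧ WF 1 (robP n p) ∧ (WF n p → ∀ (A : Type) [CommRing A]
    (t : A), value (fun _ => t) (robP n p) =
      (2 + ∑ i ∈ range n, bt (p.length + 2 * n + 12) i t ^ 2) ^ (2 ^ (p.length + 4)) *
      ∑ i ∈ range n, (bt (p.length + 2 * n + 12) i t ^ 2 - bt (p.length + 2 * n + 12) i t) ^ 2 -
      (2 * value (fun i => if i < n then bt (p.length + 2 * n + 12) i t else 0) p - 1))

/-- ROA (MEDIUM). PROOF. `M = 2 + ∑ x_i^2 ≥ 2`, `E` the second sum, `L = |p|`, `q = 2^L ≥ 1`. All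
`|x_i| ≤ M`, so `|f(x)| ≤ M^q` (`norm_value_le`) and `M^(16q) E ≤ 2 f(x) - 1 ≤ 2 M^q ≤ M^(q+1)`, so
`E ≤ M^(1-15q)`. Let `y_i = 1` if `x_i > 1/2`, `0` otherwise (so `y_i = 0` for `i ≥ n`); `|x_i - y_i| ≤
2 |x_i| |x_i - 1|`, so `|x_i - y_i|^2 ≤ 4 E ≤ M^(3-15q) ≤ M^(-12q)`, `|x_i - y_i| ≤ d := M^(-6q) ≤ 1/64`.
`norm_value_sub_le`: `|f(x) - f(y)| ≤ d M^(2q) ≤ M^(-4q) ≤ 1/16`. `E ≥ 0`, so `2 f(x) - 1 ≥ 0`,
`f(y) ≥ 1/2 - 1/16 > 0`. (`value y p` over `ℤ` and over `ℝ`: `value_map`.) -/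
def ROA : Prop := ∀ (n : ℕ) (p : List Gate) (x : ℕ → ℝ), (∀ i, n ≤ i → x i = 0) →
  (2 + ∑ i ∈ range n, x i ^ 2) ^ (2 ^ (p.length + 4)) * ∑ i ∈ range n, (x i ^ 2 - x i) ^ 2 -
    (2 * value x p - 1) ≤ 0 →
  ∃ y : ℕ → ℤ, (∀ i, y i = 0 ∨ y i = 1) ∧ (∀ i, |x i - y i| ≤ 1 / 16) ∧ 0 < value y p

/-- ROB (MEDIUM). PROOF. `L = |p|`, `δ = (1/2)^(2^(L+2n+7))`. `M = 2 + ∑ x_i^2 ≤ 2 + n ≤ 2^(n+1)`, and
`(x_i^2 - x_i)^2 ≤ δ^2` for `i < n` (one of `|x_i|`, `|x_i - 1|` is at most `δ`, the other one at most `1`), so the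
first term is at most `2^((n+1) 2^(L+4)) n δ^2 ≤ 1/2`, because `2^(L+2n+7) ≥ (n+1) 2^(L+4) + n + 2`.
`|f(x) - f(y)| ≤ δ 2^(2^(L+1)) ≤ 1/4` (`norm_value_sub_le`, `M = 2`), `f(y) ≥ 1`. -/
def ROB : Prop := ∀ (n : ℕ) (p : List Gate) (x : ℕ → ℝ) (y : ℕ → ℤ),
  (∀ i, y i = 0 ∨ y i = 1) → (∀ i, 0 ≤ x i ∧ x i ≤ 1) →
  (∀ i, |x i - y i| ≤ (1 / 2) ^ (2 ^ (p.length + 2 * n + 7))) → 0 < value y p →
  (2 + ∑ i ∈ range n, x i ^ 2) ^ (2 ^ (p.length + 4)) * ∑ i ∈ range n, (x i ^ 2 - x i) ^ 2 -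
    (2 * value x p - 1) ≤ 0

/-- AMP (EASY-MEDIUM). PROOF. `am` and `lg` map `[0,1]` to itself. `e = |z - b|` becomes
`φ(e) = 3e^2 - 2e^3` (`am (1 - z) = 1 - am z`), `φ` is increasing on `[0,1]`:
`41/100 → ≤ 37/100 → ≤ 31/100 → ≤ 23/100 → ≤ 14/100 → ≤ 1/6`, and `3 φ(e) ≤ (3e)^2`, so
`3 e_r ≤ (1/2)^(2^(r-5))`. Integers: `am z = 0` iff `z = 0`, and `am z - 1 = -(z-1)^2 (2z+1)`. -/
def AMP : Prop :=
  (∀ (r i : ℕ) (t : ℝ), 0 ≤ t → t ≤ 1 → 0 ≤ bt r i t ∧ bt r i t ≤ 1) ∧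
  (∀ (z b : ℝ), 0 ≤ z → z ≤ 1 → (b = 0 ∨ b = 1) → |z - b| ≤ 41 / 100 →
    ∀ r, 5 ≤ r → |am^[r] z - b| ≤ (1 / 2) ^ (2 ^ (r - 5))) ∧
  ∀ (r : ℕ) (z : ℤ), z ≠ 0 → z ≠ 1 → am^[r] z ≠ 0 ∧ am^[r] z ≠ 1

/-- PAT (MEDIUM). PROOF. Claim: for every `n`, `y` there is `t ∈ [1/5, 4/5]` with
`|lg^[2i] t - y i| ≤ 2/5` and `lg^[2i] t ∈ [1/5, 4/5]` for `i < n`. Induction on `n` (for all `y`): let `t'` be
the point for the shifted sequence. `lg (lg (1/5)) = 576/625 ≥ 4/5`, `lg (lg (2/5)) = 96/625 ≤ 1/5`, so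
by the intermediate value theorem `lg (lg z) = t'` for some `z ∈ [1/5, 2/5]`; take `t = z` if `y 0 = 0` and
`t = 1 - z` (`lg (1 - z) = lg z`) if `y 0 = 1`. Then `k = ⌊2^(4n+8) t⌋`: `|lg a - lg b| ≤ 4 |a - b|` on
`[0,1]`, so the error of `lg^[2i]` is at most `4^(2n) / 2^(4n+8) = 1/256 ≤ 1/100`. -/
def PAT : Prop := ∀ (n : ℕ) (y : ℕ → ℤ), (∀ i, y i = 0 ∨ y i = 1) → ∃ k : ℕ, k ≤ 2 ^ (4 * n + 8) ∧
  ∀ i < n, 0 ≤ lg^[2 * i] ((k : ℝ) / 2 ^ (4 * n + 8)) ∧ lg^[2 * i] ((k : ℝ) / 2 ^ (4 * n + 8)) ≤ 1 ∧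
    |lg^[2 * i] ((k : ℝ) / 2 ^ (4 * n + 8)) - y i| ≤ 41 / 100

/-- RBX (EASY-MEDIUM; uses RBV, ROA, ROB, AMP, PAT). PROOF. Put `x i = bt r i t` for `i < n`, `0` otherwise,
`r = |p| + 2n + 12` (`r - 5 = |p| + 2n + 7`). (1) ROA. (2) replace `y i` by `0` for `i ≥ n` (`value_congr`,
the variables of a `WF n` program are `< n`), PAT, AMP, ROB. (3) if the value at `2` were `≤ 0`, then ROA
gives `|bt r 0 2 - y 0| ≤ 1/16`, but `bt r 0 2` is the integer `am^[r] 2`, different from `0` and `1`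
(AMP; the cast commutes with `am^[r]`). -/
def RBX : Prop := ∀ (n : ℕ) (p : List Gate), WF n p →
  (∀ t : ℝ, value (fun _ => t) (robP n p) ≤ 0 →
    ∃ y : ℕ → ℤ, (∀ i, y i = 0 ∨ y i = 1) ∧ 0 < value y p) ∧
  (∀ y : ℕ → ℤ, (∀ i, y i = 0 ∨ y i = 1) → 0 < value y p → ∃ k : ℕ, k ≤ 2 ^ (4 * n + 8) ∧
    value (fun _ => (k : ℝ) / 2 ^ (4 * n + 8)) (robP n p) ≤ 0) ∧
  (1 ≤ n → 0 < value (fun _ => (2 : ℝ)) (robP n p))

/-- MKD (EASY-MEDIUM). PROOF. The program `2^m X - k`: `one`, `sub 0 0`, `m` doublings, the number `k` from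
its at most `m + 2` binary digits (double, perhaps add `1`), `var 0`, `mul`, `sub`; at most `3m + 20`
gates. The only complex root is `k/2^m` (`S = ∅` in `FewScales`). Second part: `S` is the same. -/
def MKD : Prop := (∀ k m : ℕ, k ≤ 2 ^ (m + 1) → Mark (3 * m + 20) ((k : ℝ) / 2 ^ m)) ∧
  ∀ (k k' : ℕ) (x : ℝ), k ≤ k' → Mark k x → Mark k' x

/-- HRD (EASY-MEDIUM; uses SQA, SQB, BNB, RBV, RBX, MKD). The lower bound. PROOF. SQA, SQB, BNB:
`n`, `F` with `L x ↔ ∃ y bits, 0 < value y (F x)`. `g x = encProg (robP (n x) (F x))` (`PTF` by RBV,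
`PTF.tm2_raw`). Let `L x`: RBX (2), (3) and MKD with `m = 4n + 8`, `K = 3m + 20` (`2 = 2/2^0`):
`f(k/2^m) ≤ 0 ≤ f(2)`, so `Tame K (robP ..)`, `K ≤ q(|x|)` by `exists_poly_of_ptf`;
`aeval t (fP p) = value (fun _ => t) p` by `value_map` (see FS/SND.lean). If `ROOTL (g x)` then
`encProg p = g x` gives `p = robP ..` (`decProg_encProg`), a real root `t`, RBX (1), `L x`. -/
def HRD : Prop := ∀ L : List Bool → Prop, NPPosSLP L →
  ∃ (g : List Bool → List Bool) (q : Polynomial ℕ),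
    Nonempty (Turing.TM2ComputableInPolyTime (fun s : List Bool => s) (fun s : List Bool => s) g) ∧
    ∀ w, (L w → ∃ p, g w = encProg p ∧ Tame (q.eval w.length) p) ∧ (ROOTL (g w) → L w)

end Pool.Agent.Work.MP_859ada_lc.FC
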